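import Mathlib

/-!
# Members without roots in linear families of polynomials over finite fields
-/

set_option autoImplicit false

namespace Pool.Agent.L0h9.SCF

open Polynomial

/-- the member of the affine linear family `g 0 + ∑ t i * g (i + 1)` -/
noncomputable def memb {A : Type*} [CommRing A] {m : ℕ} (g : Fin (m + 1) → A[X]) (t : Fin m → A) :
    A[X] :=
  g 0 + ∑ i : Fin m, C (t i) * g i.succ

lemma memb_map {A B : Type*} [CommRing A] [CommRing B] (φ : A →+* B) {m : ℕ}
    (g : Fin (m + 1) → A[X]) (t : Fin m → A) :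
    (memb g t).map φ = memb (fun i => (g i).map φ) fun i => φ (t i) := by
  simp only [memb, Polynomial.map_add, Polynomial.map_sum, Polynomial.map_mul, map_C]

lemma memb_eval {A : Type*} [CommRing A] {m : ℕ} (g : Fin (m + 1) → A[X]) (t : Fin m → A)
    (x : A) : (memb g t).eval x = (g 0).eval x + ∑ i : Fin m, t i * (g i.succ).eval x := by
  simp only [memb, eval_add, eval_finsetSum, eval_mul, eval_C]

lemma memb_natDegree_le {A : Type*} [CommRing A] {m d : ℕ} (g : Fin (m + 1) → A[X])
    (hg : ∀ i, (g i).natDegree ≤ d) (t : Fin m → A) : (memb g t).natDegree ≤ d := by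
  refine natDegree_add_le_of_degree_le (hg 0) ?_
  refine natDegree_sum_le_of_forall_le _ _ fun i _ => ?_
  exact (natDegree_C_mul_le _ _).trans (hg _)

lemma fibre_card {V W : Type*} [AddCommGroup V] [AddCommGroup W] (A : V →+ W)
    (hA : Function.Surjective A) (b : W) : {t | A t = b}.ncard * Nat.card W = Nat.card V := by
  obtain ⟨t0, ht0⟩ := hA b
  have h1 : {t | A t = b}.ncard = Nat.card A.ker := by
    rw [← Nat.card_coe_set_eq]
    refine Nat.card_congr
      { toFun := fun t => ⟨t.1 - t0, ?_⟩
        invFun := fun s => ⟨s.1 + t0, ?_⟩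
        left_inv := fun t => ?_
        right_inv := fun s => ?_ }
    · have := t.2
      rw [Set.mem_ofPred_eq] at this
      rw [AddMonoidHom.mem_ker, map_sub, this, ht0, sub_self]
    · have := (AddMonoidHom.mem_ker).1 s.2
      rw [Set.mem_ofPred_eq, map_add, this, ht0, zero_add]
    · apply Subtype.ext
      exact sub_add_cancel _ _
    · apply Subtype.ext
      exact add_sub_cancel_right _ _
  have h2 : Nat.card V = Nat.card (V ⧸ A.ker) * Nat.card A.ker :=
    AddSubgroup.card_eq_card_quotient_mul_card_addSubgroup _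
  have h3 : Nat.card (V ⧸ A.ker) = Nat.card W :=
    Nat.card_congr (QuotientAddGroup.quotientKerEquivOfSurjective A hA).toEquiv
  rw [h1, h2, h3, mul_comm]

section finite

variable {κ : Type*} [Field κ] {m : ℕ}

/-- the linear form given by a vector -/
def form (u : Fin m → κ) : (Fin m → κ) →+ κ where
  toFun t := ∑ i, t i * u i
  map_zero' := by simp
  map_add' s t := by
    simp only [Pi.add_apply, add_mul, Finset.sum_add_distrib]

lemma form_apply (u t : Fin m → κ) : form u t = ∑ i, t i * u i := rfl

lemma form_single (u : Fin m → κ) (i : Fin m) (a : κ) : form u (Pi.single i a) = a * u i := by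
  classical
  rw [form_apply, Finset.sum_eq_single i]
  · rw [Pi.single_eq_same]
  · intro j _ hj
    rw [Pi.single_eq_of_ne hj, zero_mul]
  · intro h
    exact absurd (Finset.mem_univ i) h

lemma form_surj (u : Fin m → κ) (i : Fin m) (hi : u i ≠ 0) : Function.Surjective (form u) := by
  intro b
  refine ⟨Pi.single i (b / u i), ?_⟩
  rw [form_single, div_mul_cancel₀ _ hi]

lemma form2_surj (u u' : Fin m → κ) (i j : Fin m) (h : u i * u' j - u j * u' i ≠ 0) :
    Function.Surjective ((form u).prod (form u')) := by
  rintro ⟨b, b'⟩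
  refine ⟨Pi.single i ((b * u' j - b' * u j) / (u i * u' j - u j * u' i)) +
    Pi.single j ((u i * b' - u' i * b) / (u i * u' j - u j * u' i)), ?_⟩
  rw [AddMonoidHom.prod_apply, map_add, map_add, form_single, form_single, form_single,
    form_single]
  refine Prod.ext ?_ ?_
  · change _ / _ * u i + _ / _ * u j = b
    rw [div_mul_eq_mul_div, div_mul_eq_mul_div, ← add_div, div_eq_iff h]
    ring
  · change _ / _ * u' i + _ / _ * u' j = b'
    rw [div_mul_eq_mul_div, div_mul_eq_mul_div, ← add_div, div_eq_iff h]
    ring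

variable [Finite κ]

/-- the number of members which vanish at a point -/
lemma count_one (g : Fin (m + 1) → κ[X]) (x : κ) (hx : ∃ i, (g i).eval x ≠ 0) :
    {t : Fin m → κ | (memb g t).eval x = 0}.ncard * Nat.card κ ≤ Nat.card κ ^ m := by
  by_cases h : ∃ i : Fin m, (g i.succ).eval x ≠ 0
  · obtain ⟨i, hi⟩ := h
    have h1 := fibre_card (form fun i => (g i.succ).eval x) (form_surj _ i hi) (-(g 0).eval x)
    rw [Nat.card_fun, Nat.card_fin] at h1
    rw [← h1]
    refine le_of_eq ?_
    congr 2
    ext t
    simp only [Set.mem_ofPred_eq]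
    rw [memb_eval, form_apply, add_comm, add_eq_zero_iff_eq_neg]
  · push Not at h
    have h1 : {t : Fin m → κ | (memb g t).eval x = 0} = ∅ := by
      rw [Set.eq_empty_iff_forall_notMem]
      intro t ht
      have ht' : (memb g t).eval x = 0 := ht
      obtain ⟨i, hi⟩ := hx
      rw [memb_eval] at ht'
      simp only [h, mul_zero, Finset.sum_const_zero, add_zero] at ht'
      refine Fin.cases (fun h0 => h0 ht') (fun j hj => hj (h j)) i hi
    rw [h1, Set.ncard_empty, zero_mul]
    exact Nat.zero_le _

/-- the number of members which vanish at two points in general position -/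
lemma count_two (g : Fin (m + 1) → κ[X]) (x x' : κ) (i j : Fin m)
    (h : (g i.succ).eval x * (g j.succ).eval x' - (g j.succ).eval x * (g i.succ).eval x' ≠ 0) :
    {t : Fin m → κ | (memb g t).eval x = 0 ∧ (memb g t).eval x' = 0}.ncard * Nat.card κ ^ 2 =
      Nat.card κ ^ m := by
  have h1 := fibre_card ((form fun i => (g i.succ).eval x).prod
    (form fun i => (g i.succ).eval x')) (form2_surj _ _ i j h)
    (-(g 0).eval x, -(g 0).eval x')
  rw [Nat.card_fun, Nat.card_fin, Nat.card_prod, ← sq] at h1
  rw [← h1]
  congr 2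
  ext t
  simp only [Set.mem_ofPred_eq]
  rw [memb_eval, memb_eval, AddMonoidHom.prod_apply, form_apply, form_apply, Prod.mk.injEq]
  refine and_congr ⟨fun h => ?_, fun h => ?_⟩ ⟨fun h => ?_, fun h => ?_⟩ <;>
    linear_combination h

/-- few pairs of points are not in general position -/
lemma few_pairs (g g' : κ[X]) (d : ℕ) (hg : g.natDegree ≤ d) (hg' : g'.natDegree ≤ d)
    (hli : ∀ a b : κ, C a * g + C b * g' = 0 → a = 0 ∧ b = 0) :
    {p : κ × κ | g.eval p.1 * g'.eval p.2 - g'.eval p.1 * g.eval p.2 = 0}.ncard ≤
      2 * d * Nat.card κ := by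
  classical
  have := Fintype.ofFinite κ
  have hg0 : g ≠ 0 := by
    intro h
    have := (hli 1 0 (by rw [h, mul_zero, map_zero, zero_mul, add_zero])).1
    exact one_ne_zero this
  set B : Finset κ := Finset.univ.filter fun x => g.eval x = 0 with hB
  have hBc : B.card ≤ d := by
    have h1 : B ⊆ g.roots.toFinset := by
      intro x hx
      rw [hB, Finset.mem_filter] at hx
      rw [Multiset.mem_toFinset, mem_roots hg0]
      exact hx.2
    exact (Finset.card_le_card h1).trans ((Multiset.toFinset_card_le _).trans
      ((card_roots' g).trans hg))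
  have hcard : Fintype.card κ = Nat.card κ := (Nat.card_eq_fintype_card).symm
  have hfib : ∀ x ∉ B, (Finset.univ.filter fun x' : κ =>
      g.eval x * g'.eval x' - g'.eval x * g.eval x' = 0).card ≤ d := by
    intro x hx
    have hx' : g.eval x ≠ 0 := by
      intro h
      exact hx (Finset.mem_filter.2 ⟨Finset.mem_univ _, h⟩)
    set P := C (-g'.eval x) * g + C (g.eval x) * g' with hP
    have hP0 : P ≠ 0 := fun h => hx' (hli _ _ h).2
    have h1 : (Finset.univ.filter fun x' : κ =>
        g.eval x * g'.eval x' - g'.eval x * g.eval x' = 0) ⊆ P.roots.toFinset := by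
      intro y hy
      rw [Finset.mem_filter] at hy
      rw [Multiset.mem_toFinset, mem_roots hP0, IsRoot.def, hP, eval_add, eval_mul, eval_mul,
        eval_C, eval_C]
      linear_combination hy.2
    refine (Finset.card_le_card h1).trans ((Multiset.toFinset_card_le _).trans
      ((card_roots' P).trans ?_))
    refine natDegree_add_le_of_degree_le ?_ ?_
    · exact (natDegree_C_mul_le _ _).trans hg
    · exact (natDegree_C_mul_le _ _).trans hg'
  rw [Set.ncard_eq_toFinset_card']
  have h2 : ({p : κ × κ | g.eval p.1 * g'.eval p.2 - g'.eval p.1 * g.eval p.2 = 0}).toFinset ⊆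
      (B ×ˢ (Finset.univ : Finset κ)) ∪ ((Finset.univ : Finset κ).filter fun x => x ∉ B).biUnion
        fun x => (Finset.univ.filter fun x' : κ =>
          g.eval x * g'.eval x' - g'.eval x * g.eval x' = 0).image fun x' => (x, x') := by
    rintro ⟨x, x'⟩ hx
    rw [Set.mem_toFinset] at hx
    rw [Finset.mem_union]
    by_cases hxB : x ∈ B
    · left
      exact Finset.mem_product.2 ⟨hxB, Finset.mem_univ _⟩
    · right
      rw [Finset.mem_biUnion]
      refine ⟨x, Finset.mem_filter.2 ⟨Finset.mem_univ _, hxB⟩, ?_⟩
      rw [Finset.mem_image]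
      exact ⟨x', Finset.mem_filter.2 ⟨Finset.mem_univ _, hx⟩, rfl⟩
  refine (Finset.card_le_card h2).trans ((Finset.card_union_le _ _).trans ?_)
  have h3 : (B ×ˢ (Finset.univ : Finset κ)).card ≤ d * Nat.card κ := by
    rw [Finset.card_product, Finset.card_univ, hcard]
    exact Nat.mul_le_mul_right _ hBc
  have h4 : (((Finset.univ : Finset κ).filter fun x => x ∉ B).biUnion
        fun x => (Finset.univ.filter fun x' : κ =>
          g.eval x * g'.eval x' - g'.eval x * g.eval x' = 0).image fun x' => (x, x')).card ≤
      Nat.card κ * d := by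
    refine (Finset.card_biUnion_le_card_mul _ _ d fun x hx => ?_).trans ?_
    · exact Finset.card_image_le.trans (hfib x (Finset.mem_filter.1 hx).2)
    · refine Nat.mul_le_mul_right _ ?_
      rw [← hcard, ← Finset.card_univ]
      exact Finset.card_filter_le _ _
  calc _ ≤ d * Nat.card κ + Nat.card κ * d := Nat.add_le_add h3 h4
    _ = 2 * d * Nat.card κ := by ring

/-- few members vanish -/
lemma few_zero (g : Fin (m + 1) → κ[X]) (ι : Fin 3 → Fin (m + 1))
    (hli : LinearIndependent κ fun a => g (ι a)) :
    {t : Fin m → κ | memb g t = 0}.ncard * ((Nat.card κ - 1) * Nat.card κ ^ 3) ≤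
      Nat.card κ ^ (m + 1) := by
  classical
  set q := Nat.card κ with hq
  have hq2 : 2 ≤ q := Finite.one_lt_card
  let Φ : (Fin (m + 1) → κ) →ₗ[κ] κ[X] := Fintype.linearCombination κ g
  have hΦ : ∀ s, Φ s = ∑ i, s i • g i := fun s => Fintype.linearCombination_apply κ g s
  have hrange : 3 ≤ Module.finrank κ (LinearMap.range Φ) := by
    have h1 : LinearIndependent κ (fun a : Fin 3 =>
        (⟨g (ι a), by
          rw [LinearMap.mem_range]
          refine ⟨Pi.single (ι a) 1, ?_⟩
          rw [hΦ, Finset.sum_eq_single (ι a)]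
          · rw [Pi.single_eq_same, one_smul]
          · intro b _ hb
            rw [Pi.single_eq_of_ne hb, zero_smul]
          · intro h
            exact absurd (Finset.mem_univ _) h⟩ : LinearMap.range Φ)) := by
      apply LinearIndependent.of_comp (LinearMap.range Φ).subtype
      exact hli
    have h2 := h1.fintype_card_le_finrank
    simpa using h2
  have hdim := LinearMap.finrank_range_add_finrank_ker Φ
  rw [Module.finrank_fintype_fun_eq_card, Fintype.card_fin] at hdim
  have hker : Nat.card (LinearMap.ker Φ) * q ^ 3 ≤ q ^ (m + 1) := by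
    rw [Module.natCard_eq_pow_finrank (K := κ) (V := LinearMap.ker Φ), ← hq, ← pow_add]
    exact Nat.pow_le_pow_right (by omega) (by omega)
  have hinj : {t : Fin m → κ | memb g t = 0}.ncard * (q - 1) ≤ Nat.card (LinearMap.ker Φ) := by
    have hun : Nat.card κˣ = q - 1 := by
      have := Fintype.ofFinite κ
      rw [hq]
      exact Nat.card_units κ
    rw [← hun, ← Nat.card_coe_set_eq, ← Nat.card_prod]
    have hmem : ∀ (t : Fin m → κ) (c : κˣ), memb g t = 0 →
        (Fin.cons (c : κ) fun i => (c : κ) * t i : Fin (m + 1) → κ) ∈ LinearMap.ker Φ := by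
      intro t c ht
      rw [LinearMap.mem_ker, hΦ, Fin.sum_univ_succ]
      simp only [Fin.cons_zero, Fin.cons_succ]
      have h1 : (c : κ) • g 0 + ∑ i : Fin m, ((c : κ) * t i) • g i.succ = (c : κ) • memb g t := by
        rw [memb, smul_add, Finset.smul_sum]
        congr 1
        refine Finset.sum_congr rfl fun i _ => ?_
        rw [← smul_eq_C_mul, smul_smul]
      rw [h1, ht, smul_zero]
    refine Nat.card_le_card_of_injective
      (fun x => (⟨_, hmem x.1.1 x.2 x.1.2⟩ : LinearMap.ker Φ)) ?_
    rintro ⟨⟨t, ht⟩, c⟩ ⟨⟨t', ht'⟩, c'⟩ h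
    have h1 := congrArg Subtype.val h
    have h2 : (c : κ) = c' := congrFun h1 0
    have h3 : ∀ i : Fin m, (c : κ) * t i = (c' : κ) * t' i := fun i => congrFun h1 i.succ
    have h4 : c = c' := Units.ext h2
    subst h4
    have h5 : t = t' := by
      funext i
      exact mul_left_cancel₀ c.ne_zero (h3 i)
    subst h5
    rfl
  calc _ = {t : Fin m → κ | memb g t = 0}.ncard * (q - 1) * q ^ 3 := by ring
    _ ≤ Nat.card (LinearMap.ker Φ) * q ^ 3 := Nat.mul_le_mul_right _ hinj
    _ ≤ q ^ (m + 1) := hker

end finite

end Pool.Agent.L0h9.SCF
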