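import Mathlib
import Pool.Agent.L0h9.SCF.Lin

/-!
# Algebraic preliminaries for linear families of polynomials
-/

set_option autoImplicit false

namespace Pool.Agent.L0h9.SCF

open Polynomial

section disc

/-- a polynomial expression which is not zero if and only if the polynomial is separable of degree
`d` -/
noncomputable def dsc {A : Type*} [CommRing A] (d : ℕ) (f : A[X]) : A :=
  f.coeff d * resultant f (derivative f) d (d - 1)

lemma dsc_map {A B : Type*} [CommRing A] [CommRing B] (φ : A →+* B) (d : ℕ) (f : A[X]) :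
    dsc d (f.map φ) = φ (dsc d f) := by
  rw [dsc, dsc, map_mul, coeff_map, derivative_map, resultant_map_map]

lemma of_dsc {K : Type*} [Field K] (d : ℕ) (hd : 1 ≤ d) (f : K[X]) (hf : f.natDegree ≤ d)
    (h : dsc d f ≠ 0) : f.natDegree = d ∧ f.Separable := by
  have h1 : f.coeff d ≠ 0 := left_ne_zero_of_mul h
  have h2 : resultant f (derivative f) d (d - 1) ≠ 0 := right_ne_zero_of_mul h
  refine ⟨le_antisymm hf (le_natDegree_of_ne_zero h1), ?_⟩
  obtain ⟨p, q, -, -, hpq⟩ := exists_mul_add_mul_eq_C_resultant f (derivative f) hf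
    ((natDegree_derivative_le f).trans (Nat.sub_le_sub_right hf 1)) (Or.inl (by omega : d ≠ 0))
  rw [Polynomial.Separable]
  refine ⟨p * C (resultant f (derivative f) d (d - 1))⁻¹,
    q * C (resultant f (derivative f) d (d - 1))⁻¹, ?_⟩
  have h3 : p * C (resultant f (derivative f) d (d - 1))⁻¹ * f +
      q * C (resultant f (derivative f) d (d - 1))⁻¹ * derivative f =
      (f * p + derivative f * q) * C (resultant f (derivative f) d (d - 1))⁻¹ := by ring
  rw [h3, hpq, ← C_mul, mul_inv_cancel₀ h2, C_1]

lemma dsc_ne {K : Type*} [Field K] [CharZero K] (f : K[X]) (hs : f.Separable) :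
    dsc f.natDegree f ≠ 0 := by
  have h0 : f ≠ 0 := hs.ne_zero
  refine mul_ne_zero ?_ ?_
  · rw [coeff_natDegree]
    exact leadingCoeff_ne_zero.2 h0
  · rw [← natDegree_derivative]
    intro h
    exact (resultant_eq_zero_iff.1 h).2 hs

end disc

section count

variable {κ : Type*} [Field κ] [Finite κ] {m : ℕ}

/-- a nonzero polynomial has few zeros -/
lemma zeros_card (D : MvPolynomial (Fin m) κ) (hD : D ≠ 0) (B : ℕ) (hB : D.totalDegree ≤ B) :
    {t : Fin m → κ | MvPolynomial.eval t D = 0}.ncard * Nat.card κ ≤ B * Nat.card κ ^ m := by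
  classical
  have := Fintype.ofFinite κ
  have h1 := MvPolynomial.schwartz_zippel_totalDegree hD (Finset.univ : Finset κ)
  have hq : 0 < Nat.card κ := Nat.card_pos
  rw [Finset.card_univ, ← Nat.card_eq_fintype_card (α := κ)] at h1
  have h2 : (Finset.filter (fun f => MvPolynomial.eval f D = 0)
      (Fintype.piFinset fun _ : Fin m => (Finset.univ : Finset κ))) =
      ({t : Fin m → κ | MvPolynomial.eval t D = 0}).toFinset := by
    ext t
    simp
  rw [h2, ← Set.ncard_eq_toFinset_card', div_le_div_iff₀ (by positivity) (by positivity)] at h1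
  have h3 : {t : Fin m → κ | MvPolynomial.eval t D = 0}.ncard * Nat.card κ ≤
      D.totalDegree * Nat.card κ ^ m := by exact_mod_cast h1
  exact h3.trans (Nat.mul_le_mul_right _ hB)

end count

section ring

variable {R k : Type*} [CommRing R] [IsDomain R] [Field k] [Algebra R k] [IsFractionRing R k]

/-- common denominators of finitely many polynomials -/
lemma exists_denom {ι : Type*} [Finite ι] (g : ι → k[X]) :
    ∃ (D : R) (G : ι → R[X]), D ≠ 0 ∧ ∀ i, (G i).map (algebraMap R k) =
      C (algebraMap R k D) * g i := by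
  classical
  have := Fintype.ofFinite ι
  have hch : ∀ i, ∃ (b : R) (G : R[X]), b ≠ 0 ∧ G.map (algebraMap R k) =
      C (algebraMap R k b) * g i := by
    intro i
    obtain ⟨b, hb, hbG⟩ := IsLocalization.integerNormalization_spec (nonZeroDivisors R) (g i)
    refine ⟨b, IsLocalization.integerNormalization (nonZeroDivisors R) (g i),
      nonZeroDivisors.ne_zero hb, ?_⟩
    rw [hbG]
    ext j
    rw [coeff_smul, coeff_C_mul, Algebra.smul_def]
  choose b G hb hG using hch
  refine ⟨∏ i, b i, fun i => C (∏ j ∈ Finset.univ.erase i, b j) * G i,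
    Finset.prod_ne_zero_iff.2 fun i _ => hb i, fun i => ?_⟩
  rw [Polynomial.map_mul, map_C, hG, ← mul_assoc, ← C_mul, ← map_mul,
    Finset.prod_erase_mul _ _ (Finset.mem_univ i)]

/-- linear independence is preserved by almost all reductions -/
lemma indep_reduce (G : Fin 3 → R[X])
    (hli : LinearIndependent k fun a => (G a).map (algebraMap R k)) :
    ∃ u : R, u ≠ 0 ∧ ∀ (κ : Type) [Field κ] (ρ : R →+* κ), ρ u ≠ 0 →
      LinearIndependent κ fun a => (G a).map ρ := by
  classical
  have hinj : Function.Injective (algebraMap R k) := IsFractionRing.injective R k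
  obtain ⟨φ, hφ⟩ := LinearMap.exists_leftInverse_of_injective
    (Fintype.linearCombination k fun a => (G a).map (algebraMap R k))
    (LinearMap.ker_eq_bot.2 (hli.fintypeLinearCombination_injective))
  have hφ' : ∀ a, φ ((G a).map (algebraMap R k)) = Pi.single a 1 := by
    intro a
    have h1 := LinearMap.congr_fun hφ (Pi.single a 1)
    rw [LinearMap.comp_apply, LinearMap.id_apply, Fintype.linearCombination_apply_single,
      one_smul] at h1
    exact h1
  set N := (Finset.univ.sup fun a => (G a).natDegree) + 1 with hN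
  have hGN : ∀ a, (G a).natDegree < N := by
    intro a
    have : (G a).natDegree ≤ Finset.univ.sup fun a => (G a).natDegree :=
      Finset.le_sup (f := fun a => (G a).natDegree) (Finset.mem_univ a)
    omega
  obtain ⟨b, hb⟩ := IsLocalization.exist_integer_multiples_of_finite (nonZeroDivisors R)
    (fun p : Fin 3 × Fin N => φ (X ^ (p.2 : ℕ)) p.1)
  choose r hr using hb
  have hrb : ∀ (c : Fin 3) (e : Fin N), algebraMap R k (r (c, e)) =
      algebraMap R k b * φ (X ^ (e : ℕ)) c := by
    intro c e
    have := hr (c, e)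
    rw [this, Algebra.smul_def]
  have hkey : ∀ a c : Fin 3, ∑ e : Fin N, (G a).coeff e * r (c, e) = if c = a then (b : R) else 0 := by
    intro a c
    apply hinj
    rw [map_sum]
    have h1 : ((G a).map (algebraMap R k)) = ∑ e : Fin N,
        algebraMap R k ((G a).coeff e) • (X ^ (e : ℕ) : k[X]) := by
      have h2 := ((G a).map (algebraMap R k)).as_sum_range' N
        (lt_of_le_of_lt natDegree_map_le (hGN a))
      rw [Finset.sum_range] at h2
      rw [h2]
      refine Finset.sum_congr rfl fun e _ => ?_
      rw [← C_mul_X_pow_eq_monomial, coeff_map, smul_eq_C_mul]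
    have h3 := congrFun (hφ' a) c
    rw [h1, map_sum, Finset.sum_apply] at h3
    simp only [map_smul, Pi.smul_apply, smul_eq_mul] at h3
    calc ∑ e : Fin N, algebraMap R k ((G a).coeff e * r (c, e)) =
        algebraMap R k b * ∑ e : Fin N, algebraMap R k ((G a).coeff e) * φ (X ^ (e : ℕ)) c := by
          rw [Finset.mul_sum]
          refine Finset.sum_congr rfl fun e _ => ?_
          rw [map_mul, hrb]
          ring
      _ = _ := by
        rw [h3]
        by_cases hca : c = a
        · subst hca
          rw [if_pos rfl, Pi.single_eq_same, mul_one]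
        · rw [if_neg hca, Pi.single_eq_of_ne hca, mul_zero, map_zero]
  refine ⟨b, nonZeroDivisors.ne_zero b.2, fun κ _ ρ hρ => ?_⟩
  rw [Fintype.linearIndependent_iff]
  intro lam hlam c
  have h1 : ∀ e : ℕ, ∑ a, lam a * ρ ((G a).coeff e) = 0 := by
    intro e
    have h2 := congrArg (fun p => p.coeff e) hlam
    simp only [finsetSum_coeff, coeff_smul, coeff_map, smul_eq_mul, coeff_zero] at h2
    exact h2
  have h2 : ∑ e : Fin N, (∑ a, lam a * ρ ((G a).coeff e)) * ρ (r (c, e)) = 0 := by
    refine Finset.sum_eq_zero fun e _ => ?_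
    rw [h1, zero_mul]
  have h3 : ∑ e : Fin N, (∑ a, lam a * ρ ((G a).coeff e)) * ρ (r (c, e)) =
      ∑ a, lam a * ρ (∑ e : Fin N, (G a).coeff e * r (c, e)) := by
    simp only [Finset.sum_mul, map_sum, map_mul, Finset.mul_sum]
    rw [Finset.sum_comm]
    refine Finset.sum_congr rfl fun a _ => Finset.sum_congr rfl fun e _ => ?_
    ring
  rw [h3] at h2
  simp only [hkey] at h2
  rw [Finset.sum_eq_single c] at h2
  · rw [if_pos rfl] at h2
    exact (mul_eq_zero.1 h2).resolve_right hρ
  · intro a _ hac
    rw [if_neg (Ne.symm hac), map_zero, mul_zero]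
  · intro h
    exact absurd (Finset.mem_univ _) h

/-- the common divisor of the polynomials -/
lemma exists_base {m : ℕ} (G : Fin (m + 1) → R[X]) :
    ∃ (H : R[X]) (W : Fin (m + 1) → R[X]) (h : k[X]) (u : R), u ≠ 0 ∧
      H = ∑ i, W i * G i ∧ H.map (algebraMap R k) = C (algebraMap R k u) * h ∧
      ∀ i, h ∣ (G i).map (algebraMap R k) := by
  classical
  obtain ⟨h, hh⟩ := (IsPrincipalIdealRing.principal
    (Ideal.span (Set.range fun i => (G i).map (algebraMap R k)))).principal
  have hh' : Ideal.span (Set.range fun i => (G i).map (algebraMap R k)) = Ideal.span {h} := hh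
  have hmem : h ∈ Ideal.span (Set.range fun i => (G i).map (algebraMap R k)) := by
    rw [hh']
    exact Ideal.mem_span_singleton_self h
  obtain ⟨w, hw⟩ := (Ideal.mem_span_range_iff_exists_fun).1 hmem
  obtain ⟨u, W, hu, hW⟩ := exists_denom (R := R) w
  refine ⟨∑ i, W i * G i, W, h, u, hu, rfl, ?_, fun i => ?_⟩
  · rw [Polynomial.map_sum, ← hw, Finset.mul_sum]
    refine Finset.sum_congr rfl fun i _ => ?_
    rw [Polynomial.map_mul, hW, mul_assoc]
  · rw [← Ideal.mem_span_singleton, ← hh']
    exact Ideal.subset_span ⟨i, rfl⟩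

end ring

end Pool.Agent.L0h9.SCF
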