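import Pool.Agent.TH120.Sec.DiagCount

/-!
# Counting the good vectors modulo the square of a prime
-/

set_option autoImplicit false

namespace Pool.Agent.L0h9.SCF

open Polynomial NumberField IsDedekindDomain Pool.Agent.TH120.Sec

universe u

variable {K : Type u} [Field K] [NumberField K] (v : HeightOneSpectrum (𝓞 K))

/-- the good vectors modulo `v ^ 2`, given by a set of vectors modulo `v` -/
def GoodS (m : ℕ) (S : Set (Fin m → 𝓞 K ⧸ v.asIdeal)) :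
    Set (Fin (m + 1) → 𝓞 K ⧸ v.asIdeal ^ 2) :=
  {x | pr v (x 0) = 0 ∧ x 0 ≠ 0 ∧ (fun i : Fin m => pr v (x i.succ)) ∈ S}

lemma goodS_iff (m : ℕ) (S : Set (Fin m → 𝓞 K ⧸ v.asIdeal)) (y : Fin (m + 1) → 𝓞 K)
    (hy : red (v.asIdeal ^ 2) (m + 1) y ∈ GoodS v m S) :
    y 0 ∈ v.asIdeal ∧ y 0 ∉ v.asIdeal ^ 2 ∧
      (fun i : Fin m => Ideal.Quotient.mk v.asIdeal (y i.succ)) ∈ S := by
  obtain ⟨h1, h2, h3⟩ := hy
  refine ⟨?_, ?_, h3⟩
  · exact Ideal.Quotient.eq_zero_iff_mem.1 h1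
  · exact fun h => h2 (Ideal.Quotient.eq_zero_iff_mem.2 h)

lemma goodS_card (m : ℕ) (S : Set (Fin m → 𝓞 K ⧸ v.asIdeal)) :
    (Ideal.absNorm v.asIdeal - 1) * S.ncard * Ideal.absNorm v.asIdeal ^ m ≤
      (GoodS v m S).ncard := by
  classical
  have hfin := finite_sq v
  have hfin' : Finite (𝓞 K ⧸ v.asIdeal) := Ideal.finiteQuotientOfFreeOfNeBot _ v.ne_bot
  set N := Ideal.absNorm v.asIdeal with hN
  set J : Set (𝓞 K ⧸ v.asIdeal ^ 2) := {x | pr v x = 0} with hJ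
  have hJc : J.ncard = N := ker_ncard v
  have hJ0 : (J \ {0}).ncard = N - 1 := by
    rw [Set.ncard_sdiff_singleton_of_mem (show (0 : 𝓞 K ⧸ v.asIdeal ^ 2) ∈ J from map_zero _), hJc]
  have hJp : (Set.pi Set.univ fun _ : Fin m => J).ncard = N ^ m := by
    rw [← Nat.card_coe_set_eq, Nat.card_congr (Equiv.Set.univPi _), Nat.card_pi]
    simp only [Nat.card_coe_set_eq, hJc, Finset.prod_const, Finset.card_univ, Fintype.card_fin]
  let s := Function.surjInv (pr_surj v)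
  have hs : ∀ x, pr v (s x) = x := Function.surjInv_eq (pr_surj v)
  have h1 : (((J \ {0}) ×ˢ S) ×ˢ
      (Set.pi Set.univ fun _ : Fin m => J)).ncard ≤ (GoodS v m S).ncard := by
    refine Set.ncard_le_ncard_of_injOn
      (fun x => Fin.cons x.1.1 fun i => s (x.1.2 i) + x.2 i) ?_ ?_ (Set.toFinite _)
    · rintro ⟨⟨j, c⟩, t⟩ ⟨⟨hj, hc⟩, ht⟩
      have e1 : ∀ i, pr v (s (c i) + t i) = c i := by
        intro i
        rw [map_add, hs, show pr v (t i) = 0 from ht i (Set.mem_univ i), add_zero]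
      refine ⟨hj.1, hj.2, ?_⟩
      change (fun i : Fin m => pr v (s (c i) + t i)) ∈ S
      simp only [e1]
      exact hc
    · rintro ⟨⟨j, c⟩, t⟩ ⟨⟨hj, hc⟩, ht⟩ ⟨⟨j', c'⟩, t'⟩ ⟨⟨hj', hc'⟩, ht'⟩ h
      have h0 : j = j' := congrFun h 0
      have h1 : ∀ i : Fin m, s (c i) + t i = s (c' i) + t' i := fun i => congrFun h i.succ
      have e1 : c = c' := by
        funext i
        have := congrArg (pr v) (h1 i)
        rwa [map_add, map_add, hs, hs, show pr v (t i) = 0 from ht i (Set.mem_univ i),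
          show pr v (t' i) = 0 from ht' i (Set.mem_univ i), add_zero, add_zero] at this
      subst h0 e1
      have e2 : t = t' := by
        funext i
        have := h1 i
        rwa [add_right_inj] at this
      rw [e2]
  rwa [Set.ncard_prod, Set.ncard_prod, hJp, hJ0] at h1

/-- the complement of the good vectors -/
lemma badS_card (m : ℕ) (S : Set (Fin m → 𝓞 K ⧸ v.asIdeal)) (δ : ℝ)
    (hS : δ * (Ideal.absNorm v.asIdeal : ℝ) ^ m ≤ S.ncard) :
    (((GoodS v m S)ᶜ).ncard : ℝ) ≤ (1 - δ * (1 / (Ideal.absNorm v.asIdeal : ℝ) -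
      1 / (Ideal.absNorm v.asIdeal : ℝ) ^ 2)) * ((Ideal.absNorm v.asIdeal : ℝ) ^ 2) ^ (m + 1) := by
  classical
  have hfin := finite_sq v
  have h1 := goodS_card v m S
  have h2 : (GoodS v m S).ncard + ((GoodS v m S)ᶜ).ncard =
      (Ideal.absNorm v.asIdeal ^ 2) ^ (m + 1) := by
    rw [Set.ncard_add_ncard_compl, Nat.card_fun, Pool.Agent.W417.SecC.D2.card_sq, Nat.card_fin]
  set N := Ideal.absNorm v.asIdeal with hN
  have hN2 : 2 ≤ N := by
    by_contra h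
    have h3 : N = 0 ∨ N = 1 := by omega
    rcases h3 with h3 | h3
    · exact absurd h3 (Pool.Agent.W417.SecC.D2.norm_pos v).ne'
    · rw [hN, Ideal.absNorm_eq_one_iff] at h3
      exact v.isPrime.ne_top h3
  have hNr : (2 : ℝ) ≤ N := by exact_mod_cast hN2
  have h3 : ((GoodS v m S).ncard : ℝ) + (((GoodS v m S)ᶜ).ncard : ℝ) =
      ((N : ℝ) ^ 2) ^ (m + 1) := by exact_mod_cast h2
  have h4 : ((N : ℝ) - 1) * (S.ncard : ℝ) * (N : ℝ) ^ m ≤ ((GoodS v m S).ncard : ℝ) := by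
    have h5 : ((N - 1 : ℕ) : ℝ) = (N : ℝ) - 1 := by
      rw [Nat.cast_sub (by omega)]
      norm_num
    rw [← h5]
    exact_mod_cast h1
  have h5 : ((N : ℝ) - 1) * (δ * (N : ℝ) ^ m) * (N : ℝ) ^ m ≤ ((GoodS v m S).ncard : ℝ) := by
    refine le_trans ?_ h4
    gcongr
    linarith
  have h6 : (1 - δ * (1 / (N : ℝ) - 1 / (N : ℝ) ^ 2)) * ((N : ℝ) ^ 2) ^ (m + 1) =
      ((N : ℝ) ^ 2) ^ (m + 1) - ((N : ℝ) - 1) * (δ * (N : ℝ) ^ m) * (N : ℝ) ^ m := by
    have hN0 : (N : ℝ) ≠ 0 := by linarith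
    have h7 : ((N : ℝ) ^ 2) ^ (m + 1) = (N : ℝ) ^ 2 * ((N : ℝ) ^ m * (N : ℝ) ^ m) := by ring
    rw [h7]
    field_simp
  rw [h6]
  linarith

end Pool.Agent.L0h9.SCF
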