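import Pool.Agent.L0h9.SCF.Ext3

/-!
# The density theorem for diagonal curves over all extensions of degree prime to `l`
-/

set_option autoImplicit false

namespace Pool.Agent.L0h9.SCF

open Polynomial WithZero IsDedekindDomain NumberField
open Pool.Agent.Y157.PS (FineP)

/-- the polynomial `b x ^ e + c` -/
noncomputable def bin {A : Type} [CommRing A] (e : ℕ) (b c : A) : A[X] := C b * X ^ e + C c

lemma bin_map {A B : Type} [CommRing A] [CommRing B] (χ : A →+* B) (e : ℕ) (b c : A) :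
    (bin e b c).map χ = bin e (χ b) (χ c) := by
  simp [bin]

lemma bin_natDegree {A : Type} [CommRing A] (e : ℕ) (_he : 0 < e) (b c : A) (hb : b ≠ 0) :
    (bin e b c).natDegree = e := by
  rw [bin, natDegree_add_C, natDegree_C_mul_X_pow e b hb]

lemma bin_sep {κ : Type} [Field κ] (e : ℕ) (_he : 0 < e) (b c : κ) (hb : b ≠ 0) (hc : c ≠ 0)
    (hek : (e : κ) ≠ 0) : (bin e b c).Separable := by
  have h1 : bin e b c = C b * (X ^ e - C (-c / b)) := by
    rw [bin, mul_sub, ← C_mul]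
    have : b * (-c / b) = -c := by field_simp
    rw [this, C_neg, sub_neg_eq_add]
  rw [h1]
  refine Separable.unit_mul (isUnit_C.2 hb.isUnit) ?_
  exact separable_X_pow_sub_C _ hek (div_ne_zero (neg_ne_zero.2 hc) hb)

/-- no root over extensions of degree prime to `l` -/
lemma bin_noRt {κ : Type} [Field κ] [Finite κ] (l : ℕ) (hl : l.Prime) (e : ℕ) (hle : l ∣ e)
    (b c : κ) (hb : b ≠ 0) (h : ∀ r : κ, b * r ^ l + c ≠ 0) : NoRt κ l (bin e b c) := by
  obtain ⟨m, rfl⟩ := hle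
  have hirr : Irreducible (bin l b c) := by
    have h1 : bin l b c = C b * (X ^ l - C (-c / b)) := by
      rw [bin, mul_sub, ← C_mul]
      have : b * (-c / b) = -c := by field_simp
      rw [this, C_neg, sub_neg_eq_add]
    rw [h1, irreducible_isUnit_mul (isUnit_C.2 hb.isUnit)]
    refine X_pow_sub_C_irreducible_of_prime hl fun r hr => h r ?_
    rw [hr]
    field_simp
    ring
  have h2 := irr_noRt l (bin l b c) hirr (by rw [bin_natDegree l hl.pos b c hb])
  intro κ' _ _ i j hcard hj x hx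
  refine h2 κ' i j hcard hj (x ^ m) ?_
  rw [← eval_map, bin_map, bin] at hx ⊢
  simp only [eval_add, eval_mul, eval_C, eval_pow, eval_X] at hx ⊢
  rw [← pow_mul, mul_comm m l]
  exact hx

/-- all the assertions -/
def GoodD {R k : Type} [CommRing R] [Field k] [Algebra R k] (l e : ℕ)
    (c : Fin (2 + 1) → R) : Prop :=
  algebraMap R k (c 0) ≠ 0 ∧ algebraMap R k (c 1) ≠ 0 ∧ algebraMap R k (c 2) ≠ 0 ∧
    FineE l (algebraMap R k (c 0)) (bin e (algebraMap R k (c 1)) (algebraMap R k (c 2)))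

theorem diag_density {R k : Type} [CommRing R] [IsDomain R] [CharZero R] [Algebra.FiniteType ℤ R]
    [Field k] [Algebra R k] [IsFractionRing R k] (l : ℕ) (hl : l.Prime) (e : ℕ) (he : 3 ≤ e)
    (hle : l ∣ e) (ε : ℝ) (hε : 0 < ε) :
    ∃ I : Ideal R, Finite (R ⧸ I) ∧
      (Set.ncard ((fun (c : Fin (2 + 1) → R) i => Ideal.Quotient.mk I (c i)) ''
        {c | ¬ GoodD (k := k) l e c}) : ℝ) ≤ ε * (Nat.card (R ⧸ I) : ℝ) ^ (2 + 1) := by
  classical
  have hcz : CharZero k := charZero_of_injective_algebraMap (IsFractionRing.injective R k)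
  have hinj : Function.Injective (algebraMap R k) := IsFractionRing.injective R k
  have heR : ((e : ℕ) : R) ≠ 0 := Nat.cast_ne_zero.2 (by omega)
  refine gen_split (k := k) 2 {(e : R)} ?_ l hl 2 (1 / 8) (by norm_num) (by norm_num)
    (fun κ _ _ => {τ : Fin 2 → κ | τ 0 ≠ 0 ∧ ∀ r, τ 0 * r ^ l + τ 1 ≠ 0}) ?_
    (GoodD (k := k) l e) ?_ ε hε
  · intro v hv
    rw [Finset.mem_singleton] at hv
    rw [hv]
    exact heR
  · -- counting
    intro κ _ _ ρ hq hU hM
    have h1 := Pool.Agent.TH120.Sec.QQ_card (κ := κ) l hl hM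
    have h2 : (Pool.Agent.TH120.Sec.QQ κ l).ncard ≤
        {τ : Fin 2 → κ | τ 0 ≠ 0 ∧ ∀ r, τ 0 * r ^ l + τ 1 ≠ 0}.ncard := by
      refine Set.ncard_le_ncard_of_injOn (fun x : κ × κ => ![x.1, x.2]) ?_ ?_ (Set.toFinite _)
      · rintro ⟨b, c⟩ ⟨hb, hc⟩
        exact ⟨hb, hc⟩
      · rintro ⟨b, c⟩ _ ⟨b', c'⟩ _ h
        have e0 : b = b' := congrFun h 0
        have e1 : c = c' := congrFun h 1
        rw [e0, e1]
    set q := Nat.card κ with hq'
    have h3 : ((q : ℝ) - 1) ^ 2 ≤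
        2 * (({τ : Fin 2 → κ | τ 0 ≠ 0 ∧ ∀ r, τ 0 * r ^ l + τ 1 ≠ 0}.ncard : ℕ) : ℝ) := by
      have h4 : ((q - 1 : ℕ) : ℝ) = (q : ℝ) - 1 := by
        rw [Nat.cast_sub (by omega)]
        norm_num
      rw [← h4]
      exact_mod_cast h1.trans (Nat.mul_le_mul_left 2 h2)
    have hqr : (2 : ℝ) ≤ q := by exact_mod_cast hq
    nlinarith
  · -- the local theorem
    intro E _ V _ ψ ρ hint hρ hU hM hq c hc0 hcS
    have hcS1 : ρ (c 1) ≠ 0 := hcS.1
    have hcS2 : ∀ r, ρ (c 1) * r ^ l + ρ (c 2) ≠ 0 := hcS.2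
    have hcS3 : ρ (c 2) ≠ 0 := by
      have := hcS2 0
      rwa [zero_pow hl.ne_zero, mul_zero, zero_add] at this
    have hne : ∀ x : R, ρ x ≠ 0 → algebraMap R k x ≠ 0 := by
      intro x hx h0
      rw [map_eq_zero_iff _ hinj] at h0
      rw [h0, map_zero] at hx
      exact hx rfl
    have hlρ : ((e : ℕ) : IsLocalRing.ResidueField V.valuationSubring) ≠ 0 := by
      have := hU (e : R) (by simp)
      rwa [map_natCast] at this
    have hlρ' : ((l : ℕ) : IsLocalRing.ResidueField V.valuationSubring) ≠ 0 := by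
      intro h0
      obtain ⟨m, hm⟩ := hle
      apply hlρ
      rw [hm, Nat.cast_mul, h0, zero_mul]
    set Fc : R[X] := bin e (c 1) (c 2) with hFc
    have hFcρ : Fc.map ρ = bin e (ρ (c 1)) (ρ (c 2)) := bin_map _ _ _ _
    have hFck : Fc.map (algebraMap R k) = bin e (algebraMap R k (c 1)) (algebraMap R k (c 2)) :=
      bin_map _ _ _ _
    have hc1 : c 1 ≠ 0 := by
      intro h0
      apply hne _ hcS1
      rw [h0, map_zero]
    have hFcd : Fc.natDegree = e := bin_natDegree e (by omega) _ _ hc1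
    refine ⟨?_, hne _ hcS1, hne _ hcS3, ?_⟩
    · intro h0
      rw [h0, map_zero, map_zero] at hc0
      exact exp_ne_zero hc0.symm
    · intro F _ _ _ hF
      have h1 := ext_rho hinj V ψ ρ hint hρ Fc
        (by rw [hFcρ, bin_natDegree e (by omega) _ _ hcS1, hFcd])
        (by rw [hFcρ]; exact bin_sep e (by omega) _ _ hcS1 hcS3 hlρ) l
        (by rw [hFcρ]; exact bin_noRt l hl e hle _ _ hcS1 hcS2) (by omega)
        (c 0) hc0 hl (by rwa [hFcd]) hlρ' F hF
      rw [hFck] at h1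
      exact h1

end Pool.Agent.L0h9.SCF
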