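import Pool.Agent.W858.SF.Comp
import Pool.Agent.W858.SG.Dens
import Pool.Agent.TH377.Sup.EmbR

/-!
# The reduction of a finitely generated ring at an embedding in a completion
-/

set_option autoImplicit false

namespace Pool.Agent.L0h9.SCF

open Polynomial WithZero NumberField IsDedekindDomain Pool.Agent.W858.SF

theorem exists_rho {L : Type} [Field L] [NumberField L] (v : HeightOneSpectrum (𝓞 L))
    {R : Type} [CommRing R] {k : Type} [Field k] [Algebra R k] (P : R →+* L)
    (ψ : k →+* v.adicCompletion L) (hPint : ∀ r, v.valuation L (P r) ≤ 1)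
    (hψ : ∀ r, vv v (ψ (algebraMap R k r) - algebraMap L (v.adicCompletion L) (P r)) ≤ exp (-2)) :
    ∃ (ρ : R →+* IsLocalRing.ResidueField (vv v).valuationSubring)
      (θ : (𝓞 L ⧸ v.asIdeal) →+* IsLocalRing.ResidueField (vv v).valuationSubring),
      Function.Bijective θ ∧ (∀ r, vv v (ψ (algebraMap R k r)) ≤ 1) ∧
      (∀ (r : R) (h : vv v (ψ (algebraMap R k r)) ≤ 1),
        ρ r = IsLocalRing.residue _ ⟨ψ (algebraMap R k r), h⟩) ∧
      (∀ (r : R) (y : 𝓞 L), v.valuation L (P r - algebraMap (𝓞 L) L y) ≤ exp (-2) →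
        ρ r = θ (Ideal.Quotient.mk _ y)) ∧
      (∀ (r : R) (y : 𝓞 L), v.valuation L (P r - algebraMap (𝓞 L) L y) ≤ exp (-2) →
        y ∈ v.asIdeal → y ∉ v.asIdeal ^ 2 → vv v (ψ (algebraMap R k r)) = exp (-1)) ∧
      (∀ r, v.valuation L (P r) = 1 → ρ r ≠ 0) ∧
      (∀ (G : R[X]) (g : (𝓞 L)[X]) (N : 𝓞 L), N ∉ v.asIdeal →
        g.map (algebraMap (𝓞 L) L) = C (algebraMap (𝓞 L) L N) * G.map P →
        (∀ r : 𝓞 L ⧸ v.asIdeal, (g.map (Ideal.Quotient.mk v.asIdeal)).eval r ≠ 0) →
        ∀ x, (G.map ρ).eval x ≠ 0) := by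
  classical
  have hmax : v.asIdeal.IsMaximal := v.isMaximal
  let _ := Ideal.Quotient.field v.asIdeal
  obtain ⟨θ, hθ, hθr⟩ := exists_residue_map v
  have hθinj : Function.Injective θ := θ.injective
  have hγ2 : (exp (-2) : ℤᵐ⁰) < 1 := by
    rw [← exp_zero, exp_lt_exp]
    omega
  have hPv : ∀ r, vv v (algebraMap L (v.adicCompletion L) (P r)) ≤ 1 := fun r => by
    rw [vv_algebraMap]
    exact hPint r
  have hψ1 : ∀ r, vv v (ψ (algebraMap R k r)) ≤ 1 := by
    intro r
    have h1 : ψ (algebraMap R k r) = (ψ (algebraMap R k r) -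
      algebraMap L (v.adicCompletion L) (P r)) + algebraMap L (v.adicCompletion L) (P r) := by ring
    rw [h1]
    exact (Valuation.map_add _ _ _).trans (max_le ((hψ r).trans hγ2.le) (hPv r))
  have hnear : ∀ (r : R) (y : 𝓞 L), v.valuation L (P r - algebraMap (𝓞 L) L y) ≤ exp (-2) →
      vv v (ψ (algebraMap R k r) -
      algebraMap L (v.adicCompletion L) (algebraMap (𝓞 L) L y)) ≤ exp (-2) := by
    intro r y hry
    have h1 : ψ (algebraMap R k r) -
        algebraMap L (v.adicCompletion L) (algebraMap (𝓞 L) L y) =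
        (ψ (algebraMap R k r) - algebraMap L (v.adicCompletion L) (P r)) +
        algebraMap L (v.adicCompletion L) (P r - algebraMap (𝓞 L) L y) := by
      rw [map_sub]
      ring
    rw [h1]
    refine (Valuation.map_add _ _ _).trans (max_le (hψ _) ?_)
    rw [vv_algebraMap]
    exact hry
  let j : R →+* (vv v).valuationSubring :=
    { toFun := fun r => ⟨ψ (algebraMap R k r), hψ1 r⟩
      map_one' := Subtype.ext (by
        change ψ (algebraMap R k 1) = 1
        rw [map_one, map_one])
      map_mul' := fun y z => Subtype.ext (by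
        change ψ (algebraMap R k (y * z)) = ψ (algebraMap R k y) * ψ (algebraMap R k z)
        rw [map_mul, map_mul])
      map_zero' := Subtype.ext (by
        change ψ (algebraMap R k 0) = 0
        rw [map_zero, map_zero])
      map_add' := fun y z => Subtype.ext (by
        change ψ (algebraMap R k (y + z)) = ψ (algebraMap R k y) + ψ (algebraMap R k z)
        rw [map_add, map_add]) }
  have hres : ∀ (r : R) (y : 𝓞 L), v.valuation L (P r - algebraMap (𝓞 L) L y) ≤ exp (-2) →
      IsLocalRing.residue _ (j r) = θ (Ideal.Quotient.mk v.asIdeal y) := fun r y hry =>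
    hθr _ _ ((hnear r y hry).trans_lt hγ2)
  refine ⟨(IsLocalRing.residue _).comp j, θ, ⟨hθinj, hθ⟩, hψ1, fun r h => rfl, hres, ?_, ?_, ?_⟩
  · intro r y hry hy hy'
    have h7 := Pool.Agent.TH377.Sup.val_eq_of v y hy hy'
    have h5 : ψ (algebraMap R k r) = (ψ (algebraMap R k r) -
      algebraMap L (v.adicCompletion L) (algebraMap (𝓞 L) L y)) +
      algebraMap L (v.adicCompletion L) (algebraMap (𝓞 L) L y) := by ring
    have h6 : vv v (ψ (algebraMap R k r) - algebraMap L (v.adicCompletion L)
        (algebraMap (𝓞 L) L y)) <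
        vv v (algebraMap L (v.adicCompletion L) (algebraMap (𝓞 L) L y)) := by
      rw [vv_algebraMap, h7]
      refine (hnear r y hry).trans_lt ?_
      rw [exp_lt_exp]
      omega
    rw [h5, Valuation.map_add_eq_of_lt_right _ h6, vv_algebraMap, h7]
  · intro r hr h0
    have h1 : j r ∈ IsLocalRing.maximalIdeal (vv v).valuationSubring :=
      (IsLocalRing.residue_eq_zero_iff _).1 h0
    have h2 : vv v (ψ (algebraMap R k r)) = 1 := by
      have h5 : ψ (algebraMap R k r) = (ψ (algebraMap R k r) -
        algebraMap L (v.adicCompletion L) (P r)) + algebraMap L (v.adicCompletion L) (P r) := by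
        ring
      have h6 : vv v (ψ (algebraMap R k r) - algebraMap L (v.adicCompletion L) (P r)) <
          vv v (algebraMap L (v.adicCompletion L) (P r)) := by
        rw [vv_algebraMap, hr]
        exact (hψ r).trans_lt hγ2
      rw [h5, Valuation.map_add_eq_of_lt_right _ h6, vv_algebraMap, hr]
    have h3 : IsUnit (j r) := (Valuation.Integers.isUnit_iff_valuation_eq_one
      (Valuation.valuationSubring.integers (vv v))).2 h2
    exact (IsLocalRing.mem_maximalIdeal _).1 h1 h3
  · intro G g N hN hg hroot x hx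
    have hNB : ∀ N : 𝓞 L, vv v (algebraMap L (v.adicCompletion L) (algebraMap (𝓞 L) L N)) ≤ 1 := by
      intro N
      rw [vv_algebraMap]
      exact v.valuation_le_one N
    have hcoef : ∀ i, ((IsLocalRing.residue _).comp j) (G.coeff i) *
        θ (Ideal.Quotient.mk v.asIdeal N) = θ (Ideal.Quotient.mk v.asIdeal (g.coeff i)) := by
      intro i
      let NB : (vv v).valuationSubring :=
        ⟨algebraMap L (v.adicCompletion L) (algebraMap (𝓞 L) L N), hNB N⟩
      have h1 : IsLocalRing.residue _ NB = θ (Ideal.Quotient.mk v.asIdeal N) := by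
        apply hθr
        change vv v (algebraMap L (v.adicCompletion L) (algebraMap (𝓞 L) L N) -
          algebraMap L (v.adicCompletion L) (algebraMap (𝓞 L) L N)) < 1
        rw [sub_self, map_zero]
        exact zero_lt_one
      change IsLocalRing.residue _ (j (G.coeff i)) * _ = _
      rw [← h1, ← map_mul]
      apply hθr
      have h2 : algebraMap (𝓞 L) L (g.coeff i) = algebraMap (𝓞 L) L N * P (G.coeff i) := by
        have := congrArg (fun q => q.coeff i) hg
        simpa only [coeff_map, coeff_C_mul] using this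
      have h3 : ((j (G.coeff i) * NB : (vv v).valuationSubring) : v.adicCompletion L) -
          algebraMap L (v.adicCompletion L) (algebraMap (𝓞 L) L (g.coeff i)) =
          algebraMap L (v.adicCompletion L) (algebraMap (𝓞 L) L N) *
          (ψ (algebraMap R k (G.coeff i)) - algebraMap L (v.adicCompletion L) (P (G.coeff i))) := by
        rw [h2, map_mul]
        change ψ (algebraMap R k (G.coeff i)) *
          algebraMap L (v.adicCompletion L) (algebraMap (𝓞 L) L N) - _ = _
        ring
      rw [h3, map_mul]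
      exact mul_lt_of_le_one_of_lt (hNB N) ((hψ _).trans_lt hγ2)
    have hpoly : G.map ((IsLocalRing.residue _).comp j) * C (θ (Ideal.Quotient.mk v.asIdeal N)) =
        (g.map (Ideal.Quotient.mk v.asIdeal)).map θ := by
      ext i
      rw [coeff_mul_C, coeff_map, coeff_map, coeff_map]
      exact hcoef i
    obtain ⟨r, rfl⟩ := hθ x
    have h4 : ((g.map (Ideal.Quotient.mk v.asIdeal)).map θ).eval (θ r) = 0 := by
      rw [← hpoly, eval_mul, hx, zero_mul]
    rw [eval_map, eval₂_at_apply] at h4
    exact hroot _ ((map_eq_zero_iff _ hθinj).1 h4)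

end Pool.Agent.L0h9.SCF
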