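import Pool.Agent.L0h9.SCF.Dens
import Pool.Agent.L0h9.SCF.Rho

/-!
# Density of the good vectors, for a ring with a homomorphism to a number field
-/

set_option autoImplicit false

namespace Pool.Agent.L0h9.SCF

open Polynomial WithZero NumberField IsDedekindDomain Pool.Agent.W858.SF Pool.Agent.W858.SG
open Pool.Agent.TH120.Sec (red card_residue)

lemma norm_large {L : Type} [Field L] [NumberField L] (v : HeightOneSpectrum (𝓞 L)) (q0 : ℕ)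
    (h : ((q0.factorial : ℕ) : 𝓞 L) ∉ v.asIdeal) : q0 ≤ Ideal.absNorm v.asIdeal := by
  by_contra h1
  push Not at h1
  apply h
  have h2 : Ideal.absNorm v.asIdeal ≠ 0 := by
    rw [Ne, Ideal.absNorm_eq_zero_iff]
    exact v.ne_bot
  have h3 : Ideal.absNorm v.asIdeal ∣ q0.factorial :=
    Nat.dvd_factorial (Nat.pos_of_ne_zero h2) h1.le
  obtain ⟨t, ht⟩ := h3
  rw [ht, Nat.cast_mul]
  exact Ideal.mul_mem_right _ _ (Ideal.absNorm_mem v.asIdeal)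

lemma ncard_theta {κ κ' : Type} [Finite κ'] (θ : κ → κ') (hθ : Function.Bijective θ) (m : ℕ)
    (S : Set (Fin m → κ')) : {s : Fin m → κ | (fun i => θ (s i)) ∈ S}.ncard = S.ncard := by
  have hfin : Finite κ := Finite.of_injective θ hθ.1
  have h1 : (fun s : Fin m → κ => fun i => θ (s i)) '' {s : Fin m → κ | (fun i => θ (s i)) ∈ S} =
      S := by
    ext t
    constructor
    · rintro ⟨s, hs, rfl⟩
      exact hs
    · intro ht
      choose g hg using hθ.2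
      refine ⟨fun i => g (t i), ?_, ?_⟩
      · change (fun i => θ (g (t i))) ∈ S
        simp only [hg]
        exact ht
      · funext i
        exact hg _
  have h2 : Function.Injective (fun s : Fin m → κ => fun i => θ (s i)) := by
    intro s t hst
    funext i
    exact hθ.1 (congrFun hst i)
  rw [← Set.ncard_image_of_injective _ h2, h1]

theorem gen_P {R k : Type} [CommRing R] [Field k] [Algebra R k]
    {L : Type} [Field L] [NumberField L] (P : R →+* L)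
    (hemb : AE fun v : HeightOneSpectrum (𝓞 L) => (∀ r, v.valuation L (P r) ≤ 1) ∧
      ∃ ψ : k →+* v.adicCompletion L,
        ∀ r, vv v (ψ (algebraMap R k r) - algebraMap L (v.adicCompletion L) (P r)) ≤ exp (-2))
    (hM : ∃ M : ℤ, M ≠ 0 ∧ ∀ y : 𝓞 L, ∃ r : R, (M : L) * algebraMap (𝓞 L) L y = P r)
    (m : ℕ) (U : Finset R) (hPU : ∀ u ∈ U, P u ≠ 0) (q0 : ℕ) (δ : ℝ)
    (Q : HeightOneSpectrum (𝓞 L) → Prop)
    (hsup : ∀ N : 𝓞 L, N ≠ 0 → ∀ ε : ℝ, 0 < ε → ∃ T : Finset (HeightOneSpectrum (𝓞 L)),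
      (∀ v ∈ T, N ∉ v.asIdeal ∧ Q v) ∧
      ∏ v ∈ T, (1 - δ * (1 / (Ideal.absNorm v.asIdeal : ℝ) -
        1 / (Ideal.absNorm v.asIdeal : ℝ) ^ 2)) < ε)
    (κQ : ∀ (κ : Type) [Field κ], (R →+* κ) → Prop)
    (hQ : ∀ v, Q v → ∀ (ρ : R →+* IsLocalRing.ResidueField (vv v).valuationSubring),
      Nat.card (IsLocalRing.ResidueField (vv v).valuationSubring) = Ideal.absNorm v.asIdeal →
      (∀ (G : R[X]) (g : (𝓞 L)[X]) (N : 𝓞 L), N ∉ v.asIdeal →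
        g.map (algebraMap (𝓞 L) L) = C (algebraMap (𝓞 L) L N) * G.map P →
        (∀ r : 𝓞 L ⧸ v.asIdeal, (g.map (Ideal.Quotient.mk v.asIdeal)).eval r ≠ 0) →
        ∀ x, (G.map ρ).eval x ≠ 0) → κQ _ ρ)
    (S : ∀ (κ : Type) [Field κ], (R →+* κ) → Set (Fin m → κ))
    (hS : ∀ (κ : Type) [Field κ] [Finite κ] (ρ : R →+* κ), q0 ≤ Nat.card κ →
      (∀ u ∈ U, ρ u ≠ 0) → κQ κ ρ → δ * (Nat.card κ : ℝ) ^ m ≤ (S κ ρ).ncard)
    (Good : (Fin (m + 1) → R) → Prop)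
    (hloc : ∀ (E : Type) [Field E] (V : Valuation E ℤᵐ⁰)
      [Finite (IsLocalRing.ResidueField V.valuationSubring)] (ψ : k →+* E)
      (ρ : R →+* IsLocalRing.ResidueField V.valuationSubring),
      (∀ r, V (ψ (algebraMap R k r)) ≤ 1) →
      (∀ (r : R) (h : V (ψ (algebraMap R k r)) ≤ 1),
        ρ r = IsLocalRing.residue _ ⟨ψ (algebraMap R k r), h⟩) →
      (∀ u ∈ U, ρ u ≠ 0) → κQ _ ρ → q0 ≤ Nat.card (IsLocalRing.ResidueField V.valuationSubring) →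
      ∀ c : Fin (m + 1) → R, V (ψ (algebraMap R k (c 0))) = exp (-1) →
      (fun i : Fin m => ρ (c i.succ)) ∈ S _ ρ → Good c)
    (ε : ℝ) (hε : 0 < ε) :
    ∃ I : Ideal R, Finite (R ⧸ I) ∧
      (Set.ncard ((fun (c : Fin (m + 1) → R) i => Ideal.Quotient.mk I (c i)) ''
        {c | ¬ Good c}) : ℝ) ≤ ε * (Nat.card (R ⧸ I) : ℝ) ^ (m + 1) := by
  classical
  obtain ⟨M, hM0, hM⟩ := hM
  obtain ⟨N1, hN1, hemb⟩ := hemb
  obtain ⟨N2, hN2, hunit⟩ := AE.ball U (p := fun u v => v.valuation L (P u) = 1)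
    fun u hu => AE.unit (P u) (hPU u hu)
  have hMO : (M : 𝓞 L) ≠ 0 := by exact_mod_cast hM0
  have hq0 : ((q0.factorial : ℕ) : 𝓞 L) ≠ 0 := by exact_mod_cast q0.factorial_ne_zero
  obtain ⟨T, hT, hTε⟩ := hsup (N1 * (M : 𝓞 L) * N2 * ((q0.factorial : ℕ) : 𝓞 L))
    (mul_ne_zero (mul_ne_zero (mul_ne_zero hN1 hMO) hN2) hq0) ε hε
  have hTN1 : ∀ v ∈ T, N1 ∉ v.asIdeal := fun v hv h => (hT v hv).1
    (Ideal.mul_mem_right _ _ (Ideal.mul_mem_right _ _ (Ideal.mul_mem_right _ _ h)))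
  have hTM : ∀ v ∈ T, (M : 𝓞 L) ∉ v.asIdeal := fun v hv h => (hT v hv).1
    (Ideal.mul_mem_right _ _ (Ideal.mul_mem_right _ _ (Ideal.mul_mem_left _ _ h)))
  have hTN2 : ∀ v ∈ T, N2 ∉ v.asIdeal := fun v hv h => (hT v hv).1
    (Ideal.mul_mem_right _ _ (Ideal.mul_mem_left _ _ h))
  have hTq : ∀ v ∈ T, ((q0.factorial : ℕ) : 𝓞 L) ∉ v.asIdeal := fun v hv h => (hT v hv).1
    (Ideal.mul_mem_left _ _ h)
  have hPint : ∀ v ∈ T, ∀ r, v.valuation L (P r) ≤ 1 := fun v hv => (hemb v (hTN1 v hv)).1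
  have hdata : ∀ v : T, ∃ (ψ : k →+* v.1.adicCompletion L)
      (ρ : R →+* IsLocalRing.ResidueField (vv v.1).valuationSubring)
      (θ : (𝓞 L ⧸ v.1.asIdeal) →+* IsLocalRing.ResidueField (vv v.1).valuationSubring),
      Function.Bijective θ ∧ (∀ r, vv v.1 (ψ (algebraMap R k r)) ≤ 1) ∧
      (∀ (r : R) (h : vv v.1 (ψ (algebraMap R k r)) ≤ 1),
        ρ r = IsLocalRing.residue _ ⟨ψ (algebraMap R k r), h⟩) ∧
      (∀ (r : R) (y : 𝓞 L), v.1.valuation L (P r - algebraMap (𝓞 L) L y) ≤ exp (-2) →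
        ρ r = θ (Ideal.Quotient.mk _ y)) ∧
      (∀ (r : R) (y : 𝓞 L), v.1.valuation L (P r - algebraMap (𝓞 L) L y) ≤ exp (-2) →
        y ∈ v.1.asIdeal → y ∉ v.1.asIdeal ^ 2 → vv v.1 (ψ (algebraMap R k r)) = exp (-1)) ∧
      (∀ r, v.1.valuation L (P r) = 1 → ρ r ≠ 0) ∧
      (∀ (G : R[X]) (g : (𝓞 L)[X]) (N : 𝓞 L), N ∉ v.1.asIdeal →
        g.map (algebraMap (𝓞 L) L) = C (algebraMap (𝓞 L) L N) * G.map P →
        (∀ r : 𝓞 L ⧸ v.1.asIdeal, (g.map (Ideal.Quotient.mk v.1.asIdeal)).eval r ≠ 0) →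
        ∀ x, (G.map ρ).eval x ≠ 0) := by
    intro v
    obtain ⟨hint, ψ, hψ⟩ := hemb v.1 (hTN1 v.1 v.2)
    obtain ⟨ρ, θ, h⟩ := exists_rho v.1 P ψ hint hψ
    exact ⟨ψ, ρ, θ, h⟩
  choose ψ ρ θ hθ h1 h2 h3 h4 h5 h6 using hdata
  have hcardκ : ∀ v : T, Nat.card (IsLocalRing.ResidueField (vv v.1).valuationSubring) =
      Ideal.absNorm v.1.asIdeal := by
    intro v
    rw [← card_residue v.1]
    exact (Nat.card_congr (Equiv.ofBijective (θ v) (hθ v))).symm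
  refine dens_vec P M hM (m + 1) T hTM hPint
    (fun v => if hv : v ∈ T then GoodS v m
      {s | (fun i => θ ⟨v, hv⟩ (s i)) ∈ S _ (ρ ⟨v, hv⟩)} else Set.univ)
    Good ?_ δ ε ?_ hTε
  · intro v hv c y hcy hy
    rw [dif_pos hv] at hy
    obtain ⟨hy0, hy0', hyS⟩ := goodS_iff v m _ y hy
    have hfinres := finite_residue v
    refine hloc _ (vv v) (ψ ⟨v, hv⟩) (ρ ⟨v, hv⟩) (h1 ⟨v, hv⟩) (h2 ⟨v, hv⟩) ?_ ?_ ?_ c ?_ ?_
    · exact fun u hu => h5 ⟨v, hv⟩ u (hunit v (hTN2 v hv) u hu)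
    · exact hQ v (hT v hv).2 _ (hcardκ ⟨v, hv⟩) (h6 ⟨v, hv⟩)
    · rw [hcardκ ⟨v, hv⟩]
      exact norm_large v q0 (hTq v hv)
    · exact h4 ⟨v, hv⟩ _ _ (hcy 0) hy0 hy0'
    · have h7 : (fun i : Fin m => ρ ⟨v, hv⟩ (c i.succ)) =
          fun i => θ ⟨v, hv⟩ (Ideal.Quotient.mk v.asIdeal (y i.succ)) := by
        funext i
        exact h3 ⟨v, hv⟩ _ _ (hcy i.succ)
      rw [h7]
      exact hyS
  · intro v hv
    rw [dif_pos hv]
    apply badS_card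
    have hfinres := finite_residue v
    rw [ncard_theta (θ ⟨v, hv⟩) (hθ ⟨v, hv⟩), ← hcardκ ⟨v, hv⟩]
    refine hS _ (ρ ⟨v, hv⟩) ?_ ?_ ?_
    · rw [hcardκ ⟨v, hv⟩]
      exact norm_large v q0 (hTq v hv)
    · exact fun u hu => h5 ⟨v, hv⟩ u (hunit v (hTN2 v hv) u hu)
    · exact hQ v (hT v hv).2 _ (hcardκ ⟨v, hv⟩) (h6 ⟨v, hv⟩)

end Pool.Agent.L0h9.SCF
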