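import Pool.Agent.W723.SecC.D1d

/-!
# The supply of primes, with a constant
-/

set_option autoImplicit false

namespace Pool.Agent.L0h9.SCF

open Polynomial NumberField IsDedekindDomain

universe u

lemma one_sub_le (x : ℝ) (h0 : 0 ≤ x) (h1 : x ≤ 1 / 2) : Real.exp (-(2 * x)) ≤ 1 - x := by
  have h2 : 1 + 2 * x + (2 * x) ^ 2 / 2 ≤ Real.exp (2 * x) :=
    Real.quadratic_le_exp_of_nonneg (by linarith)
  have h3 : 0 < 1 - x := by linarith
  rw [Real.exp_neg, inv_le_comm₀ (Real.exp_pos _) h3]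
  refine le_trans ?_ h2
  rw [inv_le_iff_one_le_mul₀ h3]
  nlinarith [mul_nonneg h0 (sub_nonneg.2 h1), mul_nonneg (mul_nonneg h0 h0) (sub_nonneg.2 h1)]

lemma pow_le_one_sub (δ x : ℝ) (hδ : 0 < δ) (hδ1 : δ ≤ 1) (n : ℕ) (hn : 2 ≤ n * δ) (h0 : 0 ≤ x)
    (h1 : x ≤ 1 / 2) : (1 - δ * x) ^ n ≤ 1 - x := by
  have h2 : 1 - δ * x ≤ Real.exp (-(δ * x)) := by
    have := Real.add_one_le_exp (-(δ * x))
    linarith
  have h3 : 0 ≤ 1 - δ * x := by nlinarith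
  calc (1 - δ * x) ^ n ≤ Real.exp (-(δ * x)) ^ n := pow_le_pow_left₀ h3 h2 n
    _ = Real.exp (-(n * δ * x)) := by
      rw [← Real.exp_nat_mul]
      congr 1
      ring
    _ ≤ Real.exp (-(2 * x)) := by
      apply Real.exp_le_exp.2
      have := mul_le_mul_of_nonneg_right hn h0
      linarith
    _ ≤ 1 - x := one_sub_le x h0 h1

/-- many primes modulo which `g` has no root, with a constant `δ` -/
theorem supply_root {K : Type u} [Field K] [NumberField K] (g : (𝓞 K)[X]) (c : 𝓞 K) (hc : c ≠ 0)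
    (hsep : (g.map (algebraMap (𝓞 K) K)).Separable)
    (hσ : ∃ σ : AlgebraicClosure K ≃ₐ[K] AlgebraicClosure K,
      ∀ θ : AlgebraicClosure K, aeval θ (g.map (algebraMap (𝓞 K) K)) = 0 → σ θ ≠ θ)
    (δ : ℝ) (hδ : 0 < δ) (hδ1 : δ ≤ 1) (ε : ℝ) (hε : 0 < ε) :
    ∃ T : Finset (HeightOneSpectrum (𝓞 K)), (∀ v ∈ T, c ∉ v.asIdeal ∧
        ∀ r : 𝓞 K ⧸ v.asIdeal, (g.map (Ideal.Quotient.mk v.asIdeal)).eval r ≠ 0) ∧
      ∏ v ∈ T, (1 - δ * (1 / (Ideal.absNorm v.asIdeal : ℝ) -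
        1 / (Ideal.absNorm v.asIdeal : ℝ) ^ 2)) < ε := by
  obtain ⟨n, hn⟩ := exists_nat_ge (2 / δ)
  rw [div_le_iff₀ hδ] at hn
  have hn0 : n ≠ 0 := by
    rintro rfl
    norm_num at hn
  obtain ⟨T, hT, hTε⟩ := Pool.Agent.W723.SecC.partD1 K g c hc hsep hσ (ε ^ n) (pow_pos hε n)
  refine ⟨T, fun v hv => ⟨(hT v hv).1, (hT v hv).2.2.2.2⟩, ?_⟩
  have hx : ∀ v : HeightOneSpectrum (𝓞 K), 0 ≤ 1 / (Ideal.absNorm v.asIdeal : ℝ) -
      1 / (Ideal.absNorm v.asIdeal : ℝ) ^ 2 ∧ 1 / (Ideal.absNorm v.asIdeal : ℝ) -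
      1 / (Ideal.absNorm v.asIdeal : ℝ) ^ 2 ≤ 1 / 2 := by
    intro v
    have hN : 1 ≤ (Ideal.absNorm v.asIdeal : ℝ) := by
      have : Ideal.absNorm v.asIdeal ≠ 0 := by
        rw [Ne, Ideal.absNorm_eq_zero_iff]
        exact v.ne_bot
      exact_mod_cast Nat.one_le_iff_ne_zero.2 this
    set N : ℝ := (Ideal.absNorm v.asIdeal : ℝ)
    have h1 : 0 < 1 / N := by positivity
    have h2 : 1 / N ≤ 1 := by
      rw [div_le_one (by linarith)]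
      exact hN
    have h3 : 1 / N ^ 2 = (1 / N) ^ 2 := by rw [one_div_pow]
    rw [h3]
    constructor
    · nlinarith
    · nlinarith [sq_nonneg (1 / N - 1 / 2)]
  have h1 : (∏ v ∈ T, (1 - δ * (1 / (Ideal.absNorm v.asIdeal : ℝ) -
        1 / (Ideal.absNorm v.asIdeal : ℝ) ^ 2))) ^ n < ε ^ n := by
    rw [← Finset.prod_pow]
    refine lt_of_le_of_lt ?_ hTε
    refine Finset.prod_le_prod (fun v _ => ?_) (fun v _ => ?_)
    · apply pow_nonneg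
      nlinarith [(hx v).1, (hx v).2]
    · exact pow_le_one_sub δ _ hδ hδ1 n hn (hx v).1 (hx v).2
  exact lt_of_pow_lt_pow_left₀ n hε.le h1

end Pool.Agent.L0h9.SCF
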