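import Pool.Agent.W858.SG.Setup
import Pool.Agent.TH120.Sec.Split
import Pool.Agent.L0h9.SCF.GenP
import Pool.Agent.L0h9.SCF.Sup

/-! # Density of the good vectors over finitely generated domains -/

set_option autoImplicit false

namespace Pool.Agent.L0h9.SCF

open IsDedekindDomain NumberField WithZero Polynomial Pool.Agent.W858.SF Pool.Agent.W858.SG

theorem spec_aux {R k : Type} [CommRing R] [IsDomain R] [Field k] [CharZero k]
    [Algebra R k] [IsFractionRing R k] (G : Finset R) (hG : Algebra.adjoin ℤ (G : Set R) = ⊤)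
    {m : ℕ} {Q : Type} [Field Q] [Algebra (MvPolynomial (Fin m) ℚ) Q]
    [IsFractionRing (MvPolynomial (Fin m) ℚ) Q] [Algebra Q k]
    [Algebra (MvPolynomial (Fin m) ℚ) k] [IsScalarTower (MvPolynomial (Fin m) ℚ) Q k]
    [Algebra.IsAlgebraic Q k] [Algebra.EssFiniteType ℤ k]
    (U : Finset R) (hU : ∀ u ∈ U, u ≠ 0) (H : R[X]) (hH : (H.map (algebraMap R k)).Separable)
    (σ : AlgebraicClosure k ≃ₐ[k] AlgebraicClosure k)
    (hσ : ∀ θ : AlgebraicClosure k, aeval θ (H.map (algebraMap R k)) = 0 → σ θ ≠ θ) :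
    ∃ (L : Type) (_ : Field L) (_ : NumberField L) (P : R →+* L),
      (AE fun v : HeightOneSpectrum (𝓞 L) => (∀ r, v.valuation L (P r) ≤ 1) ∧
        ∃ ψ : k →+* v.adicCompletion L,
          ∀ r, vv v (ψ (algebraMap R k r) - algebraMap L (v.adicCompletion L) (P r)) ≤ exp (-2)) ∧
      (∃ M : ℤ, M ≠ 0 ∧ ∀ y : 𝓞 L, ∃ r : R, (M : L) * algebraMap (𝓞 L) L y = P r) ∧
      (∀ u ∈ U, P u ≠ 0) ∧ (H.map P).Separable ∧
      ∃ σ' : AlgebraicClosure L ≃ₐ[L] AlgebraicClosure L,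
        ∀ θ : AlgebraicClosure L, aeval θ (H.map P) = 0 → σ' θ ≠ θ := by
  classical
  have e4 : Algebra.EssFiniteType Q k := Algebra.EssFiniteType.of_comp ℤ Q k
  have hfin : FiniteDimensional Q k := Algebra.finite_of_essFiniteType_of_isAlgebraic
  have hinjk : Function.Injective (algebraMap R k) := IsFractionRing.injective R k
  have hczQ : CharZero Q := charZero_of_injective_algebraMap
    (IsFractionRing.injective (MvPolynomial (Fin m) ℚ) Q)
  obtain ⟨α, hgen, hα⟩ := Pool.Agent.H298R2.Kuyk.exists_prim (MvPolynomial (Fin m) ℚ) Q k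
  have hDNex : ∀ r : R, ∃ (D : MvPolynomial (Fin m) ℚ) (N : (MvPolynomial (Fin m) ℚ)[X]),
      D ≠ 0 ∧ algebraMap _ k D * algebraMap R k r = aeval α N := by
    intro r
    obtain ⟨p, -, hp⟩ := H33.V4.exists_rep (Q := Q) α hgen (algebraMap R k r)
    obtain ⟨D, hD, hDp⟩ := IsLocalization.integerNormalization_spec
      (nonZeroDivisors (MvPolynomial (Fin m) ℚ)) p
    refine ⟨D, IsLocalization.integerNormalization (nonZeroDivisors (MvPolynomial (Fin m) ℚ)) p,
      nonZeroDivisors.ne_zero hD, ?_⟩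
    rw [← aeval_map_algebraMap Q, hDp, Algebra.smul_def, map_mul, hp]
    congr 1
    rw [IsScalarTower.algebraMap_apply (MvPolynomial (Fin m) ℚ) Q k,
      IsScalarTower.algebraMap_apply (MvPolynomial (Fin m) ℚ) Q Q[X]]
    simp
  choose D N hD hDN using hDNex
  obtain ⟨r0, s0, hs0, hα0⟩ := IsFractionRing.div_surjective (A := R) α
  have hs00 : s0 ≠ 0 := nonZeroDivisors.ne_zero hs0
  have hs0k : algebraMap R k s0 ≠ 0 := by
    rw [Ne, map_eq_zero_iff _ hinjk]
    exact hs00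
  have hα1 : algebraMap R k s0 * α = algebraMap R k r0 := by
    rw [← hα0]
    field_simp
  obtain ⟨L, _, _, P, c, β, hβtop, hβ, hβ', hDP, hPα, hU', hsep, hσ'⟩ :=
    exists_spec (Q := Q) hinjk α hα hgen G hG D N (fun r _ => hDN r) (fun r _ => hD r)
      (insert s0 U) (by
        intro u hu
        rcases Finset.mem_insert.1 hu with rfl | hu
        · exact hs00
        · exact hU u hu) H hH σ hσ
  have hemb := exists_emb (Q := Q) α hα hgen P G hG D N (fun r _ => hDN r) c β hβ hβ' hDP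
  have hM := exists_mult P β hβtop r0 s0 (hU' s0 (Finset.mem_insert_self _ _)) (hPα r0 s0 hα1)
  exact ⟨L, inferInstance, inferInstance, P, hemb, hM,
    fun u hu => hU' u (Finset.mem_insert_of_mem hu), hsep, hσ'⟩

theorem spec_all {R k : Type} [CommRing R] [IsDomain R] [CharZero R] [Algebra.FiniteType ℤ R]
    [Field k] [Algebra R k] [IsFractionRing R k]
    (U : Finset R) (hU : ∀ u ∈ U, u ≠ 0) (H : R[X]) (hH : (H.map (algebraMap R k)).Separable)
    (σ : AlgebraicClosure k ≃ₐ[k] AlgebraicClosure k)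
    (hσ : ∀ θ : AlgebraicClosure k, aeval θ (H.map (algebraMap R k)) = 0 → σ θ ≠ θ) :
    ∃ (L : Type) (_ : Field L) (_ : NumberField L) (P : R →+* L),
      (AE fun v : HeightOneSpectrum (𝓞 L) => (∀ r, v.valuation L (P r) ≤ 1) ∧
        ∃ ψ : k →+* v.adicCompletion L,
          ∀ r, vv v (ψ (algebraMap R k r) - algebraMap L (v.adicCompletion L) (P r)) ≤ exp (-2)) ∧
      (∃ M : ℤ, M ≠ 0 ∧ ∀ y : 𝓞 L, ∃ r : R, (M : L) * algebraMap (𝓞 L) L y = P r) ∧
      (∀ u ∈ U, P u ≠ 0) ∧ (H.map P).Separable ∧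
      ∃ σ' : AlgebraicClosure L ≃ₐ[L] AlgebraicClosure L,
        ∀ θ : AlgebraicClosure L, aeval θ (H.map P) = 0 → σ' θ ≠ θ := by
  classical
  have hcz : CharZero k := charZero_of_injective_algebraMap (IsFractionRing.injective R k)
  obtain ⟨G, hG⟩ := (inferInstance : Algebra.FiniteType ℤ R).out
  have e1 : Algebra.EssFiniteType R k := Algebra.EssFiniteType.of_isLocalization k (nonZeroDivisors R)
  have e2 : Algebra.EssFiniteType ℤ k := Algebra.EssFiniteType.comp ℤ R k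
  have e3 : Algebra.EssFiniteType ℚ k := Algebra.EssFiniteType.of_comp ℤ ℚ k
  obtain ⟨s, hs⟩ := IntermediateField.fg_top ℚ k
  have halg0 : Algebra.IsAlgebraic (Algebra.adjoin ℚ (s : Set k)) k := by
    rw [← IntermediateField.isAlgebraic_adjoin_iff_top, hs, Algebra.isAlgebraic_iff_isIntegral]
    exact Algebra.isIntegral_of_surjective IntermediateField.topEquiv.surjective
  obtain ⟨t, hts, ht⟩ := exists_isTranscendenceBasis_subset (R := ℚ) (s : Set k)
  lift t to Finset k using s.finite_toSet.subset hts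
  let m := t.card
  let e : Fin m ≃ t := t.equivFin.symm
  let x : Fin m → k := fun i => (e i : k)
  have hx : IsTranscendenceBasis ℚ x := (isTranscendenceBasis_equiv e).2 ht
  let _ : Algebra (MvPolynomial (Fin m) ℚ) k := (MvPolynomial.aeval x).toRingHom.toAlgebra
  have hinj : Function.Injective (algebraMap (MvPolynomial (Fin m) ℚ) k) := hx.1
  let _ : Algebra (FractionRing (MvPolynomial (Fin m) ℚ)) k :=
    (IsFractionRing.lift (K := FractionRing (MvPolynomial (Fin m) ℚ)) hinj).toAlgebra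
  have htow : IsScalarTower (MvPolynomial (Fin m) ℚ) (FractionRing (MvPolynomial (Fin m) ℚ)) k :=
    IsScalarTower.of_algebraMap_eq fun p => (IsFractionRing.lift_algebraMap hinj p).symm
  have hta : Algebra.IsAlgebraic (FractionRing (MvPolynomial (Fin m) ℚ)) k := by
    refine ⟨fun y => ?_⟩
    obtain ⟨p, hp, hpy⟩ := hx.isAlgebraic.isAlgebraic y
    have h1 : IsAlgebraic (MvPolynomial (Fin m) ℚ) y := by
      refine ⟨p.map hx.1.aevalEquiv.symm.toRingEquiv.toRingHom, ?_, ?_⟩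
      · exact (Polynomial.map_ne_zero_iff
          hx.1.aevalEquiv.symm.toRingEquiv.injective).2 hp
      · rw [aeval_def, eval₂_map]
        rw [aeval_def] at hpy
        have h2 : (algebraMap (MvPolynomial (Fin m) ℚ) k).comp
            hx.1.aevalEquiv.symm.toRingEquiv.toRingHom =
            algebraMap (Algebra.adjoin ℚ (Set.range x)) k := by
          ext1 z
          obtain ⟨p, rfl⟩ := hx.1.aevalEquiv.surjective z
          rw [hx.1.algebraMap_aevalEquiv]
          change MvPolynomial.aeval x (hx.1.aevalEquiv.symm (hx.1.aevalEquiv p)) = _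
          rw [AlgEquiv.symm_apply_apply]
        rw [h2]
        exact hpy
    exact h1.extendScalars (IsFractionRing.injective _ _)
  exact spec_aux (m := m) (Q := FractionRing (MvPolynomial (Fin m) ℚ)) G hG U hU H hH σ hσ

/-- local data: `Good` follows from the conditions at one discrete valuation -/
def Local {R k : Type} [CommRing R] [Field k] [Algebra R k] (m : ℕ) (U : Finset R) (q0 : ℕ)
    (κQ : ∀ (κ : Type) [Field κ], (R →+* κ) → Prop)
    (S : ∀ (κ : Type) [Field κ], (R →+* κ) → Set (Fin m → κ))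
    (Good : (Fin (m + 1) → R) → Prop) : Prop :=
  ∀ (E : Type) [Field E] (V : Valuation E ℤᵐ⁰)
    [Finite (IsLocalRing.ResidueField V.valuationSubring)] (ψ : k →+* E)
    (ρ : R →+* IsLocalRing.ResidueField V.valuationSubring),
    (∀ r, V (ψ (algebraMap R k r)) ≤ 1) →
    (∀ (r : R) (h : V (ψ (algebraMap R k r)) ≤ 1),
      ρ r = IsLocalRing.residue _ ⟨ψ (algebraMap R k r), h⟩) →
    (∀ u ∈ U, ρ u ≠ 0) → κQ _ ρ → q0 ≤ Nat.card (IsLocalRing.ResidueField V.valuationSubring) →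
    ∀ c : Fin (m + 1) → R, V (ψ (algebraMap R k (c 0))) = exp (-1) →
    (fun i : Fin m => ρ (c i.succ)) ∈ S _ ρ → Good c

/-- the density theorem, with the primes modulo which `H` has no root -/
theorem gen_root {R k : Type} [CommRing R] [IsDomain R] [CharZero R] [Algebra.FiniteType ℤ R]
    [Field k] [Algebra R k] [IsFractionRing R k] (m : ℕ)
    (U : Finset R) (hU : ∀ u ∈ U, u ≠ 0) (H : R[X]) (hH : (H.map (algebraMap R k)).Separable)
    (σ : AlgebraicClosure k ≃ₐ[k] AlgebraicClosure k)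
    (hσ : ∀ θ : AlgebraicClosure k, aeval θ (H.map (algebraMap R k)) = 0 → σ θ ≠ θ)
    (q0 : ℕ) (δ : ℝ) (hδ : 0 < δ) (hδ1 : δ ≤ 1)
    (S : ∀ (κ : Type) [Field κ], (R →+* κ) → Set (Fin m → κ))
    (hS : ∀ (κ : Type) [Field κ] [Finite κ] (ρ : R →+* κ), q0 ≤ Nat.card κ →
      (∀ u ∈ U, ρ u ≠ 0) → (∀ x, (H.map ρ).eval x ≠ 0) →
      δ * (Nat.card κ : ℝ) ^ m ≤ (S κ ρ).ncard)
    (Good : (Fin (m + 1) → R) → Prop)
    (hloc : Local (k := k) m U q0 (fun κ _ ρ => ∀ x : κ, (H.map ρ).eval x ≠ 0) S Good)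
    (ε : ℝ) (hε : 0 < ε) :
    ∃ I : Ideal R, Finite (R ⧸ I) ∧
      (Set.ncard ((fun (c : Fin (m + 1) → R) i => Ideal.Quotient.mk I (c i)) ''
        {c | ¬ Good c}) : ℝ) ≤ ε * (Nat.card (R ⧸ I) : ℝ) ^ (m + 1) := by
  classical
  obtain ⟨L, _, _, P, hemb, hM, hPU, hsep, hσ'⟩ := spec_all U hU H hH σ hσ
  obtain ⟨c, hc, hcf⟩ := IsLocalization.integerNormalization_spec (nonZeroDivisors (𝓞 L)) (H.map P)
  set g := IsLocalization.integerNormalization (nonZeroDivisors (𝓞 L)) (H.map P) with hg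
  have hc0 : c ≠ 0 := nonZeroDivisors.ne_zero hc
  have hinj : Function.Injective (algebraMap (𝓞 L) L) := IsFractionRing.injective (𝓞 L) L
  have hcK : algebraMap (𝓞 L) L c ≠ 0 := by
    rw [Ne, map_eq_zero_iff _ hinj]
    exact hc0
  have hgf : g.map (algebraMap (𝓞 L) L) = C (algebraMap (𝓞 L) L c) * H.map P := by
    rw [hcf]
    ext i
    rw [coeff_smul, coeff_C_mul, Algebra.smul_def]
  have hgs : (g.map (algebraMap (𝓞 L) L)).Separable := by
    rw [hgf]
    exact Separable.unit_mul (isUnit_C.2 hcK.isUnit) hsep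
  have hgσ : ∃ σ : AlgebraicClosure L ≃ₐ[L] AlgebraicClosure L,
      ∀ θ : AlgebraicClosure L, aeval θ (g.map (algebraMap (𝓞 L) L)) = 0 → σ θ ≠ θ := by
    obtain ⟨σ, hσ⟩ := hσ'
    refine ⟨σ, fun θ hθ => hσ θ ?_⟩
    rw [hgf, map_mul, aeval_C] at hθ
    exact (mul_eq_zero.1 hθ).resolve_left ((_root_.map_ne_zero _).2 hcK)
  refine gen_P P hemb hM m U hPU q0 δ
    (fun v => c ∉ v.asIdeal ∧ ∀ r : 𝓞 L ⧸ v.asIdeal,
      (g.map (Ideal.Quotient.mk v.asIdeal)).eval r ≠ 0) ?_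
    (fun κ _ ρ => ∀ x : κ, (H.map ρ).eval x ≠ 0) ?_ S hS Good hloc ε hε
  · intro N hN ε hε
    obtain ⟨T, hT, hTε⟩ := supply_root g (c * N) (mul_ne_zero hc0 hN) hgs hgσ δ hδ hδ1 ε hε
    refine ⟨T, fun v hv => ⟨fun h => (hT v hv).1 (Ideal.mul_mem_left _ _ h),
      fun h => (hT v hv).1 (Ideal.mul_mem_right _ _ h), (hT v hv).2⟩, hTε⟩
  · rintro v ⟨hv1, hv2⟩ ρ - h x
    exact h H g c hv1 hgf hv2 x

/-- the density theorem, with the primes `v` such that `M ∣ N v - 1` -/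
theorem gen_split {R k : Type} [CommRing R] [IsDomain R] [CharZero R] [Algebra.FiniteType ℤ R]
    [Field k] [Algebra R k] [IsFractionRing R k] (m : ℕ)
    (U : Finset R) (hU : ∀ u ∈ U, u ≠ 0) (M : ℕ) (hM : M.Prime)
    (q0 : ℕ) (δ : ℝ) (hδ : 0 < δ) (hδ1 : δ ≤ 1)
    (S : ∀ (κ : Type) [Field κ], (R →+* κ) → Set (Fin m → κ))
    (hS : ∀ (κ : Type) [Field κ] [Finite κ] (ρ : R →+* κ), q0 ≤ Nat.card κ →
      (∀ u ∈ U, ρ u ≠ 0) → M ∣ Nat.card κ - 1 →
      δ * (Nat.card κ : ℝ) ^ m ≤ (S κ ρ).ncard)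
    (Good : (Fin (m + 1) → R) → Prop)
    (hloc : Local (k := k) m U q0 (fun κ _ _ => M ∣ Nat.card κ - 1) S Good)
    (ε : ℝ) (hε : 0 < ε) :
    ∃ I : Ideal R, Finite (R ⧸ I) ∧
      (Set.ncard ((fun (c : Fin (m + 1) → R) i => Ideal.Quotient.mk I (c i)) ''
        {c | ¬ Good c}) : ℝ) ≤ ε * (Nat.card (R ⧸ I) : ℝ) ^ (m + 1) := by
  classical
  obtain ⟨L, _, _, P, hemb, hM', hPU, -, -⟩ := spec_all (k := k) U hU (1 : R[X])
    (by rw [Polynomial.map_one]; exact separable_one)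
    AlgEquiv.refl (fun θ hθ => by
      rw [Polynomial.map_one, map_one] at hθ
      exact absurd hθ one_ne_zero)
  refine gen_P P hemb hM' m U hPU q0 δ
    (fun v => M ∣ Ideal.absNorm v.asIdeal - 1) ?_
    (fun κ _ _ => M ∣ Nat.card κ - 1) ?_ S hS Good hloc ε hε
  · intro N hN ε hε
    obtain ⟨T, hT, hTε⟩ := Pool.Agent.TH120.Sec.supply_split M hM N hN δ hδ hδ1 ε hε
    exact ⟨T, hT, hTε⟩
  · intro v hv ρ hcard _
    rw [hcard]
    exact hv

end Pool.Agent.L0h9.SCF
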