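import Pool.Agent.L0h9.SCF.Lin

/-!
# Members without roots in linear families of polynomials over finite fields, II
-/

set_option autoImplicit false
set_option linter.unusedSectionVars false

namespace Pool.Agent.L0h9.SCF

open Polynomial

variable {κ : Type*} [Field κ] {m : ℕ} [Finite κ]

/-- two of the directions are linearly independent -/
lemma exists_two (g : Fin (m + 1) → κ[X]) (ι : Fin 3 → Fin (m + 1))
    (hli : LinearIndependent κ fun a => g (ι a)) :
    ∃ i j : Fin m, ∀ a b : κ, C a * g i.succ + C b * g j.succ = 0 → a = 0 ∧ b = 0 := by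
  have hinj : Function.Injective ι := by
    intro a b hab
    exact hli.injective (by simp only [hab])
  have hpair : ∀ p q : Fin 3, p ≠ q → ∀ a b : κ, C a * g (ι p) + C b * g (ι q) = 0 →
      a = 0 ∧ b = 0 := by
    intro p q hpq a b hab
    have h1 := (Fintype.linearIndependent_iff.1 hli) (Pi.single p a + Pi.single q b) (by
      simp only [Pi.add_apply, add_smul, Finset.sum_add_distrib]
      rw [Finset.sum_eq_single p, Finset.sum_eq_single q, Pi.single_eq_same, Pi.single_eq_same,
        smul_eq_C_mul, smul_eq_C_mul]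
      · exact hab
      · intro r _ hr
        rw [Pi.single_eq_of_ne hr, zero_smul]
      · intro h
        exact absurd (Finset.mem_univ _) h
      · intro r _ hr
        rw [Pi.single_eq_of_ne hr, zero_smul]
      · intro h
        exact absurd (Finset.mem_univ _) h)
    have h2 := h1 p
    have h3 := h1 q
    rw [Pi.add_apply, Pi.single_eq_same, Pi.single_eq_of_ne hpq, add_zero] at h2
    rw [Pi.add_apply, Pi.single_eq_same, Pi.single_eq_of_ne hpq.symm, zero_add] at h3
    exact ⟨h2, h3⟩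
  have key : ∃ p q : Fin 3, p ≠ q ∧ ι p ≠ 0 ∧ ι q ≠ 0 := by
    by_cases h0 : ι 0 = 0
    · refine ⟨1, 2, by decide, ?_, ?_⟩
      · intro h
        exact absurd (hinj (h.trans h0.symm)) (by decide)
      · intro h
        exact absurd (hinj (h.trans h0.symm)) (by decide)
    · by_cases h1 : ι 1 = 0
      · refine ⟨0, 2, by decide, h0, ?_⟩
        intro h
        exact absurd (hinj (h.trans h1.symm)) (by decide)
      · exact ⟨0, 1, by decide, h0, h1⟩
  obtain ⟨p, q, hpq, hp, hq⟩ := key
  obtain ⟨i, hi⟩ := Fin.exists_succ_eq.2 hp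
  obtain ⟨j, hj⟩ := Fin.exists_succ_eq.2 hq
  refine ⟨i, j, fun a b hab => hpair p q hpq a b ?_⟩
  rw [← hi, ← hj]
  exact hab

/-- the number of members without roots -/
theorem lin_count (g : Fin (m + 1) → κ[X]) (d : ℕ) (hd : 1 ≤ d)
    (hdeg : ∀ i, (g i).natDegree ≤ d) (hbase : ∀ x, ∃ i, (g i).eval x ≠ 0)
    (ι : Fin 3 → Fin (m + 1)) (hli : LinearIndependent κ fun a => g (ι a)) :
    (Nat.card κ : ℝ) ^ m * (1 - (2 * d + 2) / (Nat.card κ : ℝ)) ≤
      d * ({t : Fin m → κ | memb g t ≠ 0 ∧ ∀ x, (memb g t).eval x ≠ 0}.ncard : ℝ) := by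
  classical
  have hF := Fintype.ofFinite κ
  obtain ⟨i, j, hij⟩ := exists_two g ι hli
  set q := Nat.card κ with hq
  have hq2 : 2 ≤ q := Finite.one_lt_card
  have hqF : Fintype.card κ = q := (Nat.card_eq_fintype_card).symm
  have hqr : (2 : ℝ) ≤ q := by exact_mod_cast hq2
  -- the numbers of roots
  let Rt : (Fin m → κ) → Finset κ := fun t => Finset.univ.filter fun x => (memb g t).eval x = 0
  have hRt : ∀ t x, x ∈ Rt t ↔ (memb g t).eval x = 0 := fun t x => by
    simp only [Rt, Finset.mem_filter, Finset.mem_univ, true_and]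
  have hRt0 : ∀ t, memb g t = 0 → (Rt t).card = q := by
    intro t ht
    have h1 : Rt t = Finset.univ := by
      ext x
      rw [hRt, ht, eval_zero]
      simp
    rw [h1, Finset.card_univ, hqF]
  have hRtd : ∀ t, memb g t ≠ 0 → (Rt t).card ≤ d := by
    intro t ht
    have h1 : Rt t ⊆ (memb g t).roots.toFinset := by
      intro x hx
      rw [Multiset.mem_toFinset, mem_roots ht]
      exact (hRt t x).1 hx
    exact (Finset.card_le_card h1).trans ((Multiset.toFinset_card_le _).trans
      ((card_roots' _).trans (memb_natDegree_le g hdeg t)))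
  -- the first moment
  have hcV : (Fintype.card (Fin m → κ)) = q ^ m := by
    rw [Fintype.card_fun, hqF, Fintype.card_fin]
  have hM1 : ∑ t, (Rt t).card ≤ q ^ m := by
    have h1 : ∑ t, (Rt t).card = ∑ x : κ, (Finset.univ.filter fun t => (memb g t).eval x = 0).card :=
      Finset.sum_card_bipartiteAbove_eq_sum_card_bipartiteBelow fun t x => (memb g t).eval x = 0
    have h2 : (∑ t, (Rt t).card) * q ≤ q ^ m * q := by
      rw [h1, Finset.sum_mul]
      refine (Finset.sum_le_card_nsmul _ _ (q ^ m) fun x _ => ?_).trans ?_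
      · have h3 := count_one g x (hbase x)
        rwa [Set.ncard_eq_toFinset_card', Set.toFinset_ofPred] at h3
      · rw [Finset.card_univ, hqF, smul_eq_mul, mul_comm]
    exact Nat.le_of_mul_le_mul_right h2 (by omega)
  -- the second moment
  let Ind : Finset (κ × κ) := Finset.univ.filter fun p =>
    (g i.succ).eval p.1 * (g j.succ).eval p.2 - (g j.succ).eval p.1 * (g i.succ).eval p.2 ≠ 0
  have hInd : q ^ 2 ≤ Ind.card + 2 * d * q := by
    have h1 := few_pairs (g i.succ) (g j.succ) d (hdeg _) (hdeg _) hij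
    rw [Set.ncard_eq_toFinset_card', Set.toFinset_ofPred] at h1
    have h2 := Finset.card_filter_add_card_filter_not (s := (Finset.univ : Finset (κ × κ)))
      (fun p : κ × κ => (g i.succ).eval p.1 * (g j.succ).eval p.2 -
        (g j.succ).eval p.1 * (g i.succ).eval p.2 = 0)
    rw [Finset.card_univ, Fintype.card_prod, hqF] at h2
    have h3 : Ind.card = (Finset.univ.filter fun p : κ × κ =>
      ¬ ((g i.succ).eval p.1 * (g j.succ).eval p.2 -
        (g j.succ).eval p.1 * (g i.succ).eval p.2 = 0)).card := rfl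
    rw [sq, ← h2, h3, add_comm]
    exact Nat.add_le_add_left h1 _
  have hM2 : Ind.card * q ^ m ≤ (∑ t, (Rt t).offDiag.card) * q ^ 2 := by
    have h1 : ∀ t, (Ind.filter fun p => (memb g t).eval p.1 = 0 ∧ (memb g t).eval p.2 = 0).card ≤
        (Rt t).offDiag.card := by
      intro t
      refine Finset.card_le_card fun p hp => ?_
      rw [Finset.mem_filter] at hp
      rw [Finset.mem_offDiag, hRt, hRt]
      refine ⟨hp.2.1, hp.2.2, fun h => ?_⟩
      apply (Finset.mem_filter.1 hp.1).2
      rw [h]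
      ring
    have h2 : ∑ t, (Ind.filter fun p => (memb g t).eval p.1 = 0 ∧
        (memb g t).eval p.2 = 0).card =
        ∑ p ∈ Ind, (Finset.univ.filter fun t => (memb g t).eval p.1 = 0 ∧
          (memb g t).eval p.2 = 0).card :=
      Finset.sum_card_bipartiteAbove_eq_sum_card_bipartiteBelow fun t (p : κ × κ) =>
        (memb g t).eval p.1 = 0 ∧ (memb g t).eval p.2 = 0
    calc Ind.card * q ^ m = ∑ p ∈ Ind, q ^ m := by rw [Finset.sum_const, smul_eq_mul]
      _ = ∑ p ∈ Ind, (Finset.univ.filter fun t => (memb g t).eval p.1 = 0 ∧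
          (memb g t).eval p.2 = 0).card * q ^ 2 := by
        refine Finset.sum_congr rfl fun p hp => ?_
        have h3 := count_two g p.1 p.2 i j (Finset.mem_filter.1 hp).2
        rw [Set.ncard_eq_toFinset_card', Set.toFinset_ofPred] at h3
        exact h3.symm
      _ = (∑ t, (Ind.filter fun p => (memb g t).eval p.1 = 0 ∧
        (memb g t).eval p.2 = 0).card) * q ^ 2 := by rw [h2, Finset.sum_mul]
      _ ≤ _ := Nat.mul_le_mul_right _ (Finset.sum_le_sum fun t _ => h1 t)
  -- the vanishing members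
  let Z : Finset (Fin m → κ) := Finset.univ.filter fun t => memb g t = 0
  have hZ : Z.card * ((q - 1) * q ^ 3) ≤ q ^ (m + 1) := by
    have h1 := few_zero g ι hli
    rwa [Set.ncard_eq_toFinset_card', Set.toFinset_ofPred] at h1
  let G0 : Finset (Fin m → κ) := Finset.univ.filter fun t =>
    memb g t ≠ 0 ∧ ∀ x, (memb g t).eval x ≠ 0
  have hG0 : {t : Fin m → κ | memb g t ≠ 0 ∧ ∀ x, (memb g t).eval x ≠ 0}.ncard = G0.card := by
    rw [Set.ncard_eq_toFinset_card', Set.toFinset_ofPred]
  rw [hG0]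
  -- the inequality for one member
  have hone : ∀ t, memb g t ≠ 0 → (d : ℝ) - d * (Rt t).card + (Rt t).offDiag.card ≤
      d * (if t ∈ G0 then 1 else 0) := by
    intro t ht
    have h1 := hRtd t ht
    have h2 : ((Rt t).offDiag.card : ℝ) = (Rt t).card * (Rt t).card - (Rt t).card := by
      rw [Finset.offDiag_card, Nat.cast_sub (Nat.le_mul_self _)]
      push_cast
      ring
    rw [h2]
    by_cases hN : (Rt t).card = 0
    · have h3 : t ∈ G0 := by
        rw [Finset.mem_filter]
        refine ⟨Finset.mem_univ _, ht, fun x hx => ?_⟩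
        rw [Finset.card_eq_zero] at hN
        have h4 : x ∈ Rt t := (hRt t x).2 hx
        rw [hN] at h4
        exact absurd h4 (Finset.notMem_empty x)
      rw [if_pos h3, hN]
      simp
    · have h3 : (1 : ℝ) ≤ (Rt t).card := by exact_mod_cast Nat.one_le_iff_ne_zero.2 hN
      have h4 : ((Rt t).card : ℝ) ≤ d := by exact_mod_cast h1
      have h5 : (0 : ℝ) ≤ d * (if t ∈ G0 then 1 else 0) := by
        split_ifs <;> positivity
      refine le_trans ?_ h5
      nlinarith
  have hsum : ∑ t ∈ Finset.univ.filter (fun t => memb g t ≠ 0),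
      ((d : ℝ) - d * (Rt t).card + (Rt t).offDiag.card) ≤ d * G0.card := by
    refine (Finset.sum_le_sum fun t ht => hone t (Finset.mem_filter.1 ht).2).trans ?_
    rw [← Finset.mul_sum]
    refine mul_le_mul_of_nonneg_left ?_ (Nat.cast_nonneg _)
    rw [Finset.sum_ite_mem, Finset.sum_const, nsmul_eq_mul, mul_one]
    exact_mod_cast Finset.card_le_card Finset.inter_subset_right
  have hsplit : ∑ t, ((d : ℝ) - d * (Rt t).card + (Rt t).offDiag.card) =
      ∑ t ∈ Finset.univ.filter (fun t => memb g t ≠ 0),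
        ((d : ℝ) - d * (Rt t).card + (Rt t).offDiag.card) +
      ∑ t ∈ Z, ((d : ℝ) - d * (Rt t).card + (Rt t).offDiag.card) := by
    have h1 := Finset.sum_filter_add_sum_filter_not (Finset.univ : Finset (Fin m → κ))
      (fun t => memb g t ≠ 0) fun t => ((d : ℝ) - d * (Rt t).card + (Rt t).offDiag.card)
    rw [← h1]
    congr 1
    refine Finset.sum_congr ?_ fun _ _ => rfl
    ext t
    simp only [Z, Finset.mem_filter, Finset.mem_univ, true_and, not_not]
  have hZsum : ∑ t ∈ Z, ((d : ℝ) - d * (Rt t).card + (Rt t).offDiag.card) ≤ Z.card * (q : ℝ) ^ 2 := by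
    rw [← nsmul_eq_mul]
    refine Finset.sum_le_card_nsmul _ _ _ fun t ht => ?_
    have h1 := hRt0 t (Finset.mem_filter.1 ht).2
    have h2 : ((Rt t).offDiag.card : ℝ) = (Rt t).card * (Rt t).card - (Rt t).card := by
      rw [Finset.offDiag_card, Nat.cast_sub (Nat.le_mul_self _)]
      push_cast
      ring
    rw [h2, h1]
    have h3 : (1 : ℝ) ≤ d := by exact_mod_cast hd
    nlinarith
  have hall : ∑ t, ((d : ℝ) - d * (Rt t).card + (Rt t).offDiag.card) =
      d * (q : ℝ) ^ m - d * ∑ t, ((Rt t).card : ℝ) + ∑ t, ((Rt t).offDiag.card : ℝ) := by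
    rw [Finset.sum_add_distrib, Finset.sum_sub_distrib, Finset.sum_const, Finset.card_univ, hcV,
      nsmul_eq_mul, Finset.mul_sum]
    push_cast
    ring
  have hM1r : ∑ t, ((Rt t).card : ℝ) ≤ (q : ℝ) ^ m := by exact_mod_cast hM1
  have hM2r : (Ind.card : ℝ) * (q : ℝ) ^ m ≤ (∑ t, ((Rt t).offDiag.card : ℝ)) * (q : ℝ) ^ 2 := by
    exact_mod_cast hM2
  have hIndr : (q : ℝ) ^ 2 ≤ Ind.card + 2 * d * q := by exact_mod_cast hInd
  have hZr : (Z.card : ℝ) * (((q : ℝ) - 1) * (q : ℝ) ^ 3) ≤ (q : ℝ) ^ (m + 1) := by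
    have h1 : ((q - 1 : ℕ) : ℝ) = (q : ℝ) - 1 := by
      rw [Nat.cast_sub (by omega)]
      norm_num
    rw [← h1]
    exact_mod_cast hZ
  set V : ℝ := (q : ℝ) ^ m with hV
  have hV0 : 0 < V := by positivity
  have hq0 : (0 : ℝ) < q := by linarith
  set S2 : ℝ := ∑ t, ((Rt t).offDiag.card : ℝ) with hS2
  -- the second moment is large
  have e1 : V * (1 - 2 * d / q) ≤ S2 := by
    have h1 : ((q : ℝ) ^ 2 - 2 * d * q) * V ≤ S2 * (q : ℝ) ^ 2 := by
      refine le_trans ?_ hM2r
      apply mul_le_mul_of_nonneg_right _ hV0.le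
      linarith
    have h2 : V * (1 - 2 * d / q) = ((q : ℝ) ^ 2 - 2 * d * q) * V / (q : ℝ) ^ 2 := by
      field_simp
    rw [h2, div_le_iff₀ (by positivity)]
    exact h1
  -- the vanishing members contribute little
  have e2 : (Z.card : ℝ) * (q : ℝ) ^ 2 ≤ V * (2 / q) := by
    have h1 : (Z.card : ℝ) * (q : ℝ) ^ 2 * (((q : ℝ) - 1) * q) ≤ V * q := by
      calc (Z.card : ℝ) * (q : ℝ) ^ 2 * (((q : ℝ) - 1) * q) =
          (Z.card : ℝ) * (((q : ℝ) - 1) * (q : ℝ) ^ 3) := by ring
        _ ≤ (q : ℝ) ^ (m + 1) := hZr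
        _ = V * q := pow_succ _ _
    have h2 : V * (2 / q) = V * 2 / q := by ring
    rw [h2, le_div_iff₀ hq0]
    have h3 : 0 ≤ (Z.card : ℝ) * (q : ℝ) ^ 2 := by positivity
    have h4 : (q : ℝ) / 2 ≤ (q : ℝ) - 1 := by linarith
    have h5 : (Z.card : ℝ) * (q : ℝ) ^ 2 * ((q : ℝ) / 2 * q) ≤ V * q :=
      le_trans (mul_le_mul_of_nonneg_left (mul_le_mul_of_nonneg_right h4 hq0.le) h3) h1
    have h6 : (Z.card : ℝ) * (q : ℝ) ^ 2 * q / 2 ≤ V := by
      refine le_of_mul_le_mul_right ?_ hq0
      linarith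
    linarith
  have hd0 : (0 : ℝ) ≤ d := Nat.cast_nonneg _
  have e3 : (d : ℝ) * ∑ t, ((Rt t).card : ℝ) ≤ d * V := mul_le_mul_of_nonneg_left hM1r hd0
  have e4 : V * (1 - (2 * d + 2) / (q : ℝ)) = V * (1 - 2 * d / q) - V * (2 / q) := by
    rw [add_div]
    ring
  rw [e4]
  linarith

end Pool.Agent.L0h9.SCF
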