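import Pool.Agent.Y141.PS.FG

/-!
# The local theorem, in terms of the reduction of a ring
-/

set_option autoImplicit false

namespace Pool.Agent.L0h9.SCF

open Polynomial WithZero IsDedekindDomain NumberField
open Pool.Agent.Y157.PS (FineP)

theorem fineP_rho {k : Type} [Field k] [CharZero k] {R : Type} [CommRing R] [Algebra R k]
    (hinjk : Function.Injective (algebraMap R k)) {E : Type} [Field E] (V : Valuation E ℤᵐ⁰)
    [Finite (IsLocalRing.ResidueField V.valuationSubring)] (ψ : k →+* E)
    (ρ : R →+* IsLocalRing.ResidueField V.valuationSubring)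
    (hint : ∀ r, V (ψ (algebraMap R k r)) ≤ 1)
    (hρ : ∀ (r : R) (h : V (ψ (algebraMap R k r)) ≤ 1),
      ρ r = IsLocalRing.residue _ ⟨ψ (algebraMap R k r), h⟩)
    (G : R[X]) (hdeg : (G.map ρ).natDegree = G.natDegree) (hsep : (G.map ρ).Separable)
    (hroot : ∀ x, (G.map ρ).eval x ≠ 0) (h3 : 3 ≤ G.natDegree) (a : R)
    (ha : V (ψ (algebraMap R k a)) = exp (-1)) (l : ℕ) (hl : l.Prime) (hld : l ∣ G.natDegree)
    (hlρ : (l : IsLocalRing.ResidueField V.valuationSubring) ≠ 0) :
    FineP l (algebraMap R k a) (G.map (algebraMap R k)) := by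
  classical
  have : Fact l.Prime := ⟨hl⟩
  have hinj : Function.Injective (ψ.comp (algebraMap R k)) := ψ.injective.comp hinjk
  let j : R →+* V.valuationSubring :=
    { toFun := fun r => ⟨ψ (algebraMap R k r), hint r⟩
      map_one' := Subtype.ext (by
        change ψ (algebraMap R k 1) = 1
        rw [map_one, map_one])
      map_mul' := fun y z => Subtype.ext (by
        change ψ (algebraMap R k (y * z)) = ψ (algebraMap R k y) * ψ (algebraMap R k z)
        rw [map_mul, map_mul])
      map_zero' := Subtype.ext (by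
        change ψ (algebraMap R k 0) = 0
        rw [map_zero, map_zero])
      map_add' := fun y z => Subtype.ext (by
        change ψ (algebraMap R k (y + z)) = ψ (algebraMap R k y) + ψ (algebraMap R k z)
        rw [map_add, map_add]) }
  have hjinj : Function.Injective j := by
    intro x y hxy
    exact hinj (congrArg Subtype.val hxy)
  have hρj : ρ = (IsLocalRing.residue _).comp j := by
    ext r
    exact hρ r (hint r)
  have hG0 : G ≠ 0 := by
    rintro rfl
    simp at h3
  have hmap : G.map ρ = (G.map j).map (IsLocalRing.residue _) := by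
    rw [Polynomial.map_map, ← hρj]
  have hlcj : (G.map j).leadingCoeff = j G.leadingCoeff := leadingCoeff_map_of_injective hjinj G
  have hlcρ : ρ G.leadingCoeff ≠ 0 := by
    intro h0
    have h1 : (G.map ρ).coeff G.natDegree = 0 := by
      rw [coeff_map]
      exact h0
    rw [← hdeg, coeff_natDegree, leadingCoeff_eq_zero] at h1
    exact hsep.ne_zero h1
  have hdegk : (G.map (algebraMap R k)).natDegree = G.natDegree :=
    natDegree_map_eq_of_injective hinjk G
  have hℓ1 : ¬ (l : ℤ) ∣ (-1 : ℤ) := by
    intro h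
    have h5 := Int.natAbs_dvd_natAbs.2 h
    have h6 : l ∣ 1 := by simpa using h5
    exact hl.one_lt.ne' (Nat.dvd_one.1 h6)
  refine Pool.Agent.Y141.PS.fineP_of_val (Pool.Agent.Y674.PS.funct Pool.Agent.Y157.PS.a_inrt) V ψ ?_
    (G.map (algebraMap R k)) (G.map j) ?_ ?_ ?_ (by rwa [hdegk]) (by rwa [hdegk]) ?_ _ (-1)
    hℓ1 ha
  · have h1 : IsUnit ((l : ℕ) : V.valuationSubring) := by
      by_contra h2
      apply hlρ
      have h3 : ((l : ℕ) : V.valuationSubring) ∈ IsLocalRing.maximalIdeal V.valuationSubring :=
        (IsLocalRing.mem_maximalIdeal _).2 h2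
      rw [← map_natCast (IsLocalRing.residue V.valuationSubring)]
      exact (IsLocalRing.residue_eq_zero_iff _).2 h3
    have h4 := (Valuation.Integers.isUnit_iff_valuation_eq_one
      (Valuation.valuationSubring.integers V)).1 h1
    rwa [map_natCast] at h4
  · rw [Polynomial.map_map, Polynomial.map_map]
    rfl
  · rw [hlcj]
    by_contra h5
    apply hlcρ
    rw [hρj]
    exact (IsLocalRing.residue_eq_zero_iff _).2 ((IsLocalRing.mem_maximalIdeal _).2 h5)
  · rw [← hmap]
    exact hsep
  · intro b hb
    apply hroot (IsLocalRing.residue _ b)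
    rw [hmap, eval_map, eval₂_at_apply]
    exact (IsLocalRing.residue_eq_zero_iff _).2 hb

end Pool.Agent.L0h9.SCF
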