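import Pool.Agent.L0h9.SCF.Alg
import Pool.Agent.L0h9.SCF.Lin2
import Pool.Agent.L0h9.SCF.GenR
import Pool.Agent.L0h9.SCF.LocP

/-!
# The density theorem for linear families of superelliptic curves
-/

set_option autoImplicit false

namespace Pool.Agent.L0h9.SCF

open Polynomial WithZero IsDedekindDomain NumberField
open Pool.Agent.Y157.PS (FineP)

/-- the polynomial `g 0 + ∑ c (i + 1) * g (i + 1)` of a vector of parameters -/
noncomputable def mb {R k : Type} [CommRing R] [Field k] [Algebra R k] {m : ℕ}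
    (g : Fin (m + 1) → k[X]) (c : Fin (m + 1) → R) : k[X] :=
  memb g fun i => algebraMap R k (c i.succ)

/-- all the assertions on the curve with the parameters `c` -/
def GoodL {R k : Type} [CommRing R] [Field k] [Algebra R k] (d : ℕ) {m : ℕ}
    (g : Fin (m + 1) → k[X]) (c : Fin (m + 1) → R) : Prop :=
  algebraMap R k (c 0) ≠ 0 ∧ (mb g c).natDegree = d ∧ (mb g c).Separable ∧
    ∀ l : ℕ, l.Prime → l ∣ d → FineP l (algebraMap R k (c 0)) (mb g c)

lemma val_one_of {k E : Type} [Field k] [Field E] {R : Type} [CommRing R] [Algebra R k]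
    (V : Valuation E ℤᵐ⁰) (ψ : k →+* E)
    (ρ : R →+* IsLocalRing.ResidueField V.valuationSubring)
    (hint : ∀ r, V (ψ (algebraMap R k r)) ≤ 1)
    (hρ : ∀ (r : R) (h : V (ψ (algebraMap R k r)) ≤ 1),
      ρ r = IsLocalRing.residue _ ⟨ψ (algebraMap R k r), h⟩) (r : R) (hr : ρ r ≠ 0) :
    V (ψ (algebraMap R k r)) = 1 := by
  by_contra h
  apply hr
  rw [hρ r (hint r), IsLocalRing.residue_eq_zero_iff, IsLocalRing.mem_maximalIdeal]
  intro hu
  exact h ((Valuation.Integers.isUnit_iff_valuation_eq_one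
    (Valuation.valuationSubring.integers V)).1 hu)

theorem lin_density {R k : Type} [CommRing R] [IsDomain R] [CharZero R] [Algebra.FiniteType ℤ R]
    [Field k] [Algebra R k] [IsFractionRing R k] (d m : ℕ) (hd : 3 ≤ d) (g : Fin (m + 1) → k[X])
    (hdeg : ∀ i, (g i).natDegree ≤ d)
    (hsep : ∃ t : Fin m → k, (memb g t).natDegree = d ∧ (memb g t).Separable)
    (hbase : ∃ σ : AlgebraicClosure k ≃ₐ[k] AlgebraicClosure k,
      ∀ θ : AlgebraicClosure k, (∀ i, aeval θ (g i) = 0) → σ θ ≠ θ)
    (hli : ∃ ι : Fin 3 → Fin (m + 1), LinearIndependent k fun a => g (ι a))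
    (ε : ℝ) (hε : 0 < ε) :
    ∃ I : Ideal R, Finite (R ⧸ I) ∧
      (Set.ncard ((fun (c : Fin (m + 1) → R) i => Ideal.Quotient.mk I (c i)) ''
        {c | ¬ GoodL d g c}) : ℝ) ≤ ε * (Nat.card (R ⧸ I) : ℝ) ^ (m + 1) := by
  classical
  have hcz : CharZero k := charZero_of_injective_algebraMap (IsFractionRing.injective R k)
  have hinj : Function.Injective (algebraMap R k) := IsFractionRing.injective R k
  obtain ⟨t0, ht0d, ht0s⟩ := hsep
  obtain ⟨σ, hσ⟩ := hbase
  obtain ⟨ι, hι⟩ := hli
  obtain ⟨D, G, hD, hG⟩ := exists_denom (R := R) g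
  obtain ⟨H, W, h, u, hu, hH, hHk, hdvd⟩ := exists_base (k := k) G
  have hDk : algebraMap R k D ≠ 0 := by rwa [Ne, map_eq_zero_iff _ hinj]
  have huk : algebraMap R k u ≠ 0 := by rwa [Ne, map_eq_zero_iff _ hinj]
  have hdegG : ∀ i, (G i).natDegree ≤ d := by
    intro i
    rw [← natDegree_map_eq_of_injective hinj, hG, natDegree_C_mul hDk]
    exact hdeg i
  have hmG : ∀ t : Fin m → k, memb (fun i => (G i).map (algebraMap R k)) t =
      C (algebraMap R k D) * memb g t := by
    intro t
    simp only [memb, hG, mul_add, Finset.mul_sum]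
    congr 1
    refine Finset.sum_congr rfl fun i _ => ?_
    ring
  -- the separable member
  have hs0 : (memb (fun i => (G i).map (algebraMap R k)) t0).Separable := by
    rw [hmG]
    exact Separable.unit_mul (isUnit_C.2 hDk.isUnit) ht0s
  -- the base locus
  have hhs : h.Separable := by
    refine hs0.of_dvd ?_
    rw [memb]
    exact dvd_add (hdvd 0) (Finset.dvd_sum fun i _ => (hdvd _).mul_left _)
  have hHs : (H.map (algebraMap R k)).Separable := by
    rw [hHk]
    exact Separable.unit_mul (isUnit_C.2 huk.isUnit) hhs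
  have hHσ : ∀ θ : AlgebraicClosure k, aeval θ (H.map (algebraMap R k)) = 0 → σ θ ≠ θ := by
    intro θ hθ
    rw [hHk, map_mul, aeval_C] at hθ
    have h1 := (mul_eq_zero.1 hθ).resolve_left ((_root_.map_ne_zero _).2 huk)
    refine hσ θ fun i => ?_
    have h2 := aeval_eq_zero_of_dvd_aeval_eq_zero (hdvd i) h1
    rw [hG, map_mul, aeval_C] at h2
    exact (mul_eq_zero.1 h2).resolve_left ((_root_.map_ne_zero _).2 hDk)
  -- three linearly independent members
  have hι' : LinearIndependent k fun a => (G (ι a)).map (algebraMap R k) := by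
    rw [Fintype.linearIndependent_iff]
    intro lam hlam a
    have h1 : ∑ a, (algebraMap R k D * lam a) • g (ι a) = 0 := by
      rw [← hlam]
      refine Finset.sum_congr rfl fun a _ => ?_
      rw [hG, mul_comm, mul_smul, ← smul_eq_C_mul]
    exact (mul_eq_zero.1 ((Fintype.linearIndependent_iff.1 hι) _ h1 a)).resolve_left hDk
  obtain ⟨u1, hu1, hind⟩ := indep_reduce (k := k) (fun a => G (ι a)) hι'
  -- the discriminant
  set F : (MvPolynomial (Fin m) R)[X] := memb (fun i => (G i).map MvPolynomial.C) MvPolynomial.X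
    with hF
  set Δ : MvPolynomial (Fin m) R := dsc d F with hΔ
  have hFev : ∀ {A : Type} [CommRing A] (φ : R →+* A) (τ : Fin m → A),
      F.map (MvPolynomial.eval₂Hom φ τ) = memb (fun i => (G i).map φ) τ := by
    intro A _ φ τ
    rw [hF, memb_map]
    congr 1
    · funext i
      rw [Polynomial.map_map]
      congr 1
      ext r
      simp
    · funext i
      simp
  have hΔev : ∀ {A : Type} [CommRing A] (φ : R →+* A) (τ : Fin m → A),
      MvPolynomial.eval₂Hom φ τ Δ = dsc d (memb (fun i => (G i).map φ) τ) := by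
    intro A _ φ τ
    rw [hΔ, ← dsc_map, hFev]
  have hΔ0 : Δ ≠ 0 := by
    intro h0
    have h1 := hΔev (algebraMap R k) t0
    rw [h0, map_zero] at h1
    have h2 : (memb (fun i => (G i).map (algebraMap R k)) t0).natDegree = d := by
      rw [hmG, natDegree_C_mul hDk, ht0d]
    have h3 := dsc_ne _ hs0
    rw [h2] at h3
    exact h3 h1.symm
  obtain ⟨s, hs⟩ := MvPolynomial.ne_zero_iff.1 hΔ0
  set B := Δ.totalDegree with hB
  have hdR : ((d : ℕ) : R) ≠ 0 := Nat.cast_ne_zero.2 (by omega)
  have hd0 : (0 : ℝ) < d := by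
    have : 0 < d := by omega
    exact_mod_cast this
  refine gen_root (k := k) m {D, u1, Δ.coeff s, (d : R)} ?_ H hHs σ hHσ
    (2 * (2 * d + 2 + d * B)) (1 / (2 * d)) (by positivity) ?_
    (fun κ _ ρ => {τ : Fin m → κ | dsc d (memb (fun i => (G i).map ρ) τ) ≠ 0 ∧
      ∀ x, (memb (fun i => (G i).map ρ) τ).eval x ≠ 0}) ?_ (GoodL d g) ?_ ε hε
  · intro v hv
    simp only [Finset.mem_insert, Finset.mem_singleton] at hv
    rcases hv with rfl | rfl | rfl | rfl
    · exact hD
    · exact hu1
    · exact hs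
    · exact hdR
  · rw [div_le_one (by positivity)]
    have : (3 : ℝ) ≤ d := by exact_mod_cast hd
    linarith
  · -- counting
    intro κ _ _ ρ hq hU hroot
    have hDρ : ρ D ≠ 0 := hU D (by simp)
    have hliρ : LinearIndependent κ fun a => (G (ι a)).map ρ := hind κ ρ (hU u1 (by simp))
    have hbaseρ : ∀ x, ∃ i, ((G i).map ρ).eval x ≠ 0 := by
      intro x
      by_contra hx
      push Not at hx
      apply hroot x
      rw [hH, Polynomial.map_sum, eval_finsetSum]
      refine Finset.sum_eq_zero fun i _ => ?_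
      rw [Polynomial.map_mul, eval_mul, hx i, mul_zero]
    have h1 := lin_count (fun i => (G i).map ρ) d (by omega)
      (fun i => natDegree_map_le.trans (hdegG i)) hbaseρ ι hliρ
    have hΔρ : MvPolynomial.map ρ Δ ≠ 0 := by
      intro h0
      have h2 := congrArg (MvPolynomial.coeff s) h0
      rw [MvPolynomial.coeff_map, MvPolynomial.coeff_zero] at h2
      exact hU (Δ.coeff s) (by simp) h2
    have hΔd : (MvPolynomial.map ρ Δ).totalDegree ≤ B := by
      rw [hB, MvPolynomial.totalDegree, MvPolynomial.totalDegree]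
      exact Finset.sup_mono (MvPolynomial.support_map_subset ρ Δ)
    have h2 := zeros_card _ hΔρ B hΔd
    have hev : ∀ τ : Fin m → κ, MvPolynomial.eval τ (MvPolynomial.map ρ Δ) =
        dsc d (memb (fun i => (G i).map ρ) τ) := by
      intro τ
      rw [← hΔev ρ τ, MvPolynomial.eval_map]
      rfl
    simp only [hev] at h2
    set q := Nat.card κ with hq'
    have hq0 : 0 < q := Nat.card_pos
    set S : Set (Fin m → κ) := {τ : Fin m → κ | dsc d (memb (fun i => (G i).map ρ) τ) ≠ 0 ∧
      ∀ x, (memb (fun i => (G i).map ρ) τ).eval x ≠ 0} with hS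
    have h3 : {t : Fin m → κ | memb (fun i => (G i).map ρ) t ≠ 0 ∧
        ∀ x, (memb (fun i => (G i).map ρ) t).eval x ≠ 0}.ncard ≤
        S.ncard + {τ : Fin m → κ | dsc d (memb (fun i => (G i).map ρ) τ) = 0}.ncard := by
      refine (Set.ncard_le_ncard ?_ (Set.toFinite _)).trans (Set.ncard_union_le _ _)
      rintro τ ⟨-, hτ⟩
      by_cases hτ' : dsc d (memb (fun i => (G i).map ρ) τ) = 0
      · exact Or.inr hτ'
      · exact Or.inl ⟨hτ', hτ⟩
    have hqr : (0 : ℝ) < q := by exact_mod_cast hq0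
    have hV : (0 : ℝ) < (q : ℝ) ^ m := by positivity
    set V : ℝ := (q : ℝ) ^ m with hVdef
    have h2r : ({τ : Fin m → κ | dsc d (memb (fun i => (G i).map ρ) τ) = 0}.ncard : ℝ) ≤
        B * V / q := by
      rw [le_div_iff₀ hqr, hVdef]
      exact_mod_cast h2
    have h3r : ({t : Fin m → κ | memb (fun i => (G i).map ρ) t ≠ 0 ∧
        ∀ x, (memb (fun i => (G i).map ρ) t).eval x ≠ 0}.ncard : ℝ) ≤
        S.ncard + ({τ : Fin m → κ | dsc d (memb (fun i => (G i).map ρ) τ) = 0}.ncard : ℝ) := by
      exact_mod_cast h3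
    have hqbig : (2 : ℝ) * (2 * d + 2 + d * B) ≤ q := by exact_mod_cast hq
    have h4 : V * (1 - (2 * d + 2) / (q : ℝ)) ≤ d * (S.ncard + B * V / q) :=
      h1.trans (mul_le_mul_of_nonneg_left (h3r.trans (by linarith)) hd0.le)
    have h5 : V * ((2 * d + 2 + d * B) / (q : ℝ)) ≤ V * (1 / 2) := by
      apply mul_le_mul_of_nonneg_left _ hV.le
      rw [div_le_iff₀ hqr]
      linarith
    have h6 : V * (1 - (2 * d + 2) / (q : ℝ)) - d * (B * V / q) =
        V - V * ((2 * d + 2 + d * B) / (q : ℝ)) := by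
      field_simp
      ring
    have h7 : V / 2 ≤ d * (S.ncard : ℝ) := by
      have : V * (1 - (2 * d + 2) / (q : ℝ)) - d * (B * V / q) ≤ d * (S.ncard : ℝ) := by
        linarith
      rw [h6] at this
      linarith
    have h8 : 1 / (2 * (d : ℝ)) * V = V / 2 / d := by
      field_simp
    rw [h8, div_le_iff₀ hd0, mul_comm]
    exact h7
  · -- the local theorem
    intro E _ V _ ψ ρ hint hρ hU hroot hq c hc0 hcS
    have hcS1 : dsc d (memb (fun i => (G i).map ρ) fun i : Fin m => ρ (c i.succ)) ≠ 0 := hcS.1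
    have hcS2 : ∀ x, (memb (fun i => (G i).map ρ) fun i : Fin m => ρ (c i.succ)).eval x ≠ 0 :=
      hcS.2
    set Fc : R[X] := memb G fun i : Fin m => c i.succ with hFc
    have hFcρ : Fc.map ρ = memb (fun i => (G i).map ρ) fun i : Fin m => ρ (c i.succ) := by
      rw [hFc, memb_map]
    rw [← hFcρ] at hcS1 hcS2
    have hFck : Fc.map (algebraMap R k) = C (algebraMap R k D) * mb g c := by
      rw [hFc, memb_map, hmG]
      rfl
    have hFcd : Fc.natDegree ≤ d := memb_natDegree_le G hdegG _
    obtain ⟨hρd, hρs⟩ := of_dsc d (by omega) (Fc.map ρ) (natDegree_map_le.trans hFcd) hcS1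
    have hFcd' : Fc.natDegree = d := by
      refine le_antisymm hFcd ?_
      rw [← hρd]
      exact natDegree_map_le
    have hdscR : dsc d Fc ≠ 0 := by
      intro h0
      rw [dsc_map, h0, map_zero] at hcS1
      exact hcS1 rfl
    have hdsck : dsc d (Fc.map (algebraMap R k)) ≠ 0 := by
      rw [dsc_map, Ne, map_eq_zero_iff _ hinj]
      exact hdscR
    obtain ⟨hkd, hks⟩ := of_dsc d (by omega) (Fc.map (algebraMap R k))
      (natDegree_map_le.trans hFcd) hdsck
    rw [hFck] at hkd hks
    rw [natDegree_C_mul hDk] at hkd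
    have hks' : (mb g c).Separable := hks.of_mul_right
    have hDv : V (ψ (algebraMap R k D)) = 1 := val_one_of V ψ ρ hint hρ D (hU D (by simp))
    have hdρ : ((d : ℕ) : IsLocalRing.ResidueField V.valuationSubring) ≠ 0 := by
      have := hU (d : R) (by simp)
      rwa [map_natCast] at this
    refine ⟨?_, hkd, hks', fun l hl hld => ?_⟩
    · intro h0
      rw [h0, map_zero, map_zero] at hc0
      exact exp_ne_zero hc0.symm
    · have hlρ : ((l : ℕ) : IsLocalRing.ResidueField V.valuationSubring) ≠ 0 := by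
        intro h0
        obtain ⟨e, he⟩ := hld
        apply hdρ
        rw [he, Nat.cast_mul, h0, zero_mul]
      have h1 := fineP_rho hinj V ψ ρ hint hρ Fc (by rw [hρd, hFcd']) hρs hcS2 (by omega)
        (D * c 0) (by rw [map_mul, map_mul, map_mul, hDv, one_mul, hc0]) l hl
        (by rwa [hFcd']) hlρ
      rw [hFck, map_mul] at h1
      exact h1.scale hDk

end Pool.Agent.L0h9.SCF
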