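import Pool.Agent.L0h9.SCF.Ext2
import Pool.Agent.L0h9.SCF.Fam
import Pool.Agent.TH377.Sup.Cnt

/-!
# The density theorem over all extensions of degree prime to `l`, complete family
-/

set_option autoImplicit false

namespace Pool.Agent.L0h9.SCF

open Polynomial WithZero IsDedekindDomain NumberField
open Pool.Agent.Y157.PS (FineP)
open Pool.Agent.TH377.Sup (pol Irr)

lemma dsc_ne' {K : Type*} [Field K] (f : K[X]) (hs : f.Separable)
    (hd : ((f.natDegree : ℕ) : K) ≠ 0) : dsc f.natDegree f ≠ 0 := by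
  have h0 : f ≠ 0 := hs.ne_zero
  have hn : f.natDegree ≠ 0 := by
    intro h
    rw [h] at hd
    simp at hd
  have h1 : (derivative f).natDegree = f.natDegree - 1 := by
    refine le_antisymm (natDegree_derivative_le f) (le_natDegree_of_ne_zero ?_)
    rw [coeff_derivative, Nat.sub_add_cancel (by omega)]
    refine mul_ne_zero ?_ ?_
    · rw [coeff_natDegree]
      exact leadingCoeff_ne_zero.2 h0
    · have h2 : ((f.natDegree - 1 : ℕ) : K) + 1 = ((f.natDegree : ℕ) : K) := by
        rw [← Nat.cast_add_one, Nat.sub_add_cancel (by omega)]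
      rwa [h2]
  refine mul_ne_zero ?_ ?_
  · rw [coeff_natDegree]
    exact leadingCoeff_ne_zero.2 h0
  · rw [← h1]
    intro h
    exact (resultant_eq_zero_iff.1 h).2 hs

/-- the polynomial of a vector of parameters `(a, c)` -/
noncomputable def polK {R k : Type} [CommRing R] [Field k] [Algebra R k] {d : ℕ}
    (c : Fin (d + 1 + 1) → R) : k[X] :=
  pol fun i : Fin (d + 1) => algebraMap R k (c i.succ)

/-- the local obstruction over all finite extensions of degree prime to `l` -/
def FineE {k : Type} [Field k] (l : ℕ) (a : k) (f : k[X]) : Prop :=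
  ∀ (F : Type) [Field F] [Algebra k F] [FiniteDimensional k F], ¬ l ∣ Module.finrank k F →
    FineP l (algebraMap k F a) (f.map (algebraMap k F))

/-- all the assertions -/
def GoodE {R k : Type} [CommRing R] [Field k] [Algebra R k] (d : ℕ)
    (c : Fin (d + 1 + 1) → R) : Prop :=
  algebraMap R k (c 0) ≠ 0 ∧ (polK (k := k) c).natDegree = d ∧ (polK (k := k) c).Separable ∧
    ∀ l : ℕ, l.Prime → l ∣ d → FineE l (algebraMap R k (c 0)) (polK (k := k) c)

theorem ext_density {R k : Type} [CommRing R] [IsDomain R] [CharZero R] [Algebra.FiniteType ℤ R]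
    [Field k] [Algebra R k] [IsFractionRing R k] (d : ℕ) (hd : 3 ≤ d) (ε : ℝ) (hε : 0 < ε) :
    ∃ I : Ideal R, Finite (R ⧸ I) ∧
      (Set.ncard ((fun (c : Fin (d + 1 + 1) → R) i => Ideal.Quotient.mk I (c i)) ''
        {c | ¬ GoodE (k := k) d c}) : ℝ) ≤ ε * (Nat.card (R ⧸ I) : ℝ) ^ (d + 1 + 1) := by
  classical
  have hcz : CharZero k := charZero_of_injective_algebraMap (IsFractionRing.injective R k)
  have hinj : Function.Injective (algebraMap R k) := IsFractionRing.injective R k
  have hdR : ((d : ℕ) : R) ≠ 0 := Nat.cast_ne_zero.2 (by omega)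
  have hd0 : (0 : ℝ) < d := by
    have : 0 < d := by omega
    exact_mod_cast this
  refine gen_root (k := k) (d + 1) {(d : R)} ?_ 1 ?_ (AlgEquiv.refl) ?_
    2 (1 / (4 * d)) (by positivity) ?_
    (fun κ _ _ => Irr κ d) ?_ (GoodE (k := k) d) ?_ ε hε
  · intro v hv
    rw [Finset.mem_singleton] at hv
    rw [hv]
    exact hdR
  · rw [Polynomial.map_one]
    exact separable_one
  · intro θ hθ
    rw [Polynomial.map_one, map_one] at hθ
    exact absurd hθ one_ne_zero
  · rw [div_le_one (by positivity)]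
    have : (3 : ℝ) ≤ d := by exact_mod_cast hd
    linarith
  · -- counting
    intro κ _ _ ρ hq hU hroot
    have h1 := Pool.Agent.TH377.Sup.irr_card κ d hd
    set q := Nat.card κ with hq'
    have h2 : ((q : ℝ) - 1) * (q : ℝ) ^ d ≤ 2 * d * ((Irr κ d).ncard : ℝ) := by
      have h3 : ((q - 1 : ℕ) : ℝ) = (q : ℝ) - 1 := by
        rw [Nat.cast_sub (by omega)]
        norm_num
      rw [← h3]
      exact_mod_cast h1
    have hqr : (2 : ℝ) ≤ q := by exact_mod_cast hq
    have h4 : (0 : ℝ) < (q : ℝ) ^ d := by positivity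
    have h5 : (q : ℝ) ^ (d + 1) ≤ 2 * (((q : ℝ) - 1) * (q : ℝ) ^ d) := by
      rw [pow_succ]
      nlinarith
    rw [div_mul_eq_mul_div, one_mul, div_le_iff₀ (by positivity)]
    nlinarith
  · -- the local theorem
    intro E _ V _ ψ ρ hint hρ hU hroot hq c hc0 hcS
    have hcS1 : ρ (c (Fin.last d).succ) ≠ 0 := hcS.1
    have hcS2 : Irreducible (pol fun i : Fin (d + 1) => ρ (c i.succ)) := hcS.2
    set Fc : R[X] := pol fun i : Fin (d + 1) => c i.succ with hFc
    have hFcρ : Fc.map ρ = pol fun i : Fin (d + 1) => ρ (c i.succ) := by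
      rw [hFc, Pool.Agent.TH377.Sup.pol_map]
    have hFck : Fc.map (algebraMap R k) = polK c := by
      rw [hFc, Pool.Agent.TH377.Sup.pol_map]
      rfl
    have hρd : (Fc.map ρ).natDegree = d := by
      rw [hFcρ]
      exact Pool.Agent.TH377.Sup.pol_natDegree _ hcS1
    rw [← hFcρ] at hcS2
    have hρs : (Fc.map ρ).Separable := PerfectField.separable_of_irreducible hcS2
    have hFcd : Fc.natDegree ≤ d := Pool.Agent.TH377.Sup.pol_natDegree_le _
    have hFcd' : Fc.natDegree = d := by
      refine le_antisymm hFcd ?_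
      rw [← hρd]
      exact natDegree_map_le
    have hdρ : ((d : ℕ) : IsLocalRing.ResidueField V.valuationSubring) ≠ 0 := by
      have := hU (d : R) (by simp)
      rwa [map_natCast] at this
    have hdscρ : dsc d (Fc.map ρ) ≠ 0 := by
      have := dsc_ne' _ hρs (by rwa [hρd])
      rwa [hρd] at this
    have hdscR : dsc d Fc ≠ 0 := by
      intro h0
      rw [dsc_map, h0, map_zero] at hdscρ
      exact hdscρ rfl
    have hdsck : dsc d (Fc.map (algebraMap R k)) ≠ 0 := by
      rw [dsc_map, Ne, map_eq_zero_iff _ hinj]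
      exact hdscR
    obtain ⟨hkd, hks⟩ := of_dsc d (by omega) (Fc.map (algebraMap R k))
      (natDegree_map_le.trans hFcd) hdsck
    rw [hFck] at hkd hks
    refine ⟨?_, hkd, hks, fun l hl hld => ?_⟩
    · intro h0
      rw [h0, map_zero, map_zero] at hc0
      exact exp_ne_zero hc0.symm
    · intro F _ _ _ hF
      have hlρ : ((l : ℕ) : IsLocalRing.ResidueField V.valuationSubring) ≠ 0 := by
        intro h0
        obtain ⟨e, he⟩ := hld
        apply hdρ
        rw [he, Nat.cast_mul, h0, zero_mul]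
      have hroot : NoRt _ l (Fc.map ρ) := irr_noRt l _ hcS2 (by rwa [hρd])
      have h1 := ext_rho hinj V ψ ρ hint hρ Fc (by rw [hρd, hFcd']) hρs l hroot (by omega)
        (c 0) hc0 hl (by rwa [hFcd']) hlρ F hF
      rw [hFck] at h1
      exact h1

end Pool.Agent.L0h9.SCF
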