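import Pool.Agent.L0h9.SCF.Fam

/-!
# The density theorem for polynomial families which are linear in two parameters
-/

set_option autoImplicit false

namespace Pool.Agent.L0h9.SCF

open Polynomial WithZero IsDedekindDomain NumberField
open Pool.Agent.Y157.PS (FineP)

section mv

variable {R k : Type} [CommRing R] [IsDomain R] [Field k] [Algebra R k] [IsFractionRing R k]

lemma mv_denom {σ : Type} (p : MvPolynomial σ k) : ∃ (D : R) (P : MvPolynomial σ R), D ≠ 0 ∧
    MvPolynomial.map (algebraMap R k) P = MvPolynomial.C (algebraMap R k D) * p := by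
  induction p using MvPolynomial.induction_on with
  | C a =>
    obtain ⟨x, y, hy, rfl⟩ := IsFractionRing.div_surjective (A := R) a
    have hy0 : y ≠ 0 := nonZeroDivisors.ne_zero hy
    have hyk : algebraMap R k y ≠ 0 := by
      rwa [Ne, map_eq_zero_iff _ (IsFractionRing.injective R k)]
    refine ⟨y, MvPolynomial.C x, hy0, ?_⟩
    rw [MvPolynomial.map_C, ← MvPolynomial.C_mul, mul_div_cancel₀ _ hyk]
  | add p q hp hq =>
    obtain ⟨D, P, hD, hP⟩ := hp
    obtain ⟨E, Q, hE, hQ⟩ := hq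
    refine ⟨D * E, MvPolynomial.C E * P + MvPolynomial.C D * Q, mul_ne_zero hD hE, ?_⟩
    rw [map_add, map_mul, map_mul, MvPolynomial.map_C, MvPolynomial.map_C, hP, hQ, map_mul,
      MvPolynomial.C_mul]
    ring
  | mul_X p n hp =>
    obtain ⟨D, P, hD, hP⟩ := hp
    refine ⟨D, P * MvPolynomial.X n, hD, ?_⟩
    rw [map_mul, hP, MvPolynomial.map_X, mul_assoc]

lemma mvpoly_denom {σ : Type} (p : (MvPolynomial σ k)[X]) :
    ∃ (D : R) (P : (MvPolynomial σ R)[X]), D ≠ 0 ∧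
    P.map (MvPolynomial.map (algebraMap R k)) = C (MvPolynomial.C (algebraMap R k D)) * p := by
  induction p using Polynomial.induction_on' with
  | add p q hp hq =>
    obtain ⟨D, P, hD, hP⟩ := hp
    obtain ⟨E, Q, hE, hQ⟩ := hq
    refine ⟨D * E, C (MvPolynomial.C E) * P + C (MvPolynomial.C D) * Q, mul_ne_zero hD hE, ?_⟩
    rw [Polynomial.map_add, Polynomial.map_mul, Polynomial.map_mul, map_C, map_C,
      MvPolynomial.map_C, MvPolynomial.map_C, hP, hQ, map_mul, MvPolynomial.C_mul, C_mul]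
    ring
  | monomial n a =>
    obtain ⟨D, P, hD, hP⟩ := mv_denom (R := R) a
    refine ⟨D, monomial n P, hD, ?_⟩
    rw [map_monomial, hP, C_mul_monomial]

lemma mvpoly_denoms {σ ι : Type} [Finite ι] (g : ι → (MvPolynomial σ k)[X]) :
    ∃ (D : R) (G : ι → (MvPolynomial σ R)[X]), D ≠ 0 ∧
    ∀ i, (G i).map (MvPolynomial.map (algebraMap R k)) =
      C (MvPolynomial.C (algebraMap R k D)) * g i := by
  classical
  have := Fintype.ofFinite ι
  choose b G hb hG using fun i => mvpoly_denom (R := R) (g i)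
  refine ⟨∏ i, b i, fun i => C (MvPolynomial.C (∏ j ∈ Finset.univ.erase i, b j)) * G i,
    Finset.prod_ne_zero_iff.2 fun i _ => hb i, fun i => ?_⟩
  rw [Polynomial.map_mul, map_C, MvPolynomial.map_C, hG, ← mul_assoc, ← C_mul,
    ← MvPolynomial.C_mul, ← map_mul, Finset.prod_erase_mul _ _ (Finset.mem_univ i)]

end mv

/-- the member with the parameters `s` and `t` of the family `g 0 + t 0 * g 1 + t 1 * g 2`, where the
`g i` depend on `s` -/
noncomputable def fmem {A : Type} [CommRing A] {r : ℕ} (g : Fin 3 → (MvPolynomial (Fin r) A)[X])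
    (s : Fin r → A) (t : Fin 2 → A) : A[X] :=
  memb (fun i => (g i).map (MvPolynomial.eval s)) t

/-- the member of a vector of parameters `(a, t, s)` -/
noncomputable def mbP {R k : Type} [CommRing R] [Field k] [Algebra R k] {r : ℕ}
    (g : Fin 3 → (MvPolynomial (Fin r) k)[X]) (c : Fin (r + 2 + 1) → R) : k[X] :=
  fmem g (fun j => algebraMap R k (c j.succ.succ.succ))
    ![algebraMap R k (c (0 : Fin (r + 2)).succ), algebraMap R k (c (1 : Fin (r + 2)).succ)]

/-- all the assertions on the curve with the parameters `c` -/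
def GoodP {R k : Type} [CommRing R] [Field k] [Algebra R k] (d : ℕ) {r : ℕ}
    (g : Fin 3 → (MvPolynomial (Fin r) k)[X]) (c : Fin (r + 2 + 1) → R) : Prop :=
  algebraMap R k (c 0) ≠ 0 ∧ (mbP g c).natDegree = d ∧ (mbP g c).Separable ∧
    ∀ l : ℕ, l.Prime → l ∣ d → FineP l (algebraMap R k (c 0)) (mbP g c)

/-- the member of a vector, after a homomorphism -/
noncomputable def fmr {R A : Type} [CommRing R] [CommRing A] {r : ℕ} (φ : R →+* A)
    (G : Fin 3 → (MvPolynomial (Fin r) R)[X]) (τ : Fin (r + 2) → A) : A[X] :=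
  memb (fun i => (G i).map (MvPolynomial.eval₂Hom φ fun j => τ j.succ.succ)) ![τ 0, τ 1]

lemma fmr_natDegree_le {R A : Type} [CommRing R] [CommRing A] {r d : ℕ} (φ : R →+* A)
    (G : Fin 3 → (MvPolynomial (Fin r) R)[X]) (hG : ∀ i, (G i).natDegree ≤ d)
    (τ : Fin (r + 2) → A) : (fmr φ G τ).natDegree ≤ d :=
  memb_natDegree_le _ (fun i => natDegree_map_le.trans (hG i)) _

lemma fmr_map {R A B : Type} [CommRing R] [CommRing A] [CommRing B] {r : ℕ} (φ : R →+* A)
    (χ : A →+* B) (G : Fin 3 → (MvPolynomial (Fin r) R)[X]) (τ : Fin (r + 2) → A) :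
    (fmr φ G τ).map χ = fmr (χ.comp φ) G fun i => χ (τ i) := by
  rw [fmr, fmr, memb_map]
  congr 1
  · funext i
    rw [Polynomial.map_map]
    congr 1
    apply MvPolynomial.ringHom_ext
    · intro x
      simp
    · intro x
      simp
  · funext i
    fin_cases i <;> rfl

/-- the universal member -/
noncomputable def funiv {R : Type} [CommRing R] {r : ℕ} (G : Fin 3 → (MvPolynomial (Fin r) R)[X]) :
    (MvPolynomial (Fin (r + 2)) R)[X] :=
  fmr MvPolynomial.C G MvPolynomial.X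

lemma funiv_ev {R A : Type} [CommRing R] [CommRing A] {r : ℕ}
    (G : Fin 3 → (MvPolynomial (Fin r) R)[X]) (φ : R →+* A) (τ : Fin (r + 2) → A) :
    (funiv G).map (MvPolynomial.eval₂Hom φ τ) = fmr φ G τ := by
  rw [funiv, fmr_map]
  congr 1
  · ext x
    simp
  · funext i
    simp

section count

variable {κ : Type} [Field κ] [Finite κ]

theorem famP_count {R : Type} [CommRing R] (ρ : R →+* κ) {r : ℕ} (d : ℕ) (hd : 1 ≤ d)
    (G : Fin 3 → (MvPolynomial (Fin r) R)[X]) (hG : ∀ i, (G i).natDegree ≤ d)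
    (u : MvPolynomial (Fin r) R) (B1 : ℕ) (hu : MvPolynomial.map ρ u ≠ 0)
    (huB : u.totalDegree ≤ B1)
    (hli : ∀ s : Fin r → κ, MvPolynomial.eval₂Hom ρ s u ≠ 0 →
      LinearIndependent κ fun a => (G a).map (MvPolynomial.eval₂Hom ρ s))
    (hbase : ∀ s : Fin r → κ, MvPolynomial.eval₂Hom ρ s u ≠ 0 → ∀ x : κ,
      ∃ a, ((G a).map (MvPolynomial.eval₂Hom ρ s)).eval x ≠ 0)
    (Δ : MvPolynomial (Fin (r + 2)) R) (B : ℕ) (hΔ : MvPolynomial.map ρ Δ ≠ 0)
    (hΔB : Δ.totalDegree ≤ B) (hq : 2 * (B1 + 2 * d + 2 + d * B) ≤ Nat.card κ) :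
    1 / (2 * (d : ℝ)) * (Nat.card κ : ℝ) ^ (r + 2) ≤
      ({τ : Fin (r + 2) → κ | MvPolynomial.eval₂Hom ρ τ Δ ≠ 0 ∧
        ∀ x, (fmr ρ G τ).eval x ≠ 0}.ncard : ℝ) := by
  classical
  have hF := Fintype.ofFinite κ
  set q := Nat.card κ with hq'
  have hq0 : 0 < q := Nat.card_pos
  have hqr : (0 : ℝ) < q := by exact_mod_cast hq0
  have hd0 : (0 : ℝ) < d := by exact_mod_cast hd
  have htd : ∀ {n : ℕ} (p : MvPolynomial (Fin n) R),
      (MvPolynomial.map ρ p).totalDegree ≤ p.totalDegree := by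
    intro n p
    rw [MvPolynomial.totalDegree, MvPolynomial.totalDegree]
    exact Finset.sup_mono (MvPolynomial.support_map_subset ρ p)
  have hev : ∀ {n : ℕ} (p : MvPolynomial (Fin n) R) (s : Fin n → κ),
      MvPolynomial.eval s (MvPolynomial.map ρ p) = MvPolynomial.eval₂Hom ρ s p := by
    intro n p s
    rw [MvPolynomial.eval_map]
    rfl
  have h1 := zeros_card _ hu B1 ((htd u).trans huB)
  have h2 := zeros_card _ hΔ B ((htd Δ).trans hΔB)
  simp only [hev] at h1 h2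
  -- the good `s`
  let GS : Finset (Fin r → κ) := Finset.univ.filter fun s => MvPolynomial.eval₂Hom ρ s u ≠ 0
  have hGS : (q : ℝ) ^ r * (1 - B1 / q) ≤ GS.card := by
    have h3 := Finset.card_filter_add_card_filter_not (s := (Finset.univ : Finset (Fin r → κ)))
      (fun s => MvPolynomial.eval₂Hom ρ s u = 0)
    rw [Finset.card_univ, Fintype.card_fun, Fintype.card_fin, ← Nat.card_eq_fintype_card,
      ← hq'] at h3
    rw [Set.ncard_eq_toFinset_card', Set.toFinset_ofPred] at h1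
    have h4 : ((Finset.univ.filter fun s : Fin r → κ =>
        MvPolynomial.eval₂Hom ρ s u = 0).card : ℝ) ≤ B1 * (q : ℝ) ^ r / q := by
      rw [le_div_iff₀ hqr]
      exact_mod_cast h1
    have h5 : ((Finset.univ.filter fun s : Fin r → κ =>
        MvPolynomial.eval₂Hom ρ s u = 0).card : ℝ) + GS.card = (q : ℝ) ^ r := by
      exact_mod_cast h3
    have h6 : (q : ℝ) ^ r * (1 - B1 / q) = (q : ℝ) ^ r - B1 * (q : ℝ) ^ r / q := by ring
    rw [h6]
    linarith
  -- the good pairs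
  let Nt : (Fin r → κ) → Finset (Fin 2 → κ) := fun s => Finset.univ.filter fun t =>
    memb (fun i => (G i).map (MvPolynomial.eval₂Hom ρ s)) t ≠ 0 ∧
      ∀ x, (memb (fun i => (G i).map (MvPolynomial.eval₂Hom ρ s)) t).eval x ≠ 0
  have hNt : ∀ s ∈ GS, (q : ℝ) ^ 2 * (1 - (2 * d + 2) / (q : ℝ)) ≤ d * ((Nt s).card : ℝ) := by
    intro s hs
    have hs' := (Finset.mem_filter.1 hs).2
    have h3 := lin_count (m := 2) (fun i => (G i).map (MvPolynomial.eval₂Hom ρ s)) d hd
      (fun i => natDegree_map_le.trans (hG i)) (hbase s hs') id (hli s hs')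
    rw [Set.ncard_eq_toFinset_card', Set.toFinset_ofPred] at h3
    exact h3
  set S : Set (Fin (r + 2) → κ) := {τ : Fin (r + 2) → κ | MvPolynomial.eval₂Hom ρ τ Δ ≠ 0 ∧
        ∀ x, (fmr ρ G τ).eval x ≠ 0} with hS
  have hinj : ∑ s ∈ GS, (Nt s).card ≤
      S.ncard + {τ : Fin (r + 2) → κ | MvPolynomial.eval₂Hom ρ τ Δ = 0}.ncard := by
    rw [← Finset.card_sigma]
    refine le_trans ?_ (Set.ncard_union_le _ _)
    rw [Set.ncard_eq_toFinset_card']
    refine Finset.card_le_card_of_injOn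
      (fun p => (Fin.cons (p.2 0) (Fin.cons (p.2 1) p.1) : Fin (r + 2) → κ)) ?_ ?_
    · rintro ⟨s, t⟩ hst
      have hst' := Finset.mem_sigma.1 (Finset.mem_coe.1 hst)
      have ht := (Finset.mem_filter.1 hst'.2).2
      rw [Finset.mem_coe, Set.mem_toFinset]
      have h3 : fmr ρ G (Fin.cons (t 0) (Fin.cons (t 1) s) : Fin (r + 2) → κ) =
          memb (fun i => (G i).map (MvPolynomial.eval₂Hom ρ s)) t := by
        rw [fmr]
        congr 1
        funext i
        fin_cases i <;> rfl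
      by_cases hτ : MvPolynomial.eval₂Hom ρ
          (Fin.cons (t 0) (Fin.cons (t 1) s) : Fin (r + 2) → κ) Δ = 0
      · exact Or.inr hτ
      · refine Or.inl ⟨hτ, ?_⟩
        change ∀ x, (fmr ρ G (Fin.cons (t 0) (Fin.cons (t 1) s) : Fin (r + 2) → κ)).eval x ≠ 0
        rw [h3]
        exact ht.2
    · rintro ⟨s, t⟩ _ ⟨s', t'⟩ _ h
      have h' : (Fin.cons (t 0) (Fin.cons (t 1) s) : Fin (r + 2) → κ) =
        Fin.cons (t' 0) (Fin.cons (t' 1) s') := h
      rw [Fin.cons_inj, Fin.cons_inj] at h'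
      obtain ⟨e0, e1, e2⟩ := h'
      subst e2
      have e3 : t = t' := by
        funext i
        fin_cases i
        · exact e0
        · exact e1
      subst e3
      rfl
  have h2r : ({τ : Fin (r + 2) → κ | MvPolynomial.eval₂Hom ρ τ Δ = 0}.ncard : ℝ) ≤
      B * (q : ℝ) ^ (r + 2) / q := by
    rw [le_div_iff₀ hqr]
    exact_mod_cast h2
  have hinjr : ∑ s ∈ GS, ((Nt s).card : ℝ) ≤ S.ncard + B * (q : ℝ) ^ (r + 2) / q := by
    have h3 : ∑ s ∈ GS, ((Nt s).card : ℝ) ≤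
      S.ncard + ({τ : Fin (r + 2) → κ | MvPolynomial.eval₂Hom ρ τ Δ = 0}.ncard : ℝ) := by
      exact_mod_cast hinj
    linarith
  have hsum : GS.card * ((q : ℝ) ^ 2 * (1 - (2 * d + 2) / (q : ℝ))) ≤
      d * ∑ s ∈ GS, ((Nt s).card : ℝ) := by
    rw [Finset.mul_sum, ← nsmul_eq_mul]
    exact Finset.card_nsmul_le_sum _ _ _ hNt
  have hqbig : (2 : ℝ) * (B1 + 2 * d + 2 + d * B) ≤ q := by exact_mod_cast hq
  have hB1 : (0 : ℝ) ≤ B1 := Nat.cast_nonneg _
  have hB : (0 : ℝ) ≤ B := Nat.cast_nonneg _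
  set V : ℝ := (q : ℝ) ^ (r + 2) with hV
  have hV0 : 0 < V := by positivity
  have e1 : 0 ≤ 1 - (2 * d + 2) / (q : ℝ) := by
    rw [sub_nonneg, div_le_one hqr]
    nlinarith
  have e2 : V * (1 - (B1 + 2 * d + 2) / q) ≤ GS.card * ((q : ℝ) ^ 2 * (1 - (2 * d + 2) / (q : ℝ))) := by
    have h3 : (q : ℝ) ^ r * (1 - B1 / q) * ((q : ℝ) ^ 2 * (1 - (2 * d + 2) / (q : ℝ))) ≤
        GS.card * ((q : ℝ) ^ 2 * (1 - (2 * d + 2) / (q : ℝ))) :=
      mul_le_mul_of_nonneg_right hGS (mul_nonneg (sq_nonneg _) e1)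
    have h4 : (q : ℝ) ^ r * (1 - B1 / q) * ((q : ℝ) ^ 2 * (1 - (2 * d + 2) / (q : ℝ))) =
        V * (1 - (B1 + 2 * d + 2) / q) + V * (B1 / q * ((2 * d + 2) / q)) := by
      rw [hV, pow_add]
      ring
    have h5 : 0 ≤ V * (B1 / q * ((2 * d + 2) / q)) := by positivity
    rw [h4] at h3
    linarith
  have e3 : V * (1 - (B1 + 2 * d + 2) / q) ≤ d * (S.ncard + B * V / q) :=
    e2.trans (hsum.trans (mul_le_mul_of_nonneg_left hinjr hd0.le))
  have h5 : V * ((B1 + 2 * d + 2 + d * B) / (q : ℝ)) ≤ V * (1 / 2) := by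
    apply mul_le_mul_of_nonneg_left _ hV0.le
    rw [div_le_iff₀ hqr]
    linarith
  have h6 : V * (1 - (B1 + 2 * d + 2) / (q : ℝ)) - d * (B * V / q) =
      V - V * ((B1 + 2 * d + 2 + d * B) / (q : ℝ)) := by
    field_simp
    ring
  have h7 : V / 2 ≤ d * (S.ncard : ℝ) := by
    have : V * (1 - (B1 + 2 * d + 2) / (q : ℝ)) - d * (B * V / q) ≤ d * (S.ncard : ℝ) := by
      linarith
    rw [h6] at this
    linarith
  have h8 : 1 / (2 * (d : ℝ)) * V = V / 2 / d := by
    field_simp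
  rw [h8, div_le_iff₀ hd0, mul_comm]
  exact h7

end count

end Pool.Agent.L0h9.SCF
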