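import Pool.Agent.L0h9.SCF.Res3
import Pool.Agent.L0h9.SCF.FamP
import Pool.Agent.L0h9.SCF.Ext3

/-!
# Families with an equivariant map from the roots to a finite set
-/

set_option autoImplicit false

namespace Pool.Agent.L0h9.SCF

open Polynomial

section hmg

variable {A : Type} [CommRing A]

/-- `u ^ deg H * H (Φ / u)` -/
noncomputable def hmg (H Φ : A[X]) (u : A) : A[X] :=
  ∑ i ∈ Finset.range (H.natDegree + 1), C (H.coeff i) * Φ ^ i * C u ^ (H.natDegree - i)

lemma hmg_eval₂ {B : Type} [Field B] (χ : A →+* B) (H Φ : A[X]) (u : A) (hu : χ u ≠ 0) (x : B) :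
    eval₂ χ x (hmg H Φ u) = χ u ^ H.natDegree * eval₂ χ (eval₂ χ x Φ / χ u) H := by
  rw [hmg, eval₂_finsetSum, eval₂_eq_sum_range, Finset.mul_sum]
  refine Finset.sum_congr rfl fun i hi => ?_
  rw [eval₂_mul, eval₂_mul, eval₂_pow, eval₂_pow, eval₂_C, eval₂_C]
  have h1 : χ u ^ H.natDegree = χ u ^ i * χ u ^ (H.natDegree - i) := by
    rw [← pow_add, Nat.add_sub_cancel' (by rw [Finset.mem_range] at hi; omega)]
  rw [h1, div_pow]
  field_simp

variable [IsDomain A] {K : Type} [Field K] [Algebra A K] [IsFractionRing A K]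

theorem clear_dvd (G H : A[X]) (φ : K[X])
    (hdiv : G.map (algebraMap A K) ∣ (H.map (algebraMap A K)).comp φ) :
    ∃ (u u' : A) (Φ W : A[X]), u ≠ 0 ∧ u' ≠ 0 ∧ C u' * hmg H Φ u = G * W := by
  have hinj : Function.Injective (algebraMap A K) := IsFractionRing.injective A K
  obtain ⟨u, Φ', hu, hΦ'⟩ := exists_denom (R := A) (fun _ : Unit => φ)
  have hΦ := hΦ' ()
  have huK : algebraMap A K u ≠ 0 := by rwa [Ne, map_eq_zero_iff _ hinj]
  obtain ⟨w, hw⟩ := hdiv
  obtain ⟨u2, W', hu2, hW'⟩ := exists_denom (R := A)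
    (fun _ : Unit => C (algebraMap A K u ^ H.natDegree) * w)
  refine ⟨u, u2, Φ' (), W' (), hu, hu2, ?_⟩
  apply Polynomial.map_injective _ hinj
  rw [Polynomial.map_mul, Polynomial.map_mul, map_C, hW' ()]
  have h1 : (hmg H (Φ' ()) u).map (algebraMap A K) =
      C (algebraMap A K u ^ H.natDegree) * (H.map (algebraMap A K)).comp φ := by
    rw [hmg, Polynomial.map_sum, comp, eval₂_map, eval₂_eq_sum_range, Finset.mul_sum]
    refine Finset.sum_congr rfl fun i hi => ?_
    rw [Polynomial.map_mul, Polynomial.map_mul, Polynomial.map_pow, Polynomial.map_pow, map_C,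
      map_C, hΦ, mul_pow, RingHom.comp_apply]
    have h2 : algebraMap A K u ^ H.natDegree =
        algebraMap A K u ^ i * algebraMap A K u ^ (H.natDegree - i) := by
      rw [← pow_add, Nat.add_sub_cancel' (by rw [Finset.mem_range] at hi; omega)]
    rw [h2, C_mul, C_pow, C_pow]
    ring
  rw [h1, hw]
  ring

end hmg

theorem root_of {A : Type} [CommRing A] {B : Type} [Field B] (χ : A →+* B) (G H Φ W : A[X])
    (u u' : A) (hu : χ u ≠ 0) (hu' : χ u' ≠ 0) (h : C u' * hmg H Φ u = G * W) (x : B)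
    (hx : eval₂ χ x G = 0) : eval₂ χ (eval₂ χ x Φ / χ u) H = 0 := by
  have h1 := congrArg (eval₂ χ x) h
  rw [eval₂_mul, eval₂_mul, eval₂_C, hx, zero_mul, hmg_eval₂ χ H Φ u hu] at h1
  exact (mul_eq_zero.1 ((mul_eq_zero.1 h1).resolve_left hu')).resolve_left (pow_ne_zero _ hu)

lemma frac_mv {R k : Type} [CommRing R] [IsDomain R] [Field k] [Algebra R k] [IsFractionRing R k]
    (r : ℕ) (K : Type) [Field K] [Algebra (MvPolynomial (Fin r) k) K]
    [IsFractionRing (MvPolynomial (Fin r) k) K] [Algebra (MvPolynomial (Fin r) R) K]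
    (h : ∀ p, algebraMap (MvPolynomial (Fin r) R) K p =
      algebraMap (MvPolynomial (Fin r) k) K (MvPolynomial.map (algebraMap R k) p)) :
    IsFractionRing (MvPolynomial (Fin r) R) K := by
  have hinj : Function.Injective (algebraMap (MvPolynomial (Fin r) R) K) := by
    intro p q hpq
    rw [h, h] at hpq
    exact MvPolynomial.map_injective _ (IsFractionRing.injective R k)
      (IsFractionRing.injective (MvPolynomial (Fin r) k) K hpq)
  have : FaithfulSMul (MvPolynomial (Fin r) R) K :=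
    (faithfulSMul_iff_algebraMap_injective _ _).2 hinj
  refine IsFractionRing.of_field _ _ fun z => ?_
  obtain ⟨p, q, hq, rfl⟩ := IsFractionRing.div_surjective (A := MvPolynomial (Fin r) k) z
  obtain ⟨D, P, hD, hP⟩ := mv_denom (R := R) p
  obtain ⟨E, Q, hE, hQ⟩ := mv_denom (R := R) q
  have hq0 : q ≠ 0 := nonZeroDivisors.ne_zero hq
  have hqK : algebraMap (MvPolynomial (Fin r) k) K q ≠ 0 := by
    rwa [Ne, map_eq_zero_iff _ (IsFractionRing.injective (MvPolynomial (Fin r) k) K)]
  have hCK : ∀ D : R, D ≠ 0 → algebraMap (MvPolynomial (Fin r) k) K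
      (MvPolynomial.C (algebraMap R k D)) ≠ 0 := by
    intro D hD
    rw [Ne, map_eq_zero_iff _ (IsFractionRing.injective (MvPolynomial (Fin r) k) K),
      MvPolynomial.C_eq_zero, map_eq_zero_iff _ (IsFractionRing.injective R k)]
    exact hD
  refine ⟨P * MvPolynomial.C E, Q * MvPolynomial.C D, ?_⟩
  simp only [h, map_mul, hP, hQ, MvPolynomial.map_C]
  have h1 := hCK D hD
  have h2 := hCK E hE
  field_simp

/-- `l` divides the degree -/
theorem noRt_dvd {κ : Type} [Field κ] [Finite κ] (l : ℕ) (p : κ[X]) (hp : p ≠ 0)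
    (h : NoRt κ l p) : l ∣ p.natDegree := by
  classical
  have h1 : ∀ s : Multiset κ[X], (∀ q ∈ s, q ≠ 0 ∧ l ∣ q.natDegree) → l ∣ s.prod.natDegree := by
    intro s
    induction s using Multiset.induction_on with
    | empty => intro _; simp
    | cons a s ih =>
      intro hs
      have ha := hs a (Multiset.mem_cons_self _ _)
      have hs' : ∀ q ∈ s, q ≠ 0 ∧ l ∣ q.natDegree := fun q hq => hs q (Multiset.mem_cons_of_mem hq)
      rw [Multiset.prod_cons, natDegree_mul ha.1]
      · exact dvd_add ha.2 (ih hs')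
      · rw [Ne, Multiset.prod_eq_zero_iff]
        intro h0
        exact (hs' 0 h0).1 rfl
  have h2 := UniqueFactorizationMonoid.factors_prod hp
  have h3 : (UniqueFactorizationMonoid.factors p).prod.natDegree = p.natDegree :=
    natDegree_eq_of_degree_eq (degree_eq_degree_of_associated h2)
  rw [← h3]
  refine h1 _ fun q hq => ?_
  have hirr := UniqueFactorizationMonoid.irreducible_of_factor q hq
  refine ⟨hirr.ne_zero, ?_⟩
  by_contra hl
  have := Fact.mk hirr
  have hfd : Module.Finite κ (AdjoinRoot q) := (AdjoinRoot.powerBasis hirr.ne_zero).finite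
  have hfin : Finite (AdjoinRoot q) := Module.finite_of_finite κ
  have hcard : Nat.card (AdjoinRoot q) = Nat.card κ ^ q.natDegree := by
    rw [Module.natCard_eq_pow_finrank (K := κ), (AdjoinRoot.powerBasis hirr.ne_zero).finrank,
      AdjoinRoot.powerBasis_dim]
  refine h (AdjoinRoot q) (AdjoinRoot.of q) q.natDegree hcard hl (AdjoinRoot.root q) ?_
  obtain ⟨s, hs⟩ := UniqueFactorizationMonoid.dvd_of_mem_factors hq
  rw [hs, eval₂_mul, AdjoinRoot.eval₂_root, zero_mul]

end Pool.Agent.L0h9.SCF
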