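import Pool.Agent.L0h9.SCF.Equ1

/-!
# The density theorem for families with an equivariant map from the roots to a finite set
-/

set_option autoImplicit false

namespace Pool.Agent.L0h9.SCF

open Polynomial WithZero IsDedekindDomain NumberField
open Pool.Agent.Y157.PS (FineP)

/-- the member of a vector of parameters `(a, t)` -/
noncomputable def mbE {R k : Type} [CommRing R] [Field k] [Algebra R k] {r : ℕ}
    (g : (MvPolynomial (Fin r) k)[X]) (c : Fin (r + 1) → R) : k[X] :=
  g.map (MvPolynomial.eval fun j => algebraMap R k (c j.succ))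

/-- all the assertions -/
def GoodF {R k : Type} [CommRing R] [Field k] [Algebra R k] (l d : ℕ) {r : ℕ}
    (g : (MvPolynomial (Fin r) k)[X]) (c : Fin (r + 1) → R) : Prop :=
  algebraMap R k (c 0) ≠ 0 ∧ (mbE g c).natDegree = d ∧ (mbE g c).Separable ∧ l ∣ d ∧
    FineE l (algebraMap R k (c 0)) (mbE g c)

theorem noRt_family {κ : Type} [Field κ] {R : Type} [CommRing R] (ρ : R →+* κ) {r : ℕ} (l : ℕ)
    (G : (MvPolynomial (Fin r) R)[X]) (H : R[X]) (Φ W : (MvPolynomial (Fin r) R)[X])
    (u u' : MvPolynomial (Fin r) R)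
    (h : C u' * hmg (H.map MvPolynomial.C) Φ u = G * W) (τ : Fin r → κ)
    (hu : MvPolynomial.eval₂Hom ρ τ u ≠ 0) (hu' : MvPolynomial.eval₂Hom ρ τ u' ≠ 0)
    (hH : NoRt κ l (H.map ρ)) : NoRt κ l (G.map (MvPolynomial.eval₂Hom ρ τ)) := by
  intro κ' _ _ i j hcard hj x hx
  rw [eval₂_map] at hx
  have h1 := root_of (i.comp (MvPolynomial.eval₂Hom ρ τ)) G (H.map MvPolynomial.C) Φ W u u'
    ((_root_.map_ne_zero i).2 hu) ((_root_.map_ne_zero i).2 hu') h x hx
  rw [eval₂_map] at h1
  have h2 : (i.comp (MvPolynomial.eval₂Hom ρ τ)).comp MvPolynomial.C = i.comp ρ := by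
    ext y
    simp
  rw [h2, ← eval₂_map] at h1
  exact hH κ' i j hcard hj _ h1

theorem equ_density {R k : Type} [CommRing R] [IsDomain R] [CharZero R] [Algebra.FiniteType ℤ R]
    [Field k] [Algebra R k] [IsFractionRing R k] (l : ℕ) (hl : l.Prime) (d r : ℕ) (hd : 3 ≤ d)
    (g : (MvPolynomial (Fin r) k)[X]) (hdeg : g.natDegree ≤ d)
    (hsep : ∃ s : Fin r → k, (g.map (MvPolynomial.eval s)).natDegree = d ∧
      (g.map (MvPolynomial.eval s)).Separable)
    (h : k[X]) (hhs : h.Separable) (σ : AlgebraicClosure k ≃ₐ[k] AlgebraicClosure k)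
    (hσ : ∀ θ : AlgebraicClosure k, aeval θ h = 0 → ∀ j : ℕ, (σ ^ j) θ = θ → l ∣ j)
    (φ : (FractionRing (MvPolynomial (Fin r) k))[X])
    (hdiv : g.map (algebraMap (MvPolynomial (Fin r) k) (FractionRing (MvPolynomial (Fin r) k))) ∣
      (h.map (algebraMap k (FractionRing (MvPolynomial (Fin r) k)))).comp φ)
    (ε : ℝ) (hε : 0 < ε) :
    ∃ I : Ideal R, Finite (R ⧸ I) ∧
      (Set.ncard ((fun (c : Fin (r + 1) → R) i => Ideal.Quotient.mk I (c i)) ''
        {c | ¬ GoodF l d g c}) : ℝ) ≤ ε * (Nat.card (R ⧸ I) : ℝ) ^ (r + 1) := by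
  classical
  have hcz : CharZero k := charZero_of_injective_algebraMap (IsFractionRing.injective R k)
  have hinj : Function.Injective (algebraMap R k) := IsFractionRing.injective R k
  have hinjM : Function.Injective (MvPolynomial.map (σ := Fin r) (algebraMap R k)) :=
    MvPolynomial.map_injective _ hinj
  set K := FractionRing (MvPolynomial (Fin r) k) with hK
  let _ : Algebra (MvPolynomial (Fin r) R) K :=
    ((algebraMap (MvPolynomial (Fin r) k) K).comp (MvPolynomial.map (algebraMap R k))).toAlgebra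
  have halgK : algebraMap (MvPolynomial (Fin r) R) K =
      (algebraMap (MvPolynomial (Fin r) k) K).comp (MvPolynomial.map (algebraMap R k)) := rfl
  have hfrac : IsFractionRing (MvPolynomial (Fin r) R) K := frac_mv (k := k) r K fun p => rfl
  obtain ⟨s0, hs0d, hs0s⟩ := hsep
  obtain ⟨D, G, hD, hG⟩ := mvpoly_denom (R := R) g
  have hDk : algebraMap R k D ≠ 0 := by rwa [Ne, map_eq_zero_iff _ hinj]
  have hdegG : G.natDegree ≤ d := by
    have hCD : MvPolynomial.C (σ := Fin r) (algebraMap R k D) ≠ 0 := by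
      rwa [Ne, MvPolynomial.C_eq_zero]
    rw [← natDegree_map_eq_of_injective hinjM, hG, natDegree_C_mul hCD]
    exact hdeg
  -- evaluation of `G`
  have hGev : ∀ s : Fin r → k, G.map (MvPolynomial.eval₂Hom (algebraMap R k) s) =
      C (algebraMap R k D) * g.map (MvPolynomial.eval s) := by
    intro s
    have h1 : MvPolynomial.eval₂Hom (algebraMap R k) s =
        (MvPolynomial.eval s).comp (MvPolynomial.map (algebraMap R k)) := by
      apply MvPolynomial.ringHom_ext
      · intro x
        simp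
      · intro x
        simp
    rw [h1, ← Polynomial.map_map, hG, Polynomial.map_mul, map_C, MvPolynomial.eval_C]
  -- the polynomial `h`
  obtain ⟨D1, H', hD1, hH'⟩ := exists_denom (R := R) (fun _ : Unit => h)
  set H : R[X] := H' () with hHdef
  have hHk : H.map (algebraMap R k) = C (algebraMap R k D1) * h := hH' ()
  have hD1k : algebraMap R k D1 ≠ 0 := by rwa [Ne, map_eq_zero_iff _ hinj]
  have hHs : (H.map (algebraMap R k)).Separable := by
    rw [hHk]
    exact Separable.unit_mul (isUnit_C.2 hD1k.isUnit) hhs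
  have hHσ : ∀ θ : AlgebraicClosure k, aeval θ (H.map (algebraMap R k)) = 0 →
      ∀ j : ℕ, (σ ^ j) θ = θ → l ∣ j := by
    intro θ hθ
    rw [hHk, map_mul, aeval_C] at hθ
    exact hσ θ ((mul_eq_zero.1 hθ).resolve_left ((_root_.map_ne_zero _).2 hD1k))
  obtain ⟨Q, hQs, hQσ, hQ⟩ := exists_resolvent (k := k) H hHs l hl σ hHσ
  have hH0 : H ≠ 0 := by
    rintro h0
    rw [h0, Polynomial.map_zero] at hHs
    exact hHs.ne_zero rfl
  -- the divisibility
  obtain ⟨u, u', Φ, W, hu, hu', hW⟩ := clear_dvd (K := K) G (H.map MvPolynomial.C) φ (by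
    have h1 : G.map (algebraMap (MvPolynomial (Fin r) R) K) =
        C (algebraMap (MvPolynomial (Fin r) k) K (MvPolynomial.C (algebraMap R k D))) *
          g.map (algebraMap (MvPolynomial (Fin r) k) K) := by
      rw [halgK, ← Polynomial.map_map, hG, Polynomial.map_mul, map_C]
    have h2 : (H.map MvPolynomial.C).map (algebraMap (MvPolynomial (Fin r) R) K) =
        C (algebraMap k K (algebraMap R k D1)) * h.map (algebraMap k K) := by
      have h3 : (algebraMap (MvPolynomial (Fin r) R) K).comp MvPolynomial.C =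
          (algebraMap k K).comp (algebraMap R k) := by
        ext y
        rw [halgK, RingHom.comp_apply, RingHom.comp_apply, MvPolynomial.map_C,
          RingHom.comp_apply, IsScalarTower.algebraMap_apply k (MvPolynomial (Fin r) k) K]
        rfl
      rw [Polynomial.map_map, h3, ← Polynomial.map_map, hHk, Polynomial.map_mul, map_C]
    have h4 : IsUnit (C (algebraMap (MvPolynomial (Fin r) k) K
        (MvPolynomial.C (algebraMap R k D)))) := by
      rw [isUnit_C, isUnit_iff_ne_zero, Ne,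
        map_eq_zero_iff _ (IsFractionRing.injective (MvPolynomial (Fin r) k) K),
        MvPolynomial.C_eq_zero]
      exact hDk
    rw [h1, h2, h4.mul_left_dvd, mul_comp]
    exact hdiv.mul_left _)
  -- the discriminant
  set Δ : MvPolynomial (Fin r) R := dsc d G with hΔ
  have hΔev : ∀ {A : Type} [CommRing A] (ρ : R →+* A) (τ : Fin r → A),
      MvPolynomial.eval₂Hom ρ τ Δ = dsc d (G.map (MvPolynomial.eval₂Hom ρ τ)) := by
    intro A _ ρ τ
    rw [hΔ, ← dsc_map]
  have hΔ0 : Δ ≠ 0 := by
    intro h0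
    have h1 := hΔev (algebraMap R k) s0
    rw [h0, map_zero, hGev] at h1
    have h2 : (C (algebraMap R k D) * g.map (MvPolynomial.eval s0)).natDegree = d := by
      rw [natDegree_C_mul hDk, hs0d]
    have h3 := dsc_ne (C (algebraMap R k D) * g.map (MvPolynomial.eval s0))
      (Separable.unit_mul (isUnit_C.2 hDk.isUnit) hs0s)
    rw [h2] at h3
    exact h3 h1.symm
  set Ψ := Δ * (u * u') with hΨ
  have hΨ0 : Ψ ≠ 0 := mul_ne_zero hΔ0 (mul_ne_zero hu hu')
  obtain ⟨e, he⟩ := MvPolynomial.ne_zero_iff.1 hΨ0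
  set B := Ψ.totalDegree with hB
  have hlR : ((l : ℕ) : R) ≠ 0 := Nat.cast_ne_zero.2 hl.ne_zero
  refine gen_root (k := k) r {D, H.leadingCoeff, Ψ.coeff e, (l : R)} ?_ Q hQs σ hQσ
    (2 * B + 1) (1 / 2) (by norm_num) (by norm_num)
    (fun κ _ ρ => {τ : Fin r → κ | MvPolynomial.eval₂Hom ρ τ Ψ ≠ 0}) ?_ (GoodF l d g) ?_ ε hε
  · intro v hv
    simp only [Finset.mem_insert, Finset.mem_singleton] at hv
    rcases hv with rfl | rfl | rfl | rfl
    · exact hD
    · exact leadingCoeff_ne_zero.2 hH0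
    · exact he
    · exact hlR
  · -- counting
    intro κ _ _ ρ hq hU hroot
    have hΨρ : MvPolynomial.map ρ Ψ ≠ 0 := by
      intro h0
      have h2 := congrArg (MvPolynomial.coeff e) h0
      rw [MvPolynomial.coeff_map, MvPolynomial.coeff_zero] at h2
      exact hU (Ψ.coeff e) (by simp) h2
    have hΨd : (MvPolynomial.map ρ Ψ).totalDegree ≤ B := by
      rw [hB, MvPolynomial.totalDegree, MvPolynomial.totalDegree]
      exact Finset.sup_mono (MvPolynomial.support_map_subset ρ Ψ)
    have h2 := zeros_card _ hΨρ B hΨd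
    have hev : ∀ τ : Fin r → κ, MvPolynomial.eval τ (MvPolynomial.map ρ Ψ) =
        MvPolynomial.eval₂Hom ρ τ Ψ := by
      intro τ
      rw [MvPolynomial.eval_map]
      rfl
    simp only [hev] at h2
    have h3 := Set.ncard_add_ncard_compl {τ : Fin r → κ | MvPolynomial.eval₂Hom ρ τ Ψ = 0}
      (Set.toFinite _) (Set.toFinite _)
    have h4 : ({τ : Fin r → κ | MvPolynomial.eval₂Hom ρ τ Ψ = 0})ᶜ =
        {τ : Fin r → κ | MvPolynomial.eval₂Hom ρ τ Ψ ≠ 0} := rfl
    rw [h4, Nat.card_fun, Nat.card_fin] at h3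
    set q := Nat.card κ with hq'
    have hq0 : 0 < q := Nat.card_pos
    have h2r : ((({τ : Fin r → κ | MvPolynomial.eval₂Hom ρ τ Ψ = 0}).ncard : ℕ) : ℝ) * q ≤
        B * (q : ℝ) ^ r := by exact_mod_cast h2
    have h3r : ((({τ : Fin r → κ | MvPolynomial.eval₂Hom ρ τ Ψ = 0}).ncard : ℕ) : ℝ) +
        ((({τ : Fin r → κ | MvPolynomial.eval₂Hom ρ τ Ψ ≠ 0}).ncard : ℕ) : ℝ) = (q : ℝ) ^ r := by
      exact_mod_cast h3
    have hqr : (0 : ℝ) < q := by exact_mod_cast hq0
    have hqB : 2 * (B : ℝ) + 1 ≤ q := by exact_mod_cast hq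
    have hV : (0 : ℝ) < (q : ℝ) ^ r := by positivity
    set V : ℝ := (q : ℝ) ^ r with hVdef
    set N0 : ℝ := ((({τ : Fin r → κ | MvPolynomial.eval₂Hom ρ τ Ψ = 0}).ncard : ℕ) : ℝ) with hN0
    have h5 : N0 * q ≤ V / 2 * q := by
      calc N0 * q ≤ B * V := h2r
        _ ≤ V / 2 * q := by nlinarith
    have h6 : N0 ≤ V / 2 := le_of_mul_le_mul_right h5 hqr
    linarith
  · -- the local theorem
    intro E _ V _ ψ ρ hint hρ hU hroot hq c hc0 hcS
    have hcS' : MvPolynomial.eval₂Hom ρ (fun i : Fin r => ρ (c i.succ)) Ψ ≠ 0 := hcS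
    rw [hΨ, map_mul, map_mul] at hcS'
    have hcS1 := left_ne_zero_of_mul hcS'
    have hcu := left_ne_zero_of_mul (right_ne_zero_of_mul hcS')
    have hcu' := right_ne_zero_of_mul (right_ne_zero_of_mul hcS')
    rw [hΔev] at hcS1
    set Fc : R[X] := G.map (MvPolynomial.eval₂Hom (RingHom.id R) fun i : Fin r => c i.succ) with hFc
    have hFcA : ∀ {A : Type} [CommRing A] (χ : R →+* A),
        Fc.map χ = G.map (MvPolynomial.eval₂Hom χ fun i : Fin r => χ (c i.succ)) := by
      intro A _ χ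
      rw [hFc, Polynomial.map_map]
      congr 1
      apply MvPolynomial.ringHom_ext
      · intro x
        simp
      · intro x
        simp
    rw [← hFcA] at hcS1
    have hFck : Fc.map (algebraMap R k) = C (algebraMap R k D) * mbE g c := by
      rw [hFcA, hGev]
      rfl
    have hFcd : Fc.natDegree ≤ d := natDegree_map_le.trans hdegG
    obtain ⟨hρd, hρs⟩ := of_dsc d (by omega) (Fc.map ρ) (natDegree_map_le.trans hFcd) hcS1
    have hFcd' : Fc.natDegree = d := by
      refine le_antisymm hFcd ?_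
      rw [← hρd]
      exact natDegree_map_le
    have hdscR : dsc d Fc ≠ 0 := by
      intro h0
      rw [dsc_map, h0, map_zero] at hcS1
      exact hcS1 rfl
    have hdsck : dsc d (Fc.map (algebraMap R k)) ≠ 0 := by
      rw [dsc_map, Ne, map_eq_zero_iff _ hinj]
      exact hdscR
    obtain ⟨hkd, hks⟩ := of_dsc d (by omega) (Fc.map (algebraMap R k))
      (natDegree_map_le.trans hFcd) hdsck
    rw [hFck] at hkd hks
    rw [natDegree_C_mul hDk] at hkd
    have hks' : (mbE g c).Separable := hks.of_mul_right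
    have hDv : V (ψ (algebraMap R k D)) = 1 := val_one_of V ψ ρ hint hρ D (hU D (by simp))
    have hlρ : ((l : ℕ) : IsLocalRing.ResidueField V.valuationSubring) ≠ 0 := by
      have := hU (l : R) (by simp)
      rwa [map_natCast] at this
    have hN : NoRt _ l (Fc.map ρ) := by
      rw [hFcA]
      exact noRt_family ρ l G H Φ W u u' hW _ hcu hcu'
        (hQ _ ρ (hU H.leadingCoeff (by simp)) hroot)
    have hld : l ∣ d := by
      rw [← hρd]
      exact noRt_dvd l _ hρs.ne_zero hN
    refine ⟨?_, hkd, hks', hld, ?_⟩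
    · intro h0
      rw [h0, map_zero, map_zero] at hc0
      exact exp_ne_zero hc0.symm
    · intro F _ _ _ hF
      have h1 := ext_rho hinj V ψ ρ hint hρ Fc (by rw [hρd, hFcd']) hρs l hN (by omega)
        (D * c 0) (by rw [map_mul, map_mul, map_mul, hDv, one_mul, hc0]) hl
        (by rwa [hFcd']) hlρ F hF
      rw [hFck, Polynomial.map_mul, map_C, map_mul, map_mul] at h1
      exact h1.scale ((_root_.map_ne_zero _).2 hDk)

end Pool.Agent.L0h9.SCF
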