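import Pool.Agent.L0h9.SCF.LocP

/-!
# The local theorem over finite extensions of degree prime to `l`
-/

set_option autoImplicit false

namespace Pool.Agent.L0h9.SCF

open Polynomial WithZero IsDedekindDomain
open Pool.Agent.Y157.PS (FineP S_FUN)

/-- `h` has no root in a finite extension of degree prime to `l` of the finite field `κ` -/
def NoRt (κ : Type) [Field κ] (l : ℕ) (h : κ[X]) : Prop :=
  ∀ (κ' : Type) [Field κ'] [Finite κ'] (i : κ →+* κ') (j : ℕ), Nat.card κ' = Nat.card κ ^ j →
    ¬ l ∣ j → ∀ x : κ', eval₂ i x h ≠ 0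

theorem close {S F : Type} [CommRing S] [IsDedekindDomain S] [Field F] [Algebra S F]
    [IsFractionRing S F] (w : HeightOneSpectrum S) (b : (w.valuation F).valuationSubring) :
    ∃ s : S, w.valuation F ((b : F) - algebraMap S F s) < 1 := by
  obtain ⟨s, hs⟩ := HeightOneSpectrum.exists_valuation_sub_lt_of_integer w (x := (b : F))
    ((Valuation.mem_valuationSubring_iff _ _).1 b.2) (γ := 1)
  refine ⟨s, ?_⟩
  rw [← Valuation.map_neg, neg_sub]
  simpa using hs

/-- the map from the ring to the residue field of the valuation -/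
def resMap {S F : Type} [CommRing S] [IsDedekindDomain S] [Field F] [Algebra S F]
    [IsFractionRing S F] (w : HeightOneSpectrum S) : S →+* (w.valuation F).valuationSubring where
  toFun s := ⟨algebraMap S F s, (Valuation.mem_valuationSubring_iff _ _).2 (w.valuation_le_one s)⟩
  map_one' := Subtype.ext (map_one _)
  map_mul' _ _ := Subtype.ext (map_mul _ _ _)
  map_zero' := Subtype.ext (map_zero _)
  map_add' _ _ := Subtype.ext (map_add _ _ _)

theorem mem_max {F : Type} [Field F] (V : Valuation F ℤᵐ⁰) (b : V.valuationSubring) :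
    b ∈ IsLocalRing.maximalIdeal V.valuationSubring ↔ V (b : F) < 1 := by
  have h1 := Valuation.Integers.isUnit_iff_valuation_eq_one
      (Valuation.valuationSubring.integers V) (x := b)
  rw [IsLocalRing.mem_maximalIdeal, mem_nonunits_iff, h1]
  constructor
  · intro h
    exact lt_of_le_of_ne ((Valuation.mem_valuationSubring_iff _ _).1 b.2) h
  · intro h
    exact h.ne

theorem res_surj {S F : Type} [CommRing S] [IsDedekindDomain S] [Field F] [Algebra S F]
    [IsFractionRing S F] (w : HeightOneSpectrum S) :
    Function.Surjective ((IsLocalRing.residue (w.valuation F).valuationSubring).comp (resMap w)) := by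
  intro y
  obtain ⟨b, rfl⟩ := IsLocalRing.residue_surjective y
  obtain ⟨s, hs⟩ := close w b
  refine ⟨s, ?_⟩
  symm
  rw [RingHom.comp_apply, ← sub_eq_zero, ← map_sub, IsLocalRing.residue_eq_zero_iff, mem_max]
  exact hs

theorem finite_res {S F : Type} [CommRing S] [IsDedekindDomain S] [Field F] [Algebra S F]
    [IsFractionRing S F] (w : HeightOneSpectrum S) (h : Finite (S ⧸ w.asIdeal)) :
    Finite (IsLocalRing.ResidueField (w.valuation F).valuationSubring) := by
  have h1 : ∀ s ∈ w.asIdeal,
      ((IsLocalRing.residue (w.valuation F).valuationSubring).comp (resMap w)) s = 0 := by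
    intro s hs
    rw [RingHom.comp_apply, IsLocalRing.residue_eq_zero_iff, mem_max]
    exact (w.valuation_lt_one_iff_mem s).2 hs
  have h2 := Ideal.Quotient.lift_surjective_of_surjective w.asIdeal h1 (res_surj w)
  exact Finite.of_surjective _ h2

theorem card_quot {A S : Type} [CommRing A] [CommRing S] [Algebra A S] (m : Ideal A) [m.IsMaximal]
    (P : Ideal S) [P.LiesOver m] [Module.Finite A S] :
    Nat.card (S ⧸ P) = Nat.card (A ⧸ m) ^ Ideal.inertiaDeg' m P := by
  rw [Ideal.inertiaDeg'_algebraMap]
  let _ : Field (A ⧸ m) := Ideal.Quotient.field m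
  exact Module.natCard_eq_pow_finrank (K := A ⧸ m) (V := S ⧸ P)

theorem ext_dvr (hFUN : S_FUN) {A k : Type} [CommRing A] [IsDomain A] [IsDiscreteValuationRing A]
    [Finite (IsLocalRing.ResidueField A)] [Field k] [CharZero k] [Algebra A k] [IsFractionRing A k]
    {l : ℕ} [Fact l.Prime] (hl : IsUnit (l : A)) (f : A[X]) (hlc : IsUnit f.leadingCoeff)
    (hs : (f.map (IsLocalRing.residue A)).Separable) (hdvd : l ∣ f.natDegree)
    (h3 : 3 ≤ f.natDegree)
    (hroot : NoRt (IsLocalRing.ResidueField A) l (f.map (IsLocalRing.residue A)))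
    (ϖ : A) (hϖ : Irreducible ϖ) (d : k) (m : ℤ) (hm : ¬ (l : ℤ) ∣ m)
    (t : A) (ht : IsUnit t) (hd : d = algebraMap A k t * algebraMap A k ϖ ^ m)
    (F : Type) [Field F] [Algebra k F] [FiniteDimensional k F] (hF : ¬ l ∣ Module.finrank k F) :
    FineP l (algebraMap k F d) ((f.map (algebraMap A k)).map (algebraMap k F)) := by
  classical
  have hl0 : l.Prime := Fact.out
  let _ : Algebra A F := ((algebraMap k F).comp (algebraMap A k)).toAlgebra
  have htow : IsScalarTower A k F := IsScalarTower.of_algebraMap_eq' rfl
  have hinjF : Function.Injective (algebraMap A F) :=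
    (algebraMap k F).injective.comp (IsFractionRing.injective A k)
  let S := integralClosure A F
  have hDed : IsDedekindDomain S := integralClosure.isDedekindDomain A k F
  have hfrac : IsFractionRing S F := integralClosure.isFractionRing_of_finite_extension k F
  have hfin : Module.Finite A S := IsIntegralClosure.finite A k F S
  have hinjS : Function.Injective (algebraMap A S) := by
    intro x y hxy
    apply hinjF
    rw [IsScalarTower.algebraMap_apply A S F, hxy, ← IsScalarTower.algebraMap_apply A S F]
  have htf : Module.IsTorsionFree A S := Module.isTorsionFree_iff_algebraMap_injective.2 hinjS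
  have hp0 : IsLocalRing.maximalIdeal A ≠ ⊥ := IsDiscreteValuationRing.not_a_field A
  let vA : HeightOneSpectrum A := ⟨IsLocalRing.maximalIdeal A, inferInstance, hp0⟩
  have hsum := Ideal.sum_ramification_inertia S k F (p := IsLocalRing.maximalIdeal A) hp0
  obtain ⟨P, hP, hPl⟩ : ∃ P ∈ IsDedekindDomain.primesOverFinset (IsLocalRing.maximalIdeal A) S,
      ¬ l ∣ Ideal.ramificationIdx' (IsLocalRing.maximalIdeal A) P *
        Ideal.inertiaDeg' (IsLocalRing.maximalIdeal A) P := by
    by_contra hcon
    push Not at hcon
    apply hF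
    rw [← hsum]
    exact Finset.dvd_sum hcon
  obtain ⟨hP1, hP2⟩ := (IsDedekindDomain.mem_primesOverFinset_iff hp0 (B := S)).1 hP
  have hP0 : P ≠ ⊥ := Ideal.ne_bot_of_liesOver_of_ne_bot hp0 P
  let w : HeightOneSpectrum S := ⟨P, hP1, hP0⟩
  have hw : w.asIdeal.LiesOver vA.asIdeal := hP2
  have hwm : P.IsMaximal := w.isMaximal
  have hme : ¬ l ∣ Ideal.ramificationIdx' (IsLocalRing.maximalIdeal A) P :=
    fun h => hPl (Dvd.dvd.mul_right h _)
  have hmf : ¬ l ∣ Ideal.inertiaDeg' (IsLocalRing.maximalIdeal A) P :=
    fun h => hPl (Dvd.dvd.mul_left h _)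
  have hcF : CharZero F := charZero_of_injective_algebraMap (algebraMap k F).injective
  have hmem : ∀ a : A, algebraMap A S a ∈ P ↔ a ∈ IsLocalRing.maximalIdeal A := by
    intro a
    rw [hP2.over]
    rfl
  let _ : Field (S ⧸ P) := Ideal.Quotient.field P
  have hfinA : Finite (A ⧸ IsLocalRing.maximalIdeal A) := ‹Finite (IsLocalRing.ResidueField A)›
  have hfinq : Finite (S ⧸ w.asIdeal) := by
    change Finite (S ⧸ P)
    exact Module.finite_of_finite (A ⧸ IsLocalRing.maximalIdeal A)
  have hfinres := finite_res (F := F) w hfinq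
  let j : A →+* (w.valuation F).valuationSubring := (resMap w).comp (algebraMap A S)
  have hjF : ∀ x, ((j x : (w.valuation F).valuationSubring) : F) = algebraMap A F x := fun x => rfl
  have hjinj : Function.Injective j := by
    intro x y hxy
    apply hinjF
    rw [← hjF, hxy, hjF]
  have hjres : ∀ s : S, IsLocalRing.residue (w.valuation F).valuationSubring (resMap w s) = 0 ↔
      s ∈ P := by
    intro s
    rw [IsLocalRing.residue_eq_zero_iff, mem_max]
    exact w.valuation_lt_one_iff_mem s
  let θ : IsLocalRing.ResidueField A →+*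
      IsLocalRing.ResidueField (w.valuation F).valuationSubring :=
    Ideal.Quotient.lift (IsLocalRing.maximalIdeal A)
      ((IsLocalRing.residue (w.valuation F).valuationSubring).comp j) (fun a ha => by
        rw [RingHom.comp_apply]
        exact (hjres _).2 ((hmem a).2 ha))
  have hθ : θ.comp (IsLocalRing.residue A) =
      (IsLocalRing.residue (w.valuation F).valuationSubring).comp j := by
    ext a
    rfl
  let iA : IsLocalRing.ResidueField A →+* S ⧸ P :=
    algebraMap (A ⧸ IsLocalRing.maximalIdeal A) (S ⧸ P)
  have hiA : iA.comp (IsLocalRing.residue A) = (Ideal.Quotient.mk P).comp (algebraMap A S) := by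
    ext a
    rfl
  have hdeg : ((f.map (algebraMap A k)).map (algebraMap k F)).natDegree = f.natDegree := by
    rw [Polynomial.map_map]
    exact natDegree_map_eq_of_injective hinjF f
  refine Pool.Agent.Y141.PS.fineP_of_val hFUN (w.valuation F) (RingHom.id F) ?_ _ (f.map j) ?_ ?_ ?_
    (by rwa [hdeg]) (by rwa [hdeg]) ?_ _
    (-m * (Ideal.ramificationIdx' (IsLocalRing.maximalIdeal A) P : ℤ)) ?_ ?_
  · have h1 : (l : F) = algebraMap S F (l : S) := (map_natCast (algebraMap S F) l).symm
    rw [h1]
    refine (HeightOneSpectrum.valuation_eq_one_iff_notMem w).2 ?_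
    intro h2
    have h3 : IsUnit (l : S) := by
      have := hl.map (algebraMap A S)
      rwa [map_natCast] at this
    exact hP1.ne_top (Ideal.eq_top_of_isUnit_mem _ h2 h3)
  · rw [Polynomial.map_map, Polynomial.map_map, Polynomial.map_map]
    rfl
  · rw [leadingCoeff_map_of_injective hjinj]
    exact hlc.map j
  · rw [Polynomial.map_map, ← hθ, ← Polynomial.map_map]
    exact hs.map
  · intro b hb
    obtain ⟨s, hs'⟩ := close w b
    have h1 : IsLocalRing.residue (w.valuation F).valuationSubring b =
        IsLocalRing.residue (w.valuation F).valuationSubring (resMap w s) := by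
      rw [← sub_eq_zero, ← map_sub, IsLocalRing.residue_eq_zero_iff, mem_max]
      exact hs'
    have h2 : IsLocalRing.residue (w.valuation F).valuationSubring (resMap w (aeval s f)) = 0 := by
      rw [← (IsLocalRing.residue_eq_zero_iff _).2 hb]
      have h3 : ∀ c : (w.valuation F).valuationSubring,
          IsLocalRing.residue (w.valuation F).valuationSubring ((f.map j).eval c) =
          (f.map ((IsLocalRing.residue (w.valuation F).valuationSubring).comp j)).eval
            (IsLocalRing.residue (w.valuation F).valuationSubring c) := by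
        intro c
        rw [eval_map, eval_map, Polynomial.hom_eval₂]
      have h4 : resMap w (aeval s f) = (f.map j).eval (resMap w s) := by
        rw [aeval_def, Polynomial.hom_eval₂, eval_map]
      rw [h4, h3, h3, h1]
    rw [hjres] at h2
    have hfinq' : Finite (S ⧸ P) := hfinq
    refine hroot (S ⧸ P) iA _ (card_quot (IsLocalRing.maximalIdeal A) P) hmf
      (Ideal.Quotient.mk P s) ?_
    rw [eval₂_map, hiA]
    have h6 := Ideal.Quotient.eq_zero_iff_mem.2 h2
    rw [aeval_def, Polynomial.hom_eval₂] at h6
    exact h6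
  · intro h1
    rcases (Nat.prime_iff_prime_int.1 hl0).dvd_or_dvd h1 with h2 | h2
    · exact hm (by simpa using h2)
    · exact hme (by exact_mod_cast h2)
  · have h1 := HeightOneSpectrum.valuation_liesOver F vA w d
    rw [RingHom.id_apply, ← h1]
    have h2 : vA.valuation k d = exp (-m) := by
      have h3 : vA.valuation k (algebraMap A k t) = 1 := by
        refine (HeightOneSpectrum.valuation_eq_one_iff_notMem vA).2 ?_
        intro h4
        exact (IsLocalRing.mem_maximalIdeal _).1 h4 ht
      have h4 : vA.valuation k (algebraMap A k ϖ) = exp (-1) := by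
        rw [HeightOneSpectrum.valuation_of_algebraMap]
        exact HeightOneSpectrum.intValuation_singleton vA hϖ.ne_zero hϖ.maximalIdeal_eq
      rw [hd, map_mul, h3, one_mul, map_zpow₀, h4, ← exp_zsmul]
      simp
    rw [h2, ← exp_nsmul, exp_inj, nsmul_eq_mul, mul_comm]

end Pool.Agent.L0h9.SCF
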