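import Pool.Agent.L0h9.SCF.Ext1

/-!
# Rootless over all extensions of degree prime to `l`: descent, and irreducible polynomials
-/

set_option autoImplicit false

namespace Pool.Agent.L0h9.SCF

open Polynomial WithZero IsDedekindDomain
open Pool.Agent.Y157.PS (FineP S_FUN)

theorem X_pow_dvd {κ : Type} [Field κ] (A r : ℕ) :
    (X ^ A - X : κ[X]) ∣ X ^ (A ^ r) - X := by
  induction r with
  | zero => simp
  | succ r ih =>
    have h1 : (X ^ (A ^ (r + 1)) - X : κ[X]) = ((X ^ (A ^ r)) ^ A - X ^ A) + (X ^ A - X) := by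
      rw [← pow_mul, ← pow_succ]
      ring
    rw [h1]
    exact dvd_add (ih.trans (sub_dvd_pow_sub_pow _ _ _)) (dvd_refl _)

theorem noRt_descend {κ₀ κ : Type} [Field κ₀] [Finite κ₀] [Field κ] [Finite κ] (θ : κ₀ →+* κ)
    (l : ℕ) (h : κ₀[X]) (hN : NoRt κ l (h.map θ)) : NoRt κ₀ l h := by
  classical
  intro κ' _ _ i j hcard hj x hx
  have hj0 : j ≠ 0 := by
    rintro rfl
    exact hj (dvd_zero l)
  have : NeZero j := ⟨hj0⟩
  obtain ⟨p, hp⟩ := CharP.exists κ
  have hpp : Fact p.Prime := ⟨CharP.char_is_prime κ p⟩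
  let _ : Algebra κ₀ κ' := i.toAlgebra
  let _ : Algebra κ₀ κ := θ.toAlgebra
  have hint : IsIntegral κ₀ x := Algebra.IsIntegral.isIntegral x
  have hq : x ^ (Nat.card κ₀ ^ j) = x := by
    rw [← hcard]
    have := Fintype.ofFinite κ'
    rw [Nat.card_eq_fintype_card]
    exact FiniteField.pow_card x
  have h1 : minpoly κ₀ x ∣ X ^ (Nat.card κ₀ ^ j) - X := by
    refine minpoly.dvd _ _ ?_
    rw [map_sub, map_pow, aeval_X, hq, sub_self]
  have h2 : minpoly κ₀ x ∣ h := minpoly.dvd _ _ hx
  have hr : Nat.card κ = Nat.card κ₀ ^ Module.finrank κ₀ κ := Module.natCard_eq_pow_finrank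
  have h3 : minpoly κ₀ x ∣ X ^ (Nat.card κ ^ j) - X := by
    rw [hr, ← pow_mul, mul_comm, pow_mul]
    exact h1.trans (X_pow_dvd _ _)
  have h4 : (minpoly κ₀ x).map θ ∣ X ^ (Nat.card κ ^ j) - X := by
    have := Polynomial.map_dvd θ h3
    simpa using this
  have hsp : ((X ^ (Nat.card κ ^ j) - X : κ[X]).map
      (algebraMap κ (FiniteField.Extension κ p j))).Splits :=
    IsSplittingField.splits (FiniteField.Extension κ p j) (X ^ (Nat.card κ ^ j) - X)
  have h5 : (((minpoly κ₀ x).map θ).map (algebraMap κ (FiniteField.Extension κ p j))).Splits := by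
    refine hsp.of_dvd ?_ (Polynomial.map_dvd _ h4)
    exact Polynomial.map_ne_zero
      (FiniteField.X_pow_card_pow_sub_X_ne_zero κ hj0 (Finite.one_lt_card : 1 < Nat.card κ))
  obtain ⟨y, hy⟩ := h5.exists_eval_eq_zero (by
    rw [degree_map, degree_map]
    exact (minpoly.degree_pos hint).ne')
  refine hN (FiniteField.Extension κ p j) (algebraMap κ _) j
    (FiniteField.natCard_extension κ p j) hj y ?_
  rw [← eval_map]
  exact (Polynomial.IsRoot.def.2 hy).dvd (Polynomial.map_dvd _ (Polynomial.map_dvd θ h2))

theorem irr_noRt {κ : Type} [Field κ] [Finite κ] (l : ℕ) (h : κ[X]) (hirr : Irreducible h)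
    (hl : l ∣ h.natDegree) : NoRt κ l h := by
  intro κ' _ _ i j hcard hj x hx
  apply hj
  let _ : Algebra κ κ' := i.toAlgebra
  have hint : IsIntegral κ x := Algebra.IsIntegral.isIntegral x
  have h1 : j = Module.finrank κ κ' := by
    have h2 : Nat.card κ' = Nat.card κ ^ Module.finrank κ κ' := Module.natCard_eq_pow_finrank
    rw [hcard] at h2
    exact Nat.pow_right_injective (Finite.one_lt_card : 1 < Nat.card κ) h2
  rw [h1]
  have h3 : (minpoly κ x).natDegree = h.natDegree := by
    rw [← minpoly.eq_of_irreducible hirr hx, natDegree_mul_C]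
    exact inv_ne_zero (leadingCoeff_ne_zero.2 hirr.ne_zero)
  rw [← h3] at hl
  exact hl.trans (minpoly.degree_dvd hint)

/-- the local theorem for an embedding of `k` into a discretely valued field, over all finite
extensions of `k` of degree prime to `l` -/
theorem ext_of_val (hFUN : S_FUN) {ℓ : ℕ} [Fact ℓ.Prime] {k E : Type} [Field k] [CharZero k]
    [Field E] (V : Valuation E ℤᵐ⁰) [Finite (IsLocalRing.ResidueField V.valuationSubring)]
    (ψ : k →+* E) (h2 : V (ℓ : E) = 1) (g : k[X]) (gB : V.valuationSubring[X])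
    (hg : gB.map (algebraMap V.valuationSubring E) = g.map ψ) (hlc : IsUnit gB.leadingCoeff)
    (hs : (gB.map (IsLocalRing.residue V.valuationSubring)).Separable) (hdvd : ℓ ∣ g.natDegree)
    (h3 : 3 ≤ g.natDegree)
    (hroot : NoRt (IsLocalRing.ResidueField V.valuationSubring) ℓ
      (gB.map (IsLocalRing.residue V.valuationSubring)))
    (a : k) (m : ℤ) (hm : ¬ (ℓ : ℤ) ∣ m) (ha : V (ψ a) = exp m)
    (F : Type) [Field F] [Algebra k F] [FiniteDimensional k F] (hF : ¬ ℓ ∣ Module.finrank k F) :
    FineP ℓ (algebraMap k F a) (g.map (algebraMap k F)) := by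
  classical
  obtain ⟨hdvr, ϖ, t, n, hϖ, ht, hn, hat⟩ :=
    Pool.Agent.Y141.PS.exists_unif_prime (V.comap ψ) a ℓ m hm ha
  let i : (V.comap ψ).valuationSubring →+* V.valuationSubring :=
    { toFun := fun y => ⟨ψ y, y.2⟩
      map_one' := Subtype.ext (map_one ψ)
      map_mul' := fun y z => Subtype.ext (map_mul ψ _ _)
      map_zero' := Subtype.ext (map_zero ψ)
      map_add' := fun y z => Subtype.ext (map_add ψ _ _) }
  have hcoe : ∀ y, ((i y : V.valuationSubring) : E) = ψ (y : k) := fun _ => rfl
  have hinj : Function.Injective i := by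
    intro y z hyz
    apply Subtype.ext
    apply ψ.injective
    have := congrArg Subtype.val hyz
    exact this
  have hloc : IsLocalHom i := by
    refine ⟨fun y hy => ?_⟩
    have h1 := (Valuation.Integers.isUnit_iff_valuation_eq_one
      (Valuation.valuationSubring.integers V)).1 hy
    exact (Valuation.Integers.isUnit_iff_valuation_eq_one
      (Valuation.valuationSubring.integers (V.comap ψ))).2 h1
  have hfin : Finite (IsLocalRing.ResidueField (V.comap ψ).valuationSubring) :=
    Finite.of_injective _ (IsLocalRing.ResidueField.map i).injective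
  obtain ⟨f, hf⟩ : ∃ f : (V.comap ψ).valuationSubring[X],
      f.map (algebraMap (V.comap ψ).valuationSubring k) = g := by
    have h1 : g ∈ Polynomial.lifts (algebraMap (V.comap ψ).valuationSubring k) := by
      rw [Polynomial.lifts_iff_coeff_lifts]
      intro j
      have h5 : ψ (g.coeff j) = (gB.coeff j : E) := by
        have := congrArg (fun q => q.coeff j) hg
        simp only [coeff_map] at this
        exact this.symm
      exact ⟨⟨g.coeff j, by
        change V (ψ (g.coeff j)) ≤ 1
        rw [h5]
        exact (gB.coeff j).2⟩, rfl⟩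
    obtain ⟨f, hf⟩ := (Polynomial.mem_lifts _).1 h1
    exact ⟨f, hf⟩
  have hfB : f.map i = gB := by
    apply Polynomial.map_injective (algebraMap V.valuationSubring E) Subtype.val_injective
    rw [hg, ← hf, Polynomial.map_map, Polynomial.map_map]
    rfl
  have hdeg : f.natDegree = g.natDegree := by
    rw [← hf]
    exact (natDegree_map_eq_of_injective Subtype.val_injective f).symm
  have hlcf : IsUnit f.leadingCoeff := by
    have h1 : i f.leadingCoeff = gB.leadingCoeff := by
      rw [← hfB]
      exact (leadingCoeff_map_of_injective hinj f).symm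
    rw [← h1] at hlc
    exact hloc.map_nonunit _ hlc
  have hcomp : (f.map (IsLocalRing.residue (V.comap ψ).valuationSubring)).map
      (IsLocalRing.ResidueField.map i) = gB.map (IsLocalRing.residue V.valuationSubring) := by
    rw [Polynomial.map_map, IsLocalRing.ResidueField.map_comp_residue, ← Polynomial.map_map, hfB]
  have hsf : (f.map (IsLocalRing.residue (V.comap ψ).valuationSubring)).Separable := by
    rw [← Polynomial.separable_map (IsLocalRing.ResidueField.map i), hcomp]
    exact hs
  have hrf : NoRt _ ℓ (f.map (IsLocalRing.residue (V.comap ψ).valuationSubring)) := by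
    refine noRt_descend (IsLocalRing.ResidueField.map i) ℓ _ ?_
    rw [hcomp]
    exact hroot
  have h2A : IsUnit (ℓ : (V.comap ψ).valuationSubring) := by
    refine (Valuation.Integers.isUnit_iff_valuation_eq_one
      (Valuation.valuationSubring.integers (V.comap ψ))).2 ?_
    change V (ψ (((ℓ : (V.comap ψ).valuationSubring)) : k)) = 1
    rw [← h2]
    congr 1
    rw [SubringClass.coe_natCast, map_natCast]
  have hak : a = algebraMap (V.comap ψ).valuationSubring k t *
      algebraMap (V.comap ψ).valuationSubring k ϖ ^ n := hat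
  have key := ext_dvr hFUN h2A f hlcf hsf (by rwa [hdeg]) (by rwa [hdeg]) hrf ϖ hϖ a n hn t ht hak
    F hF
  rwa [hf] at key

theorem ext_rho {k : Type} [Field k] [CharZero k] {R : Type} [CommRing R] [Algebra R k]
    (hinjk : Function.Injective (algebraMap R k)) {E : Type} [Field E] (V : Valuation E ℤᵐ⁰)
    [Finite (IsLocalRing.ResidueField V.valuationSubring)] (ψ : k →+* E)
    (ρ : R →+* IsLocalRing.ResidueField V.valuationSubring)
    (hint : ∀ r, V (ψ (algebraMap R k r)) ≤ 1)
    (hρ : ∀ (r : R) (h : V (ψ (algebraMap R k r)) ≤ 1),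
      ρ r = IsLocalRing.residue _ ⟨ψ (algebraMap R k r), h⟩)
    (G : R[X]) (hdeg : (G.map ρ).natDegree = G.natDegree) (hsep : (G.map ρ).Separable)
    (l : ℕ) (hroot : NoRt _ l (G.map ρ)) (h3 : 3 ≤ G.natDegree) (a : R)
    (ha : V (ψ (algebraMap R k a)) = exp (-1)) (hl : l.Prime) (hld : l ∣ G.natDegree)
    (hlρ : (l : IsLocalRing.ResidueField V.valuationSubring) ≠ 0)
    (F : Type) [Field F] [Algebra k F] [FiniteDimensional k F] (hF : ¬ l ∣ Module.finrank k F) :
    FineP l (algebraMap k F (algebraMap R k a)) ((G.map (algebraMap R k)).map (algebraMap k F)) := by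
  classical
  have : Fact l.Prime := ⟨hl⟩
  have hinj : Function.Injective (ψ.comp (algebraMap R k)) := ψ.injective.comp hinjk
  let j : R →+* V.valuationSubring :=
    { toFun := fun r => ⟨ψ (algebraMap R k r), hint r⟩
      map_one' := Subtype.ext (by
        change ψ (algebraMap R k 1) = 1
        rw [map_one, map_one])
      map_mul' := fun y z => Subtype.ext (by
        change ψ (algebraMap R k (y * z)) = ψ (algebraMap R k y) * ψ (algebraMap R k z)
        rw [map_mul, map_mul])
      map_zero' := Subtype.ext (by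
        change ψ (algebraMap R k 0) = 0
        rw [map_zero, map_zero])
      map_add' := fun y z => Subtype.ext (by
        change ψ (algebraMap R k (y + z)) = ψ (algebraMap R k y) + ψ (algebraMap R k z)
        rw [map_add, map_add]) }
  have hjinj : Function.Injective j := by
    intro x y hxy
    exact hinj (congrArg Subtype.val hxy)
  have hρj : ρ = (IsLocalRing.residue _).comp j := by
    ext r
    exact hρ r (hint r)
  have hG0 : G ≠ 0 := by
    rintro rfl
    simp at h3
  have hmap : G.map ρ = (G.map j).map (IsLocalRing.residue _) := by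
    rw [Polynomial.map_map, ← hρj]
  have hlcj : (G.map j).leadingCoeff = j G.leadingCoeff := leadingCoeff_map_of_injective hjinj G
  have hlcρ : ρ G.leadingCoeff ≠ 0 := by
    intro h0
    have h1 : (G.map ρ).coeff G.natDegree = 0 := by
      rw [coeff_map]
      exact h0
    rw [← hdeg, coeff_natDegree, leadingCoeff_eq_zero] at h1
    exact hsep.ne_zero h1
  have hdegk : (G.map (algebraMap R k)).natDegree = G.natDegree :=
    natDegree_map_eq_of_injective hinjk G
  have hℓ1 : ¬ (l : ℤ) ∣ (-1 : ℤ) := by
    intro h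
    have h5 := Int.natAbs_dvd_natAbs.2 h
    have h6 : l ∣ 1 := by simpa using h5
    exact hl.one_lt.ne' (Nat.dvd_one.1 h6)
  refine ext_of_val (Pool.Agent.Y674.PS.funct Pool.Agent.Y157.PS.a_inrt) V ψ ?_
    (G.map (algebraMap R k)) (G.map j) ?_ ?_ ?_ (by rwa [hdegk]) (by rwa [hdegk]) ?_ _ (-1)
    hℓ1 ha F hF
  · have h1 : IsUnit ((l : ℕ) : V.valuationSubring) := by
      by_contra h2
      apply hlρ
      have h3 : ((l : ℕ) : V.valuationSubring) ∈ IsLocalRing.maximalIdeal V.valuationSubring :=
        (IsLocalRing.mem_maximalIdeal _).2 h2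
      rw [← map_natCast (IsLocalRing.residue V.valuationSubring)]
      exact (IsLocalRing.residue_eq_zero_iff _).2 h3
    have h4 := (Valuation.Integers.isUnit_iff_valuation_eq_one
      (Valuation.valuationSubring.integers V)).1 h1
    rwa [map_natCast] at h4
  · rw [Polynomial.map_map, Polynomial.map_map]
    rfl
  · rw [hlcj]
    by_contra h5
    apply hlcρ
    rw [hρj]
    exact (IsLocalRing.residue_eq_zero_iff _).2 ((IsLocalRing.mem_maximalIdeal _).2 h5)
  · rw [← hmap]
    exact hsep
  · rw [← hmap]
    exact hroot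

end Pool.Agent.L0h9.SCF
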