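import Pool.Agent.L0h9.SCF.FamP

/-!
# The density theorem for polynomial families which are linear in two parameters, II
-/

set_option autoImplicit false

namespace Pool.Agent.L0h9.SCF

open Polynomial WithZero IsDedekindDomain NumberField
open Pool.Agent.Y157.PS (FineP)

theorem famP_density {R k : Type} [CommRing R] [IsDomain R] [CharZero R] [Algebra.FiniteType ℤ R]
    [Field k] [Algebra R k] [IsFractionRing R k] (d r : ℕ) (hd : 3 ≤ d)
    (g : Fin 3 → (MvPolynomial (Fin r) k)[X]) (hdeg : ∀ i, (g i).natDegree ≤ d)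
    (hsep : ∃ (s : Fin r → k) (t : Fin 2 → k), (fmem g s t).natDegree = d ∧
      (fmem g s t).Separable)
    (h : k[X]) (hhs : h.Separable)
    (hbase : ∃ σ : AlgebraicClosure k ≃ₐ[k] AlgebraicClosure k,
      ∀ θ : AlgebraicClosure k, aeval θ h = 0 → σ θ ≠ θ)
    (hspan : h.map (algebraMap k (FractionRing (MvPolynomial (Fin r) k))) ∈
      Ideal.span (Set.range fun i => (g i).map
        (algebraMap (MvPolynomial (Fin r) k) (FractionRing (MvPolynomial (Fin r) k)))))
    (hli : LinearIndependent (FractionRing (MvPolynomial (Fin r) k)) fun i => (g i).map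
        (algebraMap (MvPolynomial (Fin r) k) (FractionRing (MvPolynomial (Fin r) k))))
    (ε : ℝ) (hε : 0 < ε) :
    ∃ I : Ideal R, Finite (R ⧸ I) ∧
      (Set.ncard ((fun (c : Fin (r + 2 + 1) → R) i => Ideal.Quotient.mk I (c i)) ''
        {c | ¬ GoodP d g c}) : ℝ) ≤ ε * (Nat.card (R ⧸ I) : ℝ) ^ (r + 2 + 1) := by
  classical
  have hcz : CharZero k := charZero_of_injective_algebraMap (IsFractionRing.injective R k)
  have hinj : Function.Injective (algebraMap R k) := IsFractionRing.injective R k
  have hinjM : ∀ n, Function.Injective (MvPolynomial.map (σ := Fin n) (algebraMap R k)) :=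
    fun n => MvPolynomial.map_injective _ hinj
  set K := FractionRing (MvPolynomial (Fin r) k) with hK
  have hinjK : Function.Injective (algebraMap (MvPolynomial (Fin r) k) K) :=
    IsFractionRing.injective _ _
  obtain ⟨s0, t0, ht0d, ht0s⟩ := hsep
  obtain ⟨σ, hσ⟩ := hbase
  obtain ⟨D, G, hD, hG⟩ := mvpoly_denoms (R := R) g
  have hDk : algebraMap R k D ≠ 0 := by rwa [Ne, map_eq_zero_iff _ hinj]
  have hdegG : ∀ i, (G i).natDegree ≤ d := by
    intro i
    have hCD : MvPolynomial.C (σ := Fin r) (algebraMap R k D) ≠ 0 := by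
      rwa [Ne, MvPolynomial.C_eq_zero]
    rw [← natDegree_map_eq_of_injective (hinjM r), hG, natDegree_C_mul hCD]
    exact hdeg i
  -- evaluation of `G`
  have hGev : ∀ (s : Fin r → k) (i : Fin 3),
      (G i).map (MvPolynomial.eval₂Hom (algebraMap R k) s) =
        C (algebraMap R k D) * (g i).map (MvPolynomial.eval s) := by
    intro s i
    have h1 : MvPolynomial.eval₂Hom (algebraMap R k) s =
        (MvPolynomial.eval s).comp (MvPolynomial.map (algebraMap R k)) := by
      apply MvPolynomial.ringHom_ext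
      · intro x
        simp
      · intro x
        simp
    rw [h1, ← Polynomial.map_map, hG, Polynomial.map_mul, map_C, MvPolynomial.eval_C]
  have hmG : ∀ τ : Fin (r + 2) → k, fmr (algebraMap R k) G τ =
      C (algebraMap R k D) * fmem g (fun j => τ j.succ.succ) ![τ 0, τ 1] := by
    intro τ
    rw [fmr, fmem]
    simp only [memb, hGev, mul_add, Finset.mul_sum]
    congr 1
    refine Finset.sum_congr rfl fun i _ => ?_
    ring
  -- the separable member
  let τ0 : Fin (r + 2) → k := Fin.cons (t0 0) (Fin.cons (t0 1) s0)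
  have hτ0 : fmr (algebraMap R k) G τ0 = C (algebraMap R k D) * fmem g s0 t0 := by
    rw [hmG]
    congr 2
    funext i
    fin_cases i <;> rfl
  have hs0 : (fmr (algebraMap R k) G τ0).Separable := by
    rw [hτ0]
    exact Separable.unit_mul (isUnit_C.2 hDk.isUnit) ht0s
  -- the base locus
  obtain ⟨w, hw⟩ := (Ideal.mem_span_range_iff_exists_fun).1 hspan
  obtain ⟨u, w', hu, hw'⟩ := exists_denom (R := MvPolynomial (Fin r) k) (k := K) w
  have hsum1 : ∑ i, w' i * g i = C u * h.map MvPolynomial.C := by
    apply Polynomial.map_injective _ hinjK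
    rw [Polynomial.map_sum, Polynomial.map_mul, map_C, Polynomial.map_map]
    have h1 : (algebraMap (MvPolynomial (Fin r) k) K).comp MvPolynomial.C = algebraMap k K := by
      rw [IsScalarTower.algebraMap_eq k (MvPolynomial (Fin r) k) K]
      rfl
    rw [h1, ← hw, Finset.mul_sum]
    refine Finset.sum_congr rfl fun i _ => ?_
    rw [Polynomial.map_mul, hw', mul_assoc]
  obtain ⟨D2, W, hD2, hW⟩ := mvpoly_denoms (R := R) w'
  obtain ⟨D3, U, hD3, hU3⟩ := mv_denom (R := R) u
  obtain ⟨D1, H', hD1, hH'⟩ := exists_denom (R := R) (fun _ : Unit => h)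
  set H : R[X] := H' () with hHdef
  have hHk : H.map (algebraMap R k) = C (algebraMap R k D1) * h := hH' ()
  have hD1k : algebraMap R k D1 ≠ 0 := by rwa [Ne, map_eq_zero_iff _ hinj]
  have hHs : (H.map (algebraMap R k)).Separable := by
    rw [hHk]
    exact Separable.unit_mul (isUnit_C.2 hD1k.isUnit) hhs
  have hHσ : ∀ θ : AlgebraicClosure k, aeval θ (H.map (algebraMap R k)) = 0 → σ θ ≠ θ := by
    intro θ hθ
    rw [hHk, map_mul, aeval_C] at hθ
    exact hσ θ ((mul_eq_zero.1 hθ).resolve_left ((_root_.map_ne_zero _).2 hD1k))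
  have hU0 : U ≠ 0 := by
    rintro rfl
    rw [map_zero] at hU3
    have h1 : MvPolynomial.C (σ := Fin r) (algebraMap R k D3) ≠ 0 := by
      rwa [Ne, MvPolynomial.C_eq_zero, map_eq_zero_iff _ hinj]
    exact mul_ne_zero h1 hu hU3.symm
  have hsum2 : C (MvPolynomial.C (D1 * D3)) * ∑ i, W i * G i =
      C (MvPolynomial.C (D * D2) * U) * H.map MvPolynomial.C := by
    apply Polynomial.map_injective _ (hinjM r)
    rw [Polynomial.map_mul, Polynomial.map_mul, map_C, map_C, Polynomial.map_sum,
      Polynomial.map_map]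
    have h1 : (MvPolynomial.map (algebraMap R k)).comp (MvPolynomial.C (σ := Fin r)) =
        MvPolynomial.C.comp (algebraMap R k) := by
      ext x
      simp
    rw [h1, ← Polynomial.map_map, hHk, Polynomial.map_mul, map_C]
    have h2 : ∑ i, (W i * G i).map (MvPolynomial.map (algebraMap R k)) =
        C (MvPolynomial.C (algebraMap R k (D * D2))) * ∑ i, w' i * g i := by
      rw [Finset.mul_sum]
      refine Finset.sum_congr rfl fun i _ => ?_
      rw [Polynomial.map_mul, hW, hG, map_mul, map_mul, C_mul]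
      ring
    rw [h2, hsum1]
    simp only [map_mul, hU3, MvPolynomial.map_C]
    ring
  -- linear independence
  set K' := FractionRing (MvPolynomial (Fin r) R) with hK'
  have hinjK' : Function.Injective (algebraMap (MvPolynomial (Fin r) R) K') :=
    IsFractionRing.injective _ _
  have hliK : LinearIndependent K' fun a =>
      (G a).map (algebraMap (MvPolynomial (Fin r) R) K') := by
    rw [← LinearIndependent.iff_fractionRing (R := MvPolynomial (Fin r) R) (K := K'),
      Fintype.linearIndependent_iff]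
    intro lam hlam a
    have h1 : ∑ a, C (lam a) * G a = 0 := by
      apply Polynomial.map_injective _ hinjK'
      rw [Polynomial.map_sum, Polynomial.map_zero, ← hlam]
      refine Finset.sum_congr rfl fun a _ => ?_
      rw [Polynomial.map_mul, map_C, ← algebraMap_smul K' (lam a), smul_eq_C_mul]
    have h2 := congrArg (fun p => (p.map (MvPolynomial.map (algebraMap R k))).map
      (algebraMap (MvPolynomial (Fin r) k) K)) h1
    simp only [Polynomial.map_sum, Polynomial.map_mul, map_C, hG, Polynomial.map_zero] at h2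
    have h3 : ∑ a, (algebraMap (MvPolynomial (Fin r) k) K
        (MvPolynomial.map (algebraMap R k) (lam a)) *
        algebraMap (MvPolynomial (Fin r) k) K (MvPolynomial.C (algebraMap R k D))) •
        (g a).map (algebraMap (MvPolynomial (Fin r) k) K) = 0 := by
      rw [← h2]
      refine Finset.sum_congr rfl fun a _ => ?_
      rw [smul_eq_C_mul, C_mul, mul_assoc]
    have h4 := (Fintype.linearIndependent_iff.1 hli) _ h3 a
    have h5 : algebraMap (MvPolynomial (Fin r) k) K (MvPolynomial.C (algebraMap R k D)) ≠ 0 := by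
      rw [Ne, map_eq_zero_iff _ hinjK, MvPolynomial.C_eq_zero]
      exact hDk
    have h6 := (mul_eq_zero.1 h4).resolve_right h5
    rw [map_eq_zero_iff _ hinjK, map_eq_zero_iff _ (hinjM r)] at h6
    exact h6
  obtain ⟨u1, hu1, hind⟩ := indep_reduce (R := MvPolynomial (Fin r) R) (k := K') G hliK
  -- the discriminant
  set Δ : MvPolynomial (Fin (r + 2)) R := dsc d (funiv G) with hΔ
  have hΔev : ∀ {A : Type} [CommRing A] (φ : R →+* A) (τ : Fin (r + 2) → A),
      MvPolynomial.eval₂Hom φ τ Δ = dsc d (fmr φ G τ) := by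
    intro A _ φ τ
    rw [hΔ, ← dsc_map, funiv_ev]
  have hΔ0 : Δ ≠ 0 := by
    intro h0
    have h1 := hΔev (algebraMap R k) τ0
    rw [h0, map_zero] at h1
    have h2 : (fmr (algebraMap R k) G τ0).natDegree = d := by
      rw [hτ0, natDegree_C_mul hDk, ht0d]
    have h3 := dsc_ne _ hs0
    rw [h2] at h3
    exact h3 h1.symm
  obtain ⟨e, he⟩ := MvPolynomial.ne_zero_iff.1 hΔ0
  have huU : u1 * U ≠ 0 := mul_ne_zero hu1 hU0
  obtain ⟨e', he'⟩ := MvPolynomial.ne_zero_iff.1 huU
  set B := Δ.totalDegree with hB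
  set B1 := (u1 * U).totalDegree with hB1
  have hdR : ((d : ℕ) : R) ≠ 0 := Nat.cast_ne_zero.2 (by omega)
  have hd0 : (0 : ℝ) < d := by
    have : 0 < d := by omega
    exact_mod_cast this
  refine gen_root (k := k) (r + 2)
    {D, D1, D2, D3, (u1 * U).coeff e', Δ.coeff e, (d : R)} ?_ H hHs σ hHσ
    (2 * (B1 + 2 * d + 2 + d * B)) (1 / (2 * d)) (by positivity) ?_
    (fun κ _ ρ => {τ : Fin (r + 2) → κ | MvPolynomial.eval₂Hom ρ τ Δ ≠ 0 ∧
      ∀ x, (fmr ρ G τ).eval x ≠ 0}) ?_ (GoodP d g) ?_ ε hε
  · intro v hv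
    simp only [Finset.mem_insert, Finset.mem_singleton] at hv
    rcases hv with rfl | rfl | rfl | rfl | rfl | rfl | rfl
    · exact hD
    · exact hD1
    · exact hD2
    · exact hD3
    · exact he'
    · exact he
    · exact hdR
  · rw [div_le_one (by positivity)]
    have : (3 : ℝ) ≤ d := by exact_mod_cast hd
    linarith
  · -- counting
    intro κ _ _ ρ hq hU hroot
    refine famP_count ρ d (by omega) G hdegG (u1 * U) B1 ?_ le_rfl ?_ ?_ Δ B ?_ le_rfl hq
    · intro h0
      have h2 := congrArg (MvPolynomial.coeff e') h0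
      rw [MvPolynomial.coeff_map, MvPolynomial.coeff_zero] at h2
      exact hU ((u1 * U).coeff e') (by simp) h2
    · intro s hs
      rw [map_mul] at hs
      exact hind κ (MvPolynomial.eval₂Hom ρ s) (left_ne_zero_of_mul hs)
    · intro s hs x
      rw [map_mul] at hs
      by_contra hx
      push Not at hx
      have h1 := congrArg (fun p => (p.map (MvPolynomial.eval₂Hom ρ s)).eval x) hsum2
      simp only [Polynomial.map_mul, map_C, Polynomial.map_sum, eval_mul, eval_C, eval_finsetSum,
        hx, mul_zero, Finset.sum_const_zero, Polynomial.map_map] at h1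
      have h2 : (MvPolynomial.eval₂Hom ρ s).comp MvPolynomial.C = ρ := by
        ext y
        simp
      rw [h2, map_mul] at h1
      have h3 : MvPolynomial.eval₂Hom ρ s (MvPolynomial.C (D * D2)) ≠ 0 := by
        rw [MvPolynomial.coe_eval₂Hom, MvPolynomial.eval₂_C, map_mul]
        exact mul_ne_zero (hU D (by simp)) (hU D2 (by simp))
      exact mul_ne_zero (mul_ne_zero h3 (right_ne_zero_of_mul hs)) (hroot x) h1.symm
    · intro h0
      have h2 := congrArg (MvPolynomial.coeff e) h0
      rw [MvPolynomial.coeff_map, MvPolynomial.coeff_zero] at h2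
      exact hU (Δ.coeff e) (by simp) h2
  · -- the local theorem
    intro E _ V _ ψ ρ hint hρ hU hroot hq c hc0 hcS
    have hcS1 : MvPolynomial.eval₂Hom ρ (fun i : Fin (r + 2) => ρ (c i.succ)) Δ ≠ 0 := hcS.1
    have hcS2 : ∀ x, (fmr ρ G fun i : Fin (r + 2) => ρ (c i.succ)).eval x ≠ 0 := hcS.2
    rw [hΔev] at hcS1
    set Fc : R[X] := fmr (RingHom.id R) G fun i : Fin (r + 2) => c i.succ with hFc
    have hFcρ : Fc.map ρ = fmr ρ G fun i : Fin (r + 2) => ρ (c i.succ) := by
      rw [hFc, fmr_map, RingHom.comp_id]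
    rw [← hFcρ] at hcS1 hcS2
    have hFck : Fc.map (algebraMap R k) = C (algebraMap R k D) * mbP g c := by
      rw [hFc, fmr_map, RingHom.comp_id, hmG]
      rfl
    have hFcd : Fc.natDegree ≤ d := fmr_natDegree_le _ G hdegG _
    obtain ⟨hρd, hρs⟩ := of_dsc d (by omega) (Fc.map ρ) (natDegree_map_le.trans hFcd) hcS1
    have hFcd' : Fc.natDegree = d := by
      refine le_antisymm hFcd ?_
      rw [← hρd]
      exact natDegree_map_le
    have hdscR : dsc d Fc ≠ 0 := by
      intro h0
      rw [dsc_map, h0, map_zero] at hcS1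
      exact hcS1 rfl
    have hdsck : dsc d (Fc.map (algebraMap R k)) ≠ 0 := by
      rw [dsc_map, Ne, map_eq_zero_iff _ hinj]
      exact hdscR
    obtain ⟨hkd, hks⟩ := of_dsc d (by omega) (Fc.map (algebraMap R k))
      (natDegree_map_le.trans hFcd) hdsck
    rw [hFck] at hkd hks
    rw [natDegree_C_mul hDk] at hkd
    have hks' : (mbP g c).Separable := hks.of_mul_right
    have hDv : V (ψ (algebraMap R k D)) = 1 := val_one_of V ψ ρ hint hρ D (hU D (by simp))
    have hdρ : ((d : ℕ) : IsLocalRing.ResidueField V.valuationSubring) ≠ 0 := by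
      have := hU (d : R) (by simp)
      rwa [map_natCast] at this
    refine ⟨?_, hkd, hks', fun l hl hld => ?_⟩
    · intro h0
      rw [h0, map_zero, map_zero] at hc0
      exact exp_ne_zero hc0.symm
    · have hlρ : ((l : ℕ) : IsLocalRing.ResidueField V.valuationSubring) ≠ 0 := by
        intro h0
        obtain ⟨e, he⟩ := hld
        apply hdρ
        rw [he, Nat.cast_mul, h0, zero_mul]
      have h1 := fineP_rho hinj V ψ ρ hint hρ Fc (by rw [hρd, hFcd']) hρs hcS2 (by omega)
        (D * c 0) (by rw [map_mul, map_mul, map_mul, hDv, one_mul, hc0]) l hl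
        (by rwa [hFcd']) hlρ
      rw [hFck, map_mul] at h1
      exact h1.scale hDk

end Pool.Agent.L0h9.SCF
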