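import Pool.Agent.L0h9.SCF.Ext2
import Pool.Agent.L0h9.SCF.Alg
import Pool.Agent.L0h9.Gen.Dom

/-!
# The resolvent which detects factors of degree prime to `l`
-/

set_option autoImplicit false

namespace Pool.Agent.L0h9.SCF

open Polynomial

theorem card_dvd_of_perm {l : ℕ} (hl : l.Prime) {α : Type*} (T : Finset α) (π : α → α)
    (hinj : Function.Injective π) (hT : ∀ x ∈ T, π x ∈ T)
    (h : ∀ x ∈ T, ∀ j : ℕ, π^[j] x = x → l ∣ j) : l ∣ T.card := by
  classical
  have := Fact.mk hl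
  let f : T → T := fun x => ⟨π x, hT x x.2⟩
  have hf : Function.Injective f := fun x y hxy => Subtype.ext (hinj (congrArg Subtype.val hxy))
  let e : Equiv.Perm T := Equiv.ofBijective f (Finite.injective_iff_bijective.1 hf)
  have hit : ∀ (j : ℕ) (x : T), (((e ^ j) x : T) : α) = π^[j] x := by
    intro j
    induction j with
    | zero => intro x; rfl
    | succ j ih =>
      intro x
      rw [pow_succ, Equiv.Perm.mul_apply, ih, Function.iterate_succ_apply]
      rfl
  obtain ⟨a, m, hm, hN⟩ := Nat.exists_eq_pow_mul_and_not_dvd (orderOf_pos e).ne' l hl.ne_one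
  have h1 : (e ^ m) ^ l ^ a = 1 := by rw [← pow_mul, mul_comm, ← hN, pow_orderOf_eq_one]
  have h2 := Equiv.Perm.card_compl_support_modEq h1
  have h3 : (Equiv.Perm.support (e ^ m))ᶜ = ∅ := by
    rw [Finset.eq_empty_iff_forall_notMem]
    intro x hx
    rw [Finset.mem_compl, Equiv.Perm.notMem_support] at hx
    apply hm
    apply h x x.2
    rw [← hit, hx]
  rw [h3, Finset.card_empty, Fintype.card_coe] at h2
  exact (Nat.modEq_zero_iff_dvd).1 h2.symm

theorem exists_sub {α β : Type*} (Z : Finset α) (f : α → β) (s : Multiset β)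
    (h : s ≤ Z.val.map f) : ∃ T ⊆ Z, T.val.map f = s := by
  have h1 : s ∈ Multiset.powersetCard (Multiset.card s) (Z.val.map f) :=
    Multiset.mem_powersetCard.2 ⟨h, rfl⟩
  rw [Multiset.powersetCard_map, Multiset.mem_map] at h1
  obtain ⟨t, ht, rfl⟩ := h1
  rw [Multiset.mem_powersetCard] at ht
  exact ⟨⟨t, Multiset.nodup_of_le ht.1 Z.nodup⟩, Finset.val_le_iff.1 ht.1, rfl⟩

theorem prod_of_dvd {K : Type*} [Field K] {α : Type*} (Z : Finset α) (f : α → K) (p : K[X])
    (hp : p.Monic) (hd : p ∣ ∏ z ∈ Z, (X - C (f z))) : ∃ T ⊆ Z, p = ∏ z ∈ T, (X - C (f z)) := by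
  have h0 : (∏ z ∈ Z, (X - C (f z))) ≠ 0 := (monic_prod_X_sub_C f Z).ne_zero
  have hsp : (∏ z ∈ Z, (X - C (f z))).Splits := Splits.prod fun z _ => Splits.X_sub_C _
  have hps : p.Splits := hsp.of_dvd h0 hd
  have hprod : ∀ W : Finset α, ∏ z ∈ W, (X - C (f z)) =
      ((W.val.map f).map fun a => X - C a).prod := by
    intro W
    rw [Multiset.map_map]
    rfl
  have h1 : p.roots ≤ Z.val.map f := by
    have h2 := roots.le_of_dvd h0 hd
    rwa [hprod, roots_multiset_prod_X_sub_C] at h2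
  obtain ⟨T, hT, hTr⟩ := exists_sub Z f _ h1
  refine ⟨T, hT, ?_⟩
  rw [hprod, hTr]
  exact hps.eq_prod_roots_of_monic hp

/-- generic values separate finitely many subsets -/
theorem exists_sep {K : Type*} [Field K] [CharZero K] (Z : Finset K) :
    ∃ c : ℕ, ∀ T ⊆ Z, ∀ T' ⊆ Z, ∏ z ∈ T, ((c : K) - z) = ∏ z ∈ T', ((c : K) - z) → T = T' := by
  classical
  let P : Finset K → K[X] := fun T => ∏ z ∈ T, (X - C z)
  have hPinj : ∀ T T', P T = P T' → T = T' := by
    intro T T' h
    have h1 : (P T).roots = (P T').roots := by rw [h]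
    rw [roots_prod_X_sub_C, roots_prod_X_sub_C] at h1
    exact Finset.val_injective h1
  let Δ : K[X] := ∏ x ∈ (Z.powerset ×ˢ Z.powerset).filter (fun x => x.1 ≠ x.2), (P x.1 - P x.2)
  have hΔ : Δ ≠ 0 := by
    refine Finset.prod_ne_zero_iff.2 fun x hx => ?_
    rw [Finset.mem_filter] at hx
    rw [sub_ne_zero]
    exact fun h => hx.2 (hPinj _ _ h)
  obtain ⟨c, hc⟩ : ∃ c : ℕ, Δ.eval (c : K) ≠ 0 := by
    by_contra hcon
    push Not at hcon
    apply hΔ
    refine eq_zero_of_infinite_isRoot Δ ?_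
    refine (Set.infinite_range_of_injective (Nat.cast_injective (R := K))).mono ?_
    rintro _ ⟨c, rfl⟩
    exact hcon c
  refine ⟨c, fun T hT T' hT' h => ?_⟩
  by_contra hne
  apply hc
  rw [eval_prod]
  refine Finset.prod_eq_zero (i := (T, T')) ?_ ?_
  · rw [Finset.mem_filter, Finset.mem_product, Finset.mem_powerset, Finset.mem_powerset]
    exact ⟨⟨hT, hT'⟩, hne⟩
  · rw [eval_sub, eval_prod, eval_prod, sub_eq_zero]
    simpa using h

end Pool.Agent.L0h9.SCF
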