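import Pool.Agent.L0h9.SCF.Res1

/-!
# The resolvent which detects factors of degree prime to `l`, II
-/

set_option autoImplicit false
set_option linter.unusedSectionVars false

namespace Pool.Agent.L0h9.SCF

open Polynomial

section

variable {Ω : Type} [Field Ω]

/-- the value of a subset -/
noncomputable def eta (c : ℕ) (T : Finset Ω) : Ω := ∏ z ∈ T, ((c : Ω) - z)

/-- the subsets of order prime to `l` -/
noncomputable def subs (l : ℕ) (Z : Finset Ω) : Finset (Finset Ω) := by
  classical
  exact Z.powerset.filter fun T => ¬ l ∣ T.card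

omit [Field Ω] in
lemma mem_subs (l : ℕ) (Z T : Finset Ω) : T ∈ subs l Z ↔ T ⊆ Z ∧ ¬ l ∣ T.card := by
  classical
  rw [subs, Finset.mem_filter, Finset.mem_powerset]

/-- the resolvent -/
noncomputable def rsv (l c : ℕ) (Z : Finset Ω) : Polynomial Ω := ∏ T ∈ subs l Z, (X - C (eta c T))

lemma eta_image [DecidableEq Ω] {k : Type} [Field k] [Algebra k Ω] (c : ℕ) (T : Finset Ω)
    (τ : Ω ≃ₐ[k] Ω) : eta c (T.image τ) = τ (eta c T) := by
  rw [eta, eta, map_prod, Finset.prod_image (fun x _ y _ h => τ.injective h)]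
  refine Finset.prod_congr rfl fun z _ => ?_
  rw [map_sub, map_natCast]

lemma rsv_map {k : Type} [Field k] [Algebra k Ω] (l c : ℕ) (Z : Finset Ω) (τ : Ω ≃ₐ[k] Ω)
    (hZ : ∀ (τ : Ω ≃ₐ[k] Ω), ∀ z ∈ Z, τ z ∈ Z) :
    (rsv l c Z).map (τ : Ω →+* Ω) = rsv l c Z := by
  classical
  rw [rsv, Polynomial.map_prod]
  refine Finset.prod_bij (fun T _ => T.image τ) ?_ ?_ ?_ ?_
  · intro T hT
    rw [mem_subs] at hT ⊢
    refine ⟨?_, ?_⟩
    · intro z hz
      obtain ⟨y, hy, rfl⟩ := Finset.mem_image.1 hz
      exact hZ τ y (hT.1 hy)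
    · rw [Finset.card_image_of_injective _ τ.injective]
      exact hT.2
  · intro T _ T' _ h
    exact Finset.image_injective τ.injective h
  · intro T hT
    rw [mem_subs] at hT
    refine ⟨T.image τ.symm, ?_, ?_⟩
    · rw [mem_subs]
      refine ⟨?_, ?_⟩
      · intro z hz
        obtain ⟨y, hy, rfl⟩ := Finset.mem_image.1 hz
        exact hZ τ.symm y (hT.1 hy)
      · rw [Finset.card_image_of_injective _ τ.symm.injective]
        exact hT.2
    · have h1 : (τ : Ω → Ω) ∘ τ.symm = id := funext fun x => τ.apply_symm_apply x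
      rw [Finset.image_image, h1, Finset.image_id]
  · intro T _
    rw [Polynomial.map_sub, map_X, map_C, eta_image]
    rfl

end

theorem rsv_descend {k : Type} [Field k] [CharZero k] (l c : ℕ) (Z : Finset (AlgebraicClosure k))
    (hZ : ∀ (τ : AlgebraicClosure k ≃ₐ[k] AlgebraicClosure k), ∀ z ∈ Z, τ z ∈ Z) :
    ∃ Q : k[X], Q.map (algebraMap k (AlgebraicClosure k)) = rsv l c Z := by
  have h1 : rsv l c Z ∈ Polynomial.lifts (algebraMap k (AlgebraicClosure k)) := by
    rw [Polynomial.lifts_iff_coeff_lifts]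
    intro n
    rw [InfiniteGalois.mem_range_algebraMap_iff_fixed]
    intro τ
    have h2 := congrArg (fun p => p.coeff n) (rsv_map l c Z τ hZ)
    simp only [coeff_map] at h2
    exact h2
  obtain ⟨Q, hQ⟩ := (Polynomial.mem_lifts _).1 h1
  exact ⟨Q, hQ⟩

/-- the roots of `H`, multiplied by the leading coefficient -/
noncomputable def zer {R : Type} [CommRing R] (k : Type) [Field k] [Algebra R k] (H : R[X]) :
    Finset (AlgebraicClosure k) := by
  classical
  exact ((H.scaleRoots H.leadingCoeff).map (algebraMap R (AlgebraicClosure k))).roots.toFinset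

section

variable {R : Type} [CommRing R] [IsDomain R] {k : Type} [Field k] [CharZero k] [Algebra R k]
  [IsFractionRing R k] (H : R[X])

lemma zer_spec (hH : (H.map (algebraMap R k)).Separable) :
    (H.scaleRoots H.leadingCoeff).map (algebraMap R (AlgebraicClosure k)) =
      C (algebraMap R (AlgebraicClosure k) H.leadingCoeff) *
        ∏ z ∈ zer k H, (X - C z) := by
  classical
  have hinj : Function.Injective (algebraMap R (AlgebraicClosure k)) := by
    rw [IsScalarTower.algebraMap_eq R k (AlgebraicClosure k)]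
    exact (algebraMap k (AlgebraicClosure k)).injective.comp (IsFractionRing.injective R k)
  have hH0 : H ≠ 0 := by
    rintro rfl
    rw [Polynomial.map_zero] at hH
    exact hH.ne_zero rfl
  have hl : algebraMap R (AlgebraicClosure k) H.leadingCoeff ≠ 0 := by
    rw [Ne, map_eq_zero_iff _ hinj]
    exact leadingCoeff_ne_zero.2 hH0
  set P := (H.scaleRoots H.leadingCoeff).map (algebraMap R (AlgebraicClosure k)) with hP
  have h1 : P = (H.map (algebraMap R (AlgebraicClosure k))).scaleRoots
      (algebraMap R (AlgebraicClosure k) H.leadingCoeff) := map_scaleRoots _ _ _ hl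
  have hsep : (H.map (algebraMap R (AlgebraicClosure k))).Separable := by
    have h2 := hH.map (f := algebraMap k (AlgebraicClosure k))
    rwa [Polynomial.map_map, ← IsScalarTower.algebraMap_eq] at h2
  have hnd : P.roots.Nodup := by
    rw [h1, roots_scaleRoots _ (isUnit_iff_ne_zero.2 hl)]
    exact (Multiset.nodup_map_iff_of_injective (mul_right_injective₀ hl)).2 (nodup_roots hsep)
  have h2 := (IsAlgClosed.splits P).eq_prod_roots
  have h3 : P.leadingCoeff = algebraMap R (AlgebraicClosure k) H.leadingCoeff := by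
    rw [h1, leadingCoeff_scaleRoots, leadingCoeff_map_of_injective hinj]
  have h4 : (P.roots.map fun a => X - C a).prod = ∏ z ∈ zer k H, (X - C z) := by
    rw [zer, ← hP, Finset.prod, Multiset.toFinset_val, hnd.dedup]
  rw [h3, h4] at h2
  exact h2

lemma mem_zer (hH : (H.map (algebraMap R k)).Separable) (z : AlgebraicClosure k) :
    z ∈ zer k H ↔ aeval z (H.scaleRoots H.leadingCoeff) = 0 := by
  classical
  have hinj : Function.Injective (algebraMap R (AlgebraicClosure k)) := by
    rw [IsScalarTower.algebraMap_eq R k (AlgebraicClosure k)]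
    exact (algebraMap k (AlgebraicClosure k)).injective.comp (IsFractionRing.injective R k)
  have hH0 : H ≠ 0 := by
    rintro rfl
    rw [Polynomial.map_zero] at hH
    exact hH.ne_zero rfl
  rw [zer, Multiset.mem_toFinset, mem_roots, IsRoot.def, eval_map_algebraMap]
  rw [Polynomial.map_ne_zero_iff hinj]
  exact scaleRoots_ne_zero hH0 _

lemma zer_form (hH : (H.map (algebraMap R k)).Separable) (z : AlgebraicClosure k)
    (hz : z ∈ zer k H) : ∃ θ : AlgebraicClosure k, aeval θ (H.map (algebraMap R k)) = 0 ∧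
      z = algebraMap k (AlgebraicClosure k) (algebraMap R k H.leadingCoeff) * θ := by
  have hH0 : H ≠ 0 := by
    rintro rfl
    rw [Polynomial.map_zero] at hH
    exact hH.ne_zero rfl
  have hl : algebraMap k (AlgebraicClosure k) (algebraMap R k H.leadingCoeff) ≠ 0 := by
    rw [Ne, map_eq_zero_iff _ (algebraMap k (AlgebraicClosure k)).injective,
      map_eq_zero_iff _ (IsFractionRing.injective R k)]
    exact leadingCoeff_ne_zero.2 hH0
  rw [mem_zer H hH] at hz
  refine ⟨(algebraMap k (AlgebraicClosure k) (algebraMap R k H.leadingCoeff))⁻¹ * z, ?_, ?_⟩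
  · have h1 := scaleRoots_eval₂_mul (p := H) (algebraMap R (AlgebraicClosure k))
      ((algebraMap k (AlgebraicClosure k) (algebraMap R k H.leadingCoeff))⁻¹ * z) H.leadingCoeff
    have h2 : algebraMap R (AlgebraicClosure k) H.leadingCoeff =
        algebraMap k (AlgebraicClosure k) (algebraMap R k H.leadingCoeff) :=
      IsScalarTower.algebraMap_apply _ _ _ _
    rw [h2, mul_inv_cancel_left₀ hl, ← aeval_def, hz] at h1
    rw [aeval_map_algebraMap]
    exact (mul_eq_zero.1 h1.symm).resolve_left (pow_ne_zero _ hl)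
  · rw [mul_inv_cancel_left₀ hl]

lemma zer_stable (hH : (H.map (algebraMap R k)).Separable)
    (τ : AlgebraicClosure k ≃ₐ[k] AlgebraicClosure k) (z : AlgebraicClosure k)
    (hz : z ∈ zer k H) : τ z ∈ zer k H := by
  rw [mem_zer H hH] at hz ⊢
  rw [← aeval_map_algebraMap k] at hz ⊢
  change aeval (τ.toAlgHom z) _ = 0
  rw [aeval_algHom_apply, hz, map_zero]

lemma zer_integral (hH : (H.map (algebraMap R k)).Separable) (z : AlgebraicClosure k)
    (hz : z ∈ zer k H) : IsIntegral R z := by
  obtain ⟨θ, hθ, rfl⟩ := zer_form H hH z hz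
  rw [aeval_map_algebraMap] at hθ
  have h1 := isIntegral_leadingCoeff_smul H θ hθ
  rw [Algebra.smul_def, IsScalarTower.algebraMap_apply R k (AlgebraicClosure k)] at h1
  exact h1

end

end Pool.Agent.L0h9.SCF
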