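import Pool.Agent.L0h9.SCF.Res2

/-!
# The resolvent which detects factors of degree prime to `l`, III
-/

set_option autoImplicit false

namespace Pool.Agent.L0h9.SCF

open Polynomial

section

variable {R : Type} [CommRing R] [IsDomain R] {k : Type} [Field k] [CharZero k] [Algebra R k]
  [IsFractionRing R k] (H : R[X])

/-- the reduction: a factor of degree prime to `l` gives a root of the resolvent -/
theorem rsv_root (hH : (H.map (algebraMap R k)).Separable) (l c : ℕ) (Q : R[X])
    (hQ : ∀ T ∈ subs l (zer k H), aeval (eta c T) Q = 0)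
    (κ : Type) [Field κ] [Finite κ] (ρ : R →+* κ) (hρ : ρ H.leadingCoeff ≠ 0)
    (hroot : ∀ x, (Q.map ρ).eval x ≠ 0) : NoRt κ l (H.map ρ) := by
  classical
  intro κ' _ _ i j hcard hj x hx
  set Ω := AlgebraicClosure κ with hΩ
  let S := integralClosure R (AlgebraicClosure k)
  have hinj : Function.Injective (algebraMap R (AlgebraicClosure k)) := by
    rw [IsScalarTower.algebraMap_eq R k (AlgebraicClosure k)]
    exact (algebraMap k (AlgebraicClosure k)).injective.comp (IsFractionRing.injective R k)
  have hinjS : Function.Injective (algebraMap R S) := by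
    intro a b hab
    apply hinj
    rw [IsScalarTower.algebraMap_apply R S (AlgebraicClosure k), hab,
      ← IsScalarTower.algebraMap_apply R S (AlgebraicClosure k)]
  have hSinj : Function.Injective (algebraMap S (AlgebraicClosure k)) := Subtype.val_injective
  obtain ⟨ψ, hψ⟩ := Pool.Agent.L0h9.Gen.ext_integral hinjS ((algebraMap κ Ω).comp ρ)
  -- lifts to `S`
  let s : AlgebraicClosure k → S := fun z =>
    if h : IsIntegral R z then ⟨z, h⟩ else 0
  have hs : ∀ z ∈ zer k H, algebraMap S (AlgebraicClosure k) (s z) = z := by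
    intro z hz
    have h1 : s z = ⟨z, zer_integral H hH z hz⟩ := dif_pos (zer_integral H hH z hz)
    rw [h1]
    rfl
  -- the polynomial over `S`
  have hpS : (H.scaleRoots H.leadingCoeff).map (algebraMap R S) =
      C (algebraMap R S H.leadingCoeff) * ∏ z ∈ zer k H, (X - C (s z)) := by
    apply Polynomial.map_injective _ hSinj
    rw [Polynomial.map_map, ← IsScalarTower.algebraMap_eq, zer_spec H hH, Polynomial.map_mul,
      map_C, ← IsScalarTower.algebraMap_apply, Polynomial.map_prod]
    congr 1
    refine Finset.prod_congr rfl fun z hz => ?_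
    rw [Polynomial.map_sub, map_X, map_C, hs z hz]
  have hpΩ : ((H.scaleRoots H.leadingCoeff).map ρ).map (algebraMap κ Ω) =
      C (algebraMap κ Ω (ρ H.leadingCoeff)) * ∏ z ∈ zer k H, (X - C (ψ (s z))) := by
    have h1 := congrArg (fun p => p.map ψ) hpS
    simp only [Polynomial.map_map, Polynomial.map_mul, map_C, Polynomial.map_prod,
      Polynomial.map_sub, map_X] at h1
    rw [hψ] at h1
    rw [Polynomial.map_map, h1]
    congr 2
    rw [← RingHom.comp_apply, hψ]
    rfl
  -- the factor of degree prime to `l`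
  let _ : Algebra κ κ' := i.toAlgebra
  have hmS : (H.scaleRoots H.leadingCoeff).map ρ = (H.map ρ).scaleRoots (ρ H.leadingCoeff) :=
    map_scaleRoots _ _ _ hρ
  have hy : aeval (i (ρ H.leadingCoeff) * x) ((H.scaleRoots H.leadingCoeff).map ρ) = 0 := by
    rw [hmS]
    exact scaleRoots_eval₂_eq_zero i hx
  set y := i (ρ H.leadingCoeff) * x with hydef
  have hint : IsIntegral κ y := Algebra.IsIntegral.isIntegral y
  have hjr : j = Module.finrank κ κ' := by
    have h2 : Nat.card κ' = Nat.card κ ^ Module.finrank κ κ' := Module.natCard_eq_pow_finrank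
    rw [hcard] at h2
    exact Nat.pow_right_injective (Finite.one_lt_card : 1 < Nat.card κ) h2
  have hnd : ¬ l ∣ (minpoly κ y).natDegree := by
    intro h
    apply hj
    rw [hjr]
    exact h.trans (minpoly.degree_dvd hint)
  have hdv : (minpoly κ y).map (algebraMap κ Ω) ∣ ∏ z ∈ zer k H, (X - C (ψ (s z))) := by
    have h1 := Polynomial.map_dvd (algebraMap κ Ω) (minpoly.dvd κ y hy)
    rw [hpΩ] at h1
    have hu : IsUnit (C (algebraMap κ Ω (ρ H.leadingCoeff))) := by
      rw [isUnit_C, isUnit_iff_ne_zero, Ne, map_eq_zero_iff _ (algebraMap κ Ω).injective]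
      exact hρ
    exact (hu.dvd_mul_left).1 h1
  obtain ⟨T, hT, hTp⟩ := prod_of_dvd (zer k H) (fun z => ψ (s z))
    ((minpoly κ y).map (algebraMap κ Ω)) ((minpoly.monic hint).map _) hdv
  have hTc : T.card = (minpoly κ y).natDegree := by
    have h1 := congrArg natDegree hTp
    rw [natDegree_map, natDegree_finsetProd_X_sub_C_eq_card] at h1
    exact h1.symm
  have hTs : T ∈ subs l (zer k H) := by
    rw [mem_subs, hTc]
    exact ⟨hT, hnd⟩
  -- the root of the resolvent
  have hval : ψ (∏ z ∈ T, ((c : S) - s z)) = algebraMap κ Ω ((minpoly κ y).eval (c : κ)) := by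
    have h1 : ((minpoly κ y).map (algebraMap κ Ω)).eval (c : Ω) =
        algebraMap κ Ω ((minpoly κ y).eval (c : κ)) := by
      rw [← map_natCast (algebraMap κ Ω) c, eval_map_apply]
    rw [← h1, hTp, eval_prod, map_prod]
    refine Finset.prod_congr rfl fun z _ => ?_
    rw [map_sub, map_natCast, eval_sub, eval_X, eval_C]
  have hQS : aeval (∏ z ∈ T, ((c : S) - s z)) Q = 0 := by
    apply hSinj
    rw [map_zero, ← aeval_algebraMap_apply, ← hQ T hTs]
    congr 1
    congr 1
    rw [map_prod, eta]
    refine Finset.prod_congr rfl fun z hz => ?_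
    rw [map_sub, map_natCast, hs z (hT hz)]
  have h3 := congrArg ψ hQS
  rw [map_zero, aeval_def, Polynomial.hom_eval₂, hψ, hval, ← eval₂_map, eval₂_at_apply] at h3
  rw [map_eq_zero_iff _ (algebraMap κ Ω).injective] at h3
  exact hroot _ h3

/-- the resolvent -/
theorem exists_resolvent (hH : (H.map (algebraMap R k)).Separable) (l : ℕ) (hl : l.Prime)
    (σ : AlgebraicClosure k ≃ₐ[k] AlgebraicClosure k)
    (hσ : ∀ θ : AlgebraicClosure k, aeval θ (H.map (algebraMap R k)) = 0 →
      ∀ j : ℕ, (σ ^ j) θ = θ → l ∣ j) :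
    ∃ Q : R[X], (Q.map (algebraMap R k)).Separable ∧
      (∀ θ : AlgebraicClosure k, aeval θ (Q.map (algebraMap R k)) = 0 → σ θ ≠ θ) ∧
      ∀ (κ : Type) [Field κ] [Finite κ] (ρ : R →+* κ), ρ H.leadingCoeff ≠ 0 →
        (∀ x, (Q.map ρ).eval x ≠ 0) → NoRt κ l (H.map ρ) := by
  classical
  obtain ⟨c, hc⟩ := exists_sep (zer k H)
  obtain ⟨Q1, hQ1⟩ := rsv_descend l c (zer k H) (zer_stable H hH)
  obtain ⟨D, Q', hD, hQ'⟩ := exists_denom (R := R) (fun _ : Unit => Q1)
  set Q := Q' () with hQdef
  have hQk : Q.map (algebraMap R k) = C (algebraMap R k D) * Q1 := hQ' ()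
  have hDk : algebraMap R k D ≠ 0 := by
    rwa [Ne, map_eq_zero_iff _ (IsFractionRing.injective R k)]
  have hDΩ : algebraMap k (AlgebraicClosure k) (algebraMap R k D) ≠ 0 := by
    rwa [Ne, map_eq_zero_iff _ (algebraMap k (AlgebraicClosure k)).injective]
  have hev : ∀ θ : AlgebraicClosure k, aeval θ (Q.map (algebraMap R k)) =
      algebraMap k (AlgebraicClosure k) (algebraMap R k D) * (rsv l c (zer k H)).eval θ := by
    intro θ
    rw [hQk, map_mul, aeval_C, ← hQ1, eval_map_algebraMap]
  refine ⟨Q, ?_, ?_, ?_⟩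
  · rw [hQk]
    refine Separable.unit_mul (isUnit_C.2 hDk.isUnit) ?_
    rw [← Polynomial.separable_map (algebraMap k (AlgebraicClosure k)), hQ1, rsv,
      separable_prod_X_sub_C_iff']
    intro T hT T' hT' h
    rw [mem_subs] at hT hT'
    exact hc T hT.1 T' hT'.1 h
  · intro θ hθ hfix
    rw [hev] at hθ
    have h1 := (mul_eq_zero.1 hθ).resolve_left hDΩ
    rw [rsv, eval_prod, Finset.prod_eq_zero_iff] at h1
    obtain ⟨T, hT, h2⟩ := h1
    rw [eval_sub, eval_X, eval_C, sub_eq_zero] at h2
    rw [mem_subs] at hT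
    rw [h2, ← eta_image] at hfix
    have h3 : T.image σ ⊆ zer k H := by
      intro z hz
      obtain ⟨y, hy, rfl⟩ := Finset.mem_image.1 hz
      exact zer_stable H hH σ y (hT.1 hy)
    have h4 := hc _ h3 _ hT.1 hfix
    apply hT.2
    refine card_dvd_of_perm hl T σ σ.injective ?_ ?_
    · intro z hz
      have h5 : σ z ∈ T.image σ := Finset.mem_image_of_mem _ hz
      rwa [h4] at h5
    · intro z hz j hj
      obtain ⟨θ', hθ', rfl⟩ := zer_form H hH z (hT.1 hz)
      refine hσ θ' hθ' j ?_
      have h5 : ∀ (j : ℕ) (x : AlgebraicClosure k), (σ ^ j) x = σ^[j] x := by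
        intro j
        induction j with
        | zero => intro x; rfl
        | succ j ih => intro x; rw [pow_succ, AlgEquiv.mul_apply, ih, Function.iterate_succ_apply]
      rw [← h5, map_mul, AlgEquiv.commutes] at hj
      refine mul_left_cancel₀ ?_ hj
      rw [Ne, map_eq_zero_iff _ (algebraMap k (AlgebraicClosure k)).injective,
        map_eq_zero_iff _ (IsFractionRing.injective R k), leadingCoeff_eq_zero]
      rintro rfl
      rw [Polynomial.map_zero] at hH
      exact hH.ne_zero rfl
  · intro κ _ _ ρ hρ hroot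
    refine rsv_root H hH l c Q ?_ κ ρ hρ hroot
    intro T hT
    rw [← aeval_map_algebraMap k, hev, rsv, eval_prod,
      Finset.prod_eq_zero hT (by rw [eval_sub, eval_X, eval_C, sub_self]), mul_zero]

end

end Pool.Agent.L0h9.SCF
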